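import Mathlib

/-!
MODULE DUAL. The large sieve by duality, weighted.

PROOF. `a v := ∑ h ∈ H, c h * ψ v h`, `T := ∑ v ∈ A, ‖a v‖^2 = ∑ v, conj (a v) * a v
= ∑ h ∈ H, c h * b h`, `b h := ∑ v ∈ A, conj (a v) * ψ v h`. Cauchy-Schwarz over the `h` with `c h ≠ 0`:
`T^2 ≤ (∑ ‖c h‖^2) (∑_{h : c h ≠ 0} ‖b h‖^2) ≤ (∑ ‖c h‖^2) ∑ h ∈ H, ω h * ‖b h‖^2`, and
`∑ h, ω h ‖b h‖^2 = ∑_{v,v'} conj (a v) a v' ∑_h ω h ψ v h conj (ψ v' h) ≤
∑_{v,v'} (‖a v‖^2 + ‖a v'‖^2)/2 * ‖K v v'‖ ≤ D T`, as `‖K v v'‖ = ‖K v' v‖`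
(`K v v' := ∑ h, ω h ψ v h conj (ψ v' h)`, conjugate symmetric). So `T^2 ≤ ‖c‖^2 D T`.
-/

set_option autoImplicit false

namespace Pool.Agent.Work.Vino

open Finset

theorem dual {α β : Type*} (A : Finset α) (H : Finset β) (ψ : α → β → ℂ) (ω : β → ℝ) (c : β → ℂ)
    (hω : ∀ h ∈ H, 0 ≤ ω h) (hc : ∀ h ∈ H, c h = 0 ∨ 1 ≤ ω h) (D : ℝ) (hD : 0 ≤ D)
    (hK : ∀ v ∈ A, ∑ v' ∈ A,
      ‖∑ h ∈ H, (ω h : ℂ) * (ψ v h * (starRingEnd ℂ) (ψ v' h))‖ ≤ D) :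
    ∑ v ∈ A, ‖∑ h ∈ H, c h * ψ v h‖ ^ 2 ≤ D * ∑ h ∈ H, ‖c h‖ ^ 2 := by
  classical
  set a : α → ℂ := fun v => ∑ h ∈ H, c h * ψ v h with ha
  set b : β → ℂ := fun h => ∑ v ∈ A, (starRingEnd ℂ) (a v) * ψ v h with hb
  set Kf : α → α → ℂ := fun v v' =>
    ∑ h ∈ H, (ω h : ℂ) * (ψ v h * (starRingEnd ℂ) (ψ v' h)) with hKf
  have hKf' : ∀ v ∈ A, ∑ v' ∈ A, ‖Kf v v'‖ ≤ D := hK
  have hTeq : ∑ v ∈ A, ‖∑ h ∈ H, c h * ψ v h‖ ^ 2 = ∑ v ∈ A, ‖a v‖ ^ 2 := rfl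
  rw [hTeq]
  set T : ℝ := ∑ v ∈ A, ‖a v‖ ^ 2 with hT
  set N : ℝ := ∑ h ∈ H, ‖c h‖ ^ 2 with hN
  set M : ℝ := ∑ h ∈ H, ω h * ‖b h‖ ^ 2 with hM
  have hT0 : 0 ≤ T := Finset.sum_nonneg fun v _ => by positivity
  have hN0 : 0 ≤ N := Finset.sum_nonneg fun v _ => by positivity
  have hM0 : 0 ≤ M := Finset.sum_nonneg fun h hh => mul_nonneg (hω h hh) (by positivity)
  have hnsq : ∀ z : ℂ, ((‖z‖ : ℝ) : ℂ) ^ 2 = (starRingEnd ℂ) z * z := by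
    intro z
    rw [← Complex.ofReal_pow, ← Complex.normSq_eq_norm_sq, Complex.normSq_eq_conj_mul_self]
  have hsym : ∀ v v', ‖Kf v v'‖ = ‖Kf v' v‖ := by
    intro v v'
    have h1 : (starRingEnd ℂ) (Kf v v') = Kf v' v := by
      simp only [hKf, map_sum, map_mul, Complex.conj_ofReal, Complex.conj_conj]
      refine Finset.sum_congr rfl fun h _ => by ring
    rw [← h1, Complex.norm_conj]
  -- duality
  have h1 : (T : ℂ) = ∑ h ∈ H, c h * b h := by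
    rw [hT]
    push_cast
    simp only [hb, Finset.mul_sum]
    rw [Finset.sum_comm]
    refine Finset.sum_congr rfl fun v _ => ?_
    rw [hnsq]
    calc (starRingEnd ℂ) (a v) * a v = (starRingEnd ℂ) (a v) * ∑ h ∈ H, c h * ψ v h := rfl
      _ = ∑ h ∈ H, c h * ((starRingEnd ℂ) (a v) * ψ v h) := by
        rw [Finset.mul_sum]
        exact Finset.sum_congr rfl fun h _ => by ring
  have h2 : T ≤ ∑ h ∈ H, ‖c h‖ * (Real.sqrt (ω h) * ‖b h‖) := by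
    calc T = ‖(T : ℂ)‖ := by rw [Complex.norm_real, Real.norm_of_nonneg hT0]
      _ ≤ ∑ h ∈ H, ‖c h * b h‖ := by rw [h1]; exact norm_sum_le _ _
      _ ≤ _ := by
        refine Finset.sum_le_sum fun h hh => ?_
        rw [norm_mul]
        rcases hc h hh with h3 | h3
        · rw [h3, norm_zero, zero_mul, zero_mul]
        · refine mul_le_mul_of_nonneg_left ?_ (norm_nonneg _)
          have h4 : 1 ≤ Real.sqrt (ω h) := Real.one_le_sqrt.2 h3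
          nlinarith [norm_nonneg (b h)]
  have h3 : T ^ 2 ≤ N * M := by
    calc T ^ 2 ≤ (∑ h ∈ H, ‖c h‖ * (Real.sqrt (ω h) * ‖b h‖)) ^ 2 :=
          pow_le_pow_left₀ hT0 h2 2
      _ ≤ (∑ h ∈ H, ‖c h‖ ^ 2) * ∑ h ∈ H, (Real.sqrt (ω h) * ‖b h‖) ^ 2 :=
          Finset.sum_mul_sq_le_sq_mul_sq _ _ _
      _ = N * M := by
        congr 1
        refine Finset.sum_congr rfl fun h hh => ?_
        rw [mul_pow, Real.sq_sqrt (hω h hh)]
  -- the quadratic form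
  have h4 : (M : ℂ) = ∑ v ∈ A, ∑ v' ∈ A, (starRingEnd ℂ) (a v) * a v' * Kf v v' := by
    have e1 : ∀ h, ((‖b h‖ : ℝ) : ℂ) ^ 2 = ∑ v ∈ A, ∑ v' ∈ A,
        ((starRingEnd ℂ) (a v) * a v') * (ψ v h * (starRingEnd ℂ) (ψ v' h)) := by
      intro h
      rw [hnsq, mul_comm]
      simp only [hb]
      rw [map_sum, Finset.sum_mul_sum]
      refine Finset.sum_congr rfl fun v _ => Finset.sum_congr rfl fun v' _ => ?_
      rw [map_mul, Complex.conj_conj]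
      ring
    rw [hM]
    push_cast
    calc ∑ h ∈ H, (ω h : ℂ) * ((‖b h‖ : ℝ) : ℂ) ^ 2
        = ∑ h ∈ H, ∑ v ∈ A, ∑ v' ∈ A, (starRingEnd ℂ) (a v) * a v' *
            ((ω h : ℂ) * (ψ v h * (starRingEnd ℂ) (ψ v' h))) := by
          refine Finset.sum_congr rfl fun h _ => ?_
          rw [e1, Finset.mul_sum]
          refine Finset.sum_congr rfl fun v _ => ?_
          rw [Finset.mul_sum]
          exact Finset.sum_congr rfl fun v' _ => by ring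
      _ = ∑ v ∈ A, ∑ v' ∈ A, ∑ h ∈ H, (starRingEnd ℂ) (a v) * a v' *
            ((ω h : ℂ) * (ψ v h * (starRingEnd ℂ) (ψ v' h))) := by
          rw [Finset.sum_comm]
          exact Finset.sum_congr rfl fun v _ => Finset.sum_comm
      _ = _ := by
          refine Finset.sum_congr rfl fun v _ => Finset.sum_congr rfl fun v' _ => ?_
          exact (Finset.mul_sum _ _ _).symm
  have h5 : M ≤ D * T := by
    calc M = ‖(M : ℂ)‖ := by rw [Complex.norm_real, Real.norm_of_nonneg hM0]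
      _ ≤ ∑ v ∈ A, ∑ v' ∈ A, ‖a v‖ * ‖a v'‖ * ‖Kf v v'‖ := by
        rw [h4]
        refine (norm_sum_le _ _).trans (Finset.sum_le_sum fun v _ => ?_)
        refine (norm_sum_le _ _).trans (Finset.sum_le_sum fun v' _ => ?_)
        rw [norm_mul, norm_mul, Complex.norm_conj]
      _ ≤ ∑ v ∈ A, ∑ v' ∈ A, (‖a v‖ ^ 2 / 2 * ‖Kf v v'‖ + ‖a v'‖ ^ 2 / 2 * ‖Kf v' v‖) := by
        refine Finset.sum_le_sum fun v _ => Finset.sum_le_sum fun v' _ => ?_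
        rw [← hsym v v', ← add_mul]
        refine mul_le_mul_of_nonneg_right ?_ (norm_nonneg _)
        nlinarith [sq_nonneg (‖a v‖ - ‖a v'‖)]
      _ = ∑ v ∈ A, ‖a v‖ ^ 2 * ∑ v' ∈ A, ‖Kf v v'‖ := by
        simp only [Finset.sum_add_distrib]
        have e2 : ∑ v ∈ A, ∑ v' ∈ A, ‖a v'‖ ^ 2 / 2 * ‖Kf v' v‖ =
            ∑ v ∈ A, ∑ v' ∈ A, ‖a v‖ ^ 2 / 2 * ‖Kf v v'‖ := Finset.sum_comm
        rw [e2, ← Finset.sum_add_distrib]
        refine Finset.sum_congr rfl fun v _ => ?_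
        rw [← Finset.mul_sum]
        ring
      _ ≤ ∑ v ∈ A, ‖a v‖ ^ 2 * D := Finset.sum_le_sum fun v hv =>
        mul_le_mul_of_nonneg_left (hKf' v hv) (by positivity)
      _ = D * T := by rw [← Finset.sum_mul, mul_comm]
  rcases eq_or_lt_of_le hT0 with h6 | h6
  · rw [← h6]
    exact mul_nonneg hD hN0
  · have h7 : T * T ≤ (D * N) * T := by
      calc T * T = T ^ 2 := by ring
        _ ≤ N * M := h3
        _ ≤ N * (D * T) := mul_le_mul_of_nonneg_left h5 hN0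
        _ = (D * N) * T := by ring
    exact le_of_mul_le_mul_right h7 h6

end Pool.Agent.Work.Vino
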