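import Pool.Agent.Work.MP_215640_nt.Basic

/-!
MODULE FEJER. The Fejer kernel `∑_{|h| < 2H} (2 - |h|/H) e(h t)`.

`ee t = exp (2 π i t)`, `dI t` = distance to the nearest integer, `ee_add`, `norm_ee`,
`norm_one_sub_ee : 4 * dI t ≤ ‖1 - ee t‖`, `ee_nat_mul`, `ee_neg` are in MP_215640_nt/Basic.lean.

PROOF. `fejer_eq`: expand `‖∑_{j<2H} e(j t)‖^2 = ∑_{j,j'<2H} e((j-j') t)`; the number of
`(j, j') ∈ [0,2H)^2` with `j - j' = h` is `2H - |h|`. `fejer_norm`: so the sum is a nonnegative real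
number, at most `(2H)^2/H = 4H`.
`fejer_sum`: all terms `F(β (v-v')) := ∑_h om h e(h β (v - v'))` are nonnegative reals, so
`∑_{v'} ‖F‖ = ‖∑_{v'} F‖ = ‖∑_h om h e(h β v) ∑_{v'<V} e(-h β v')‖ ≤ om 0 * V + ∑_{0<|h|<2H} om h
* 1/(2 dI (h β))`: geometric sum `‖∑_{v'<V} z^v'‖ ≤ 2/‖1-z‖ ≤ 1/(2 dI)`; `dI (h β) ≥ η`
(`dI_neg` for negative `h`), and `∑_h om h = 4H` (`fejer_eq` at `t = 0`). Total `≤ 2V + 4H/(2η)`.
-/

set_option autoImplicit false

namespace Pool.Agent.Work.Vino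

open Finset
open Pool.Agent.Work.MP_215640_nt (ee dI Gen)

/-- the weights of the Fejer kernel -/
noncomputable def om (H : ℕ) (h : ℤ) : ℝ := max 0 (2 - |(h : ℝ)| / H)

theorem om_nonneg (H : ℕ) (h : ℤ) : 0 ≤ om H h := le_max_left _ _

theorem one_le_om (H : ℕ) (hH : 1 ≤ H) (h : ℤ) (hh : |h| ≤ (H : ℤ)) : 1 ≤ om H h := by
  have hH0 : (0 : ℝ) < H := by exact_mod_cast hH
  have h1 : |(h : ℝ)| ≤ H := by exact_mod_cast hh
  have h2 : |(h : ℝ)| / H ≤ 1 := (div_le_one hH0).2 h1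
  unfold om
  exact le_trans (by linarith) (le_max_right _ _)

private theorem ioo_succ (N : ℕ) (f : ℤ → ℂ) :
    ∑ h ∈ Ioo (-((N : ℤ) + 1)) ((N : ℤ) + 1), f h =
      ∑ h ∈ Ioo (-(N : ℤ)) N, f h + (if N = 0 then f 0 else f N + f (-N)) := by
  rcases Nat.eq_zero_or_pos N with h0 | h0
  · subst h0
    have e1 : Ioo (-(((0 : ℕ) : ℤ) + 1)) (((0 : ℕ) : ℤ) + 1) = {0} := by
      ext x
      rw [mem_Ioo, mem_singleton]
      push_cast
      omega
    rw [e1]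
    simp
  · have e1 : Ioo (-((N : ℤ) + 1)) ((N : ℤ) + 1) =
        insert (N : ℤ) (insert (-(N : ℤ)) (Ioo (-(N : ℤ)) N)) := by
      ext x
      rw [mem_insert, mem_insert, mem_Ioo, mem_Ioo]
      omega
    rw [e1, sum_insert, sum_insert, if_neg (by omega)]
    · ring
    · rw [mem_Ioo]; omega
    · rw [mem_insert, mem_Ioo]; omega

private theorem ioo_sum (N : ℕ) (f : ℤ → ℂ) :
    ∑ h ∈ Ioo (-((N : ℤ) + 1)) ((N : ℤ) + 1), f h =
      ∑ j ∈ range N, f ((j : ℤ) - N) + ∑ j ∈ range N, f ((N : ℤ) - j) + f 0 := by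
  induction N with
  | zero =>
    rw [ioo_succ]
    simp
  | succ N ih =>
    rw [ioo_succ, if_neg (by omega)]
    push_cast at ih ⊢
    rw [ih, sum_range_succ', sum_range_succ']
    have e1 : ∀ j : ℕ, ((j + 1 : ℕ) : ℤ) - ((N : ℤ) + 1) = (j : ℤ) - N := by
      intro j; push_cast; ring
    have e2 : ∀ j : ℕ, (N : ℤ) + 1 - ((j + 1 : ℕ) : ℤ) = (N : ℤ) - j := by
      intro j; push_cast; ring
    simp only [e1, e2]
    push_cast
    rw [zero_sub, sub_zero]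
    ring

private theorem diff_sum (N : ℕ) (f : ℤ → ℂ) :
    ∑ j ∈ range N, ∑ j' ∈ range N, f ((j : ℤ) - j') =
      ∑ h ∈ Ioo (-(N : ℤ)) N, (((N : ℝ) - |(h : ℝ)| : ℝ) : ℂ) * f h := by
  induction N with
  | zero => simp
  | succ N ih =>
    have e1 : ∑ j ∈ range (N + 1), ∑ j' ∈ range (N + 1), f ((j : ℤ) - j') =
        ∑ j ∈ range N, ∑ j' ∈ range N, f ((j : ℤ) - j') +
          (∑ j ∈ range N, f ((j : ℤ) - N) + ∑ j ∈ range N, f ((N : ℤ) - j) + f 0) := by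
      rw [sum_range_succ]
      have e2 : ∀ j ∈ range N, ∑ j' ∈ range (N + 1), f ((j : ℤ) - j') =
          ∑ j' ∈ range N, f ((j : ℤ) - j') + f ((j : ℤ) - N) := fun j _ => sum_range_succ _ _
      rw [sum_congr rfl e2, sum_add_distrib, sum_range_succ, sub_self]
      ring
    rw [e1, ← ioo_sum, ih]
    have e3 : (((N + 1 : ℕ) : ℤ)) = (N : ℤ) + 1 := by push_cast; ring
    rw [e3, ioo_succ N (fun h => ((((N + 1 : ℕ) : ℝ) - |(h : ℝ)| : ℝ) : ℂ) * f h), ioo_succ N f]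
    have e4 : ∑ h ∈ Ioo (-(N : ℤ)) N, ((((N + 1 : ℕ) : ℝ) - |(h : ℝ)| : ℝ) : ℂ) * f h =
        ∑ h ∈ Ioo (-(N : ℤ)) N, (((N : ℝ) - |(h : ℝ)| : ℝ) : ℂ) * f h +
          ∑ h ∈ Ioo (-(N : ℤ)) N, f h := by
      rw [← sum_add_distrib]
      refine sum_congr rfl fun h _ => ?_
      push_cast
      ring
    rw [e4]
    split_ifs with h0
    · subst h0
      simp
    · push_cast
      simp
      ring

theorem fejer_eq (H : ℕ) (hH : 1 ≤ H) (t : ℝ) :
    ∑ h ∈ Ioo (-(2 * H : ℤ)) (2 * H : ℤ), (om H h : ℂ) * ee (h * t)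
      = ((1 / (H : ℝ) * ‖∑ j ∈ range (2 * H), ee (j * t)‖ ^ 2 : ℝ) : ℂ) := by
  have hH0 : (H : ℝ) ≠ 0 := by
    have : 0 < H := hH
    positivity
  have h1 : ((‖∑ j ∈ range (2 * H), ee (j * t)‖ ^ 2 : ℝ) : ℂ) =
      ∑ j ∈ range (2 * H), ∑ j' ∈ range (2 * H), ee (((((j : ℤ) - (j' : ℤ) : ℤ)) : ℝ) * t) := by
    rw [← Complex.normSq_eq_norm_sq, Complex.normSq_eq_conj_mul_self, mul_comm, map_sum,
      sum_mul_sum]
    refine sum_congr rfl fun j _ => sum_congr rfl fun j' _ => ?_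
    rw [← MP_215640_nt.ee_neg, ← MP_215640_nt.ee_add]
    congr 1
    push_cast
    ring
  rw [Complex.ofReal_mul, h1, diff_sum (2 * H) (fun h => ee ((h : ℝ) * t)), mul_sum]
  have e3 : (((2 * H : ℕ) : ℤ)) = 2 * (H : ℤ) := by push_cast; ring
  rw [e3]
  refine sum_congr rfl fun h hh => ?_
  rw [mem_Ioo] at hh
  have h2 : |(h : ℝ)| ≤ 2 * H := by
    rw [abs_le]
    constructor
    · have : (-(2 * H : ℤ) : ℝ) ≤ h := by exact_mod_cast hh.1.le
      push_cast at this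
      linarith
    · exact_mod_cast hh.2.le
  have h3 : om H h = 1 / (H : ℝ) * (((2 * H : ℕ) : ℝ) - |(h : ℝ)|) := by
    unfold om
    rw [max_eq_right]
    · push_cast
      field_simp
    · have : |(h : ℝ)| / H ≤ 2 := by
        rw [div_le_iff₀ (by positivity)]
        exact h2
      linarith
  rw [h3]
  push_cast
  ring

private theorem om_term_norm (H : ℕ) (t : ℝ) :
    ‖∑ j ∈ range (2 * H), ee (j * t)‖ ≤ 2 * H := by
  refine (norm_sum_le _ _).trans ?_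
  rw [sum_congr rfl fun (j : ℕ) _ => MP_215640_nt.norm_ee ((j : ℝ) * t)]
  simp

theorem fejer_norm (H : ℕ) (hH : 1 ≤ H) (t : ℝ) :
    ‖∑ h ∈ Ioo (-(2 * H : ℤ)) (2 * H : ℤ), (om H h : ℂ) * ee (h * t)‖ ≤ 4 * H := by
  have hH0 : (0 : ℝ) < H := by exact_mod_cast hH
  rw [fejer_eq H hH, Complex.norm_real, Real.norm_of_nonneg (by positivity)]
  have h1 := om_term_norm H t
  calc 1 / (H : ℝ) * ‖∑ j ∈ range (2 * H), ee (j * t)‖ ^ 2
      ≤ 1 / (H : ℝ) * (2 * (H : ℝ)) ^ (2 : ℕ) := by gcongr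
    _ = 4 * (H : ℝ) := by field_simp; ring

private theorem geom_bound (V : ℕ) (x θ η : ℝ) (hη : 0 < η) (hθ : η ≤ dI θ) :
    ‖∑ v' ∈ range V, ee (x - v' * θ)‖ ≤ 1 / (2 * η) := by
  have h1 : 4 * dI θ ≤ ‖1 - ee (-θ)‖ := by
    have := MP_215640_nt.norm_one_sub_ee (-θ)
    rwa [MP_215640_nt.dI_neg] at this
  have hpos : 0 < ‖1 - ee (-θ)‖ := lt_of_lt_of_le (by linarith) h1
  have hne : ee (-θ) ≠ 1 := by
    intro h
    rw [h, sub_self, norm_zero] at hpos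
    exact lt_irrefl _ hpos
  have h2 : ∑ v' ∈ range V, ee (x - v' * θ) = ee x * ∑ v' ∈ range V, ee (-θ) ^ v' := by
    rw [mul_sum]
    refine sum_congr rfl fun v' _ => ?_
    rw [← MP_215640_nt.ee_nat_mul, ← MP_215640_nt.ee_add]
    congr 1
    ring
  rw [h2, norm_mul, MP_215640_nt.norm_ee, one_mul, geom_sum_eq hne, norm_div]
  have h3 : ‖ee (-θ) ^ V - 1‖ ≤ 2 := by
    refine (norm_sub_le _ _).trans ?_
    rw [norm_pow, MP_215640_nt.norm_ee, one_pow, norm_one]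
    norm_num
  rw [← norm_sub_rev 1 (ee (-θ)), div_le_div_iff₀ hpos (by positivity)]
  nlinarith [norm_nonneg (ee (-θ) ^ V - 1)]

theorem fejer_sum (H V : ℕ) (hH : 1 ≤ H) (β η : ℝ) (hη : 0 < η)
    (hβ : ∀ h : ℕ, 1 ≤ h → h < 2 * H → η ≤ dI (h * β)) (v : ℝ) :
    ∑ v' ∈ range V, ‖∑ h ∈ Ioo (-(2 * H : ℤ)) (2 * H : ℤ),
      (om H h : ℂ) * ee (h * (β * (v - v')))‖ ≤ 2 * V + 2 * H / η := by
  have hH0 : (0 : ℝ) < H := by exact_mod_cast hH
  set r : ℕ → ℝ := fun v' => 1 / (H : ℝ) * ‖∑ j ∈ range (2 * H), ee (j * (β * (v - v')))‖ ^ 2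
    with hr
  have hr0 : ∀ v', 0 ≤ r v' := fun v' => by positivity
  have hF : ∀ v' : ℕ, ∑ h ∈ Ioo (-(2 * H : ℤ)) (2 * H : ℤ),
      (om H h : ℂ) * ee (h * (β * (v - v'))) = (r v' : ℂ) := fun v' => fejer_eq H hH _
  have h1 : ∑ v' ∈ range V, ‖∑ h ∈ Ioo (-(2 * H : ℤ)) (2 * H : ℤ),
      (om H h : ℂ) * ee (h * (β * (v - v')))‖ =
      ‖∑ v' ∈ range V, ∑ h ∈ Ioo (-(2 * H : ℤ)) (2 * H : ℤ),
      (om H h : ℂ) * ee (h * (β * (v - v')))‖ := by
    rw [sum_congr rfl fun v' _ => hF v']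
    rw [← Complex.ofReal_sum, Complex.norm_real, Real.norm_of_nonneg (sum_nonneg fun v' _ => hr0 v')]
    refine sum_congr rfl fun v' _ => ?_
    rw [hF, Complex.norm_real, Real.norm_of_nonneg (hr0 v')]
  rw [h1, sum_comm]
  have hom : ∑ h ∈ Ioo (-(2 * H : ℤ)) (2 * H : ℤ), om H h ≤ 4 * H := by
    have h2 := fejer_norm H hH 0
    have h3 : ∑ h ∈ Ioo (-(2 * H : ℤ)) (2 * H : ℤ), (om H h : ℂ) * ee (h * 0) =
        ((∑ h ∈ Ioo (-(2 * H : ℤ)) (2 * H : ℤ), om H h : ℝ) : ℂ) := by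
      rw [Complex.ofReal_sum]
      refine sum_congr rfl fun h _ => ?_
      rw [mul_zero, MP_215640_nt.ee_zero, mul_one]
    rw [h3, Complex.norm_real, Real.norm_of_nonneg (sum_nonneg fun h _ => om_nonneg H h)] at h2
    exact h2
  have hterm : ∀ h ∈ Ioo (-(2 * H : ℤ)) (2 * H : ℤ),
      ‖∑ v' ∈ range V, (om H h : ℂ) * ee (h * (β * (v - v')))‖ ≤
        om H h * (1 / (2 * η)) + (if h = 0 then 2 * (V : ℝ) else 0) := by
    intro h hh
    rw [mem_Ioo] at hh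
    rw [← mul_sum, norm_mul, Complex.norm_real, Real.norm_of_nonneg (om_nonneg H h)]
    split_ifs with h0
    · subst h0
      have e1 : ‖∑ v' ∈ range V, ee (((0 : ℤ) : ℝ) * (β * (v - v')))‖ ≤ V := by
        refine (norm_sum_le _ _).trans ?_
        rw [sum_congr rfl fun (v' : ℕ) _ => MP_215640_nt.norm_ee (((0 : ℤ) : ℝ) * (β * (v - v')))]
        simp
      have e2 : om H 0 = 2 := by
        unfold om
        simp
      rw [e2]
      have h5 : 0 ≤ 2 * (1 / (2 * η)) := by positivity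
      refine (mul_le_mul_of_nonneg_left e1 (by norm_num)).trans ?_
      linarith
    · rw [add_zero]
      refine mul_le_mul_of_nonneg_left ?_ (om_nonneg H h)
      have e1 : η ≤ dI (h * β) := by
        obtain ⟨n, hn | hn⟩ := h.eq_nat_or_neg
        · rw [hn]
          have := hβ n (by omega) (by omega)
          simpa using this
        · rw [hn]
          have := hβ n (by omega) (by omega)
          rw [← MP_215640_nt.dI_neg] at this
          convert this using 2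
          push_cast
          ring
      have e2 := geom_bound V (h * β * v) (h * β) η hη e1
      refine le_trans (le_of_eq ?_) e2
      congr 1
      refine sum_congr rfl fun v' _ => ?_
      congr 1
      ring
  calc ‖∑ h ∈ Ioo (-(2 * H : ℤ)) (2 * H : ℤ), ∑ v' ∈ range V,
        (om H h : ℂ) * ee (h * (β * (v - v')))‖
      ≤ ∑ h ∈ Ioo (-(2 * H : ℤ)) (2 * H : ℤ),
        (om H h * (1 / (2 * η)) + (if h = 0 then 2 * (V : ℝ) else 0)) :=
        (norm_sum_le _ _).trans (sum_le_sum hterm)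
    _ = (∑ h ∈ Ioo (-(2 * H : ℤ)) (2 * H : ℤ), om H h) * (1 / (2 * η)) + 2 * V := by
        rw [sum_add_distrib, ← sum_mul, sum_ite_eq' , if_pos]
        rw [mem_Ioo]
        omega
    _ ≤ (4 * H) * (1 / (2 * η)) + 2 * V := by gcongr
    _ = 2 * V + 2 * H / η := by field_simp; ring

end Pool.Agent.Work.Vino
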