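import Pool.Agent.Work.Vino.Defs
import Pool.Agent.Work.Vino.Dual
import Pool.Agent.Work.Vino.Fejer

/-!
MODULE MOMENT. High moments of short Weyl sums whose coefficients vary.

`T v = ∑_{w<W} e(∑_{r ≤ k} θ_r(v) w^(r+1) + α w^(k+2))`, with `θ_k(v) = c0 + β v` (the index
`Fin.last k`), `s` variables.

PROOF. If `s = 0` or `W = 0` trivial?: keep `hs : 1 ≤ s`, `hW : 1 ≤ W`. Put `H_r := s * W^(r+1)`
(`r : Fin (k+1)`), `Hset := Fintype.piFinset (fun r => Ioo (-2 H_r) (2 H_r))` (integer vectors),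
`ψ v h := e(∑_r h_r θ_r(v)) = ∏_r e(h_r θ_r(v))`, `ω h := ∏_r om (H_r) (h_r)`,
`c h := ∑ w ∈ (box s W).filter (mom (k+1) w = h), e(α ∑_i (w i)^(k+2))`.
Then `(T v)^s = ∑_{w ∈ box s W} e(∑_r θ_r(v) mom(w)_r + α ∑ (w i)^(k+2)) = ∑_{h ∈ Hset} c h ψ v h`
(`Finset.prod_univ_sum`, the sum over `range W` rewritten over `Ico (0:ℤ) W`; `0 ≤ mom(w)_r ≤
s (W-1)^(r+1) ≤ H_r`, so `mom(w) ∈ Hset`, `Finset.sum_fiberwise_of_maps_to`); if `c h ≠ 0` then
`h = mom(w)` for some `w`, so `1 ≤ ω h` (`one_le_om`, product of factors `≥ 1`). `‖T v‖^(2s) =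
‖(T v)^s‖^2`. Apply `dual` with `A = range V`. The kernel:
`∑_{h ∈ Hset} ω h ψ v h conj (ψ v' h) = ∏_r ∑_{h_r} om h_r e(h_r (θ_r(v) - θ_r(v')))`
(`Finset.prod_univ_sum`), norm of the factors `r < k` at most `4 H_r` (`fejer_norm`), and the sum over `v'`
of the norm of the last factor (`Fin.last k`, `θ(v) - θ(v') = β (v - v')`) at most `2 V + 2 H_k/η`
(`fejer_sum`, `H_k = s W^(k+1)`): `D := (∏_{r<k} 4 s W^(r+1)) (2 V + 2 s W^(k+1)/η)`
(`Fin.prod_univ_castSucc`, `Fin.prod_univ_eq_prod_range`).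
`∑_h ‖c h‖^2 ≤ ∑_h #{w : mom w = h}^2 = J s (k+1) W` (pairs fibred over the common value; proof of
`card_diff_le_en` in Defs has this computation).
-/

set_option autoImplicit false

namespace Pool.Agent.Work.Vino

open Finset
open Pool.Agent.Work.MP_215640_nt (ee dI Gen)

private theorem ee_sum {ι : Type*} (S : Finset ι) (f : ι → ℝ) :
    ee (∑ i ∈ S, f i) = ∏ i ∈ S, ee (f i) := by
  classical
  induction S using Finset.induction_on with
  | empty => simpa using Pool.Agent.Work.MP_215640_nt.ee_zero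
  | insert a s ha ih =>
    rw [Finset.sum_insert ha, Finset.prod_insert ha, Pool.Agent.Work.MP_215640_nt.ee_add, ih]

private theorem mom_range (k s W : ℕ) (u : Fin s → ℤ) (hu : u ∈ box s W) (r : Fin (k + 1)) :
    0 ≤ mom (k + 1) u r ∧ mom (k + 1) u r ≤ ((s * W ^ (r.val + 1) : ℕ) : ℤ) := by
  rw [mem_box] at hu
  rw [mom_apply]
  refine ⟨Finset.sum_nonneg fun i _ => pow_nonneg (hu i).1 _, ?_⟩
  have h1 : ∀ i ∈ (Finset.univ : Finset (Fin s)), u i ^ (r.val + 1) ≤ (W : ℤ) ^ (r.val + 1) :=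
    fun i _ => pow_le_pow_left₀ (hu i).1 (hu i).2.le _
  refine (Finset.sum_le_sum h1).trans ?_
  rw [Finset.sum_const, Finset.card_univ, Fintype.card_fin, nsmul_eq_mul]
  push_cast
  exact le_rfl

/-- the integer vectors used -/
private noncomputable def hset (k s W : ℕ) : Finset (Fin (k + 1) → ℤ) :=
  Fintype.piFinset (fun r : Fin (k + 1) =>
    Ioo (-(2 * ((s * W ^ (r.val + 1) : ℕ) : ℤ))) (2 * ((s * W ^ (r.val + 1) : ℕ) : ℤ)))

private theorem mom_mem_hset (k s W : ℕ) (hs : 1 ≤ s) (hW : 1 ≤ W) (u : Fin s → ℤ)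
    (hu : u ∈ box s W) : mom (k + 1) u ∈ hset k s W := by
  unfold hset
  rw [Fintype.mem_piFinset]
  intro r
  have h1 := mom_range k s W u hu r
  have h2 : 1 ≤ s * W ^ (r.val + 1) := Nat.mul_pos hs (pow_pos hW _)
  have h3 : (1 : ℤ) ≤ ((s * W ^ (r.val + 1) : ℕ) : ℤ) := by exact_mod_cast h2
  rw [mem_Ioo]
  omega

private theorem sum_sq_fibre (k s W : ℕ) (hs : 1 ≤ s) (hW : 1 ≤ W) :
    ∑ h ∈ hset k s W, (((box s W).filter (fun w => mom (k + 1) w = h)).card : ℝ) ^ 2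
      = (J s (k + 1) W : ℝ) := by
  classical
  unfold J en
  have h1 : (((box s W) ×ˢ (box s W)).filter
      (fun q => mom (k + 1) q.1 = mom (k + 1) q.2)).card = ∑ h ∈ hset k s W,
      ((box s W).filter (fun w => mom (k + 1) w = h)).card ^ 2 := by
    rw [Finset.card_eq_sum_card_fiberwise (f := fun q : (Fin s → ℤ) × (Fin s → ℤ) =>
      mom (k + 1) q.1) (t := hset k s W)]
    · apply Finset.sum_congr rfl
      intro g _
      rw [pow_two, ← Finset.card_product]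
      congr 1
      ext q
      simp only [mem_filter, mem_product]
      constructor
      · rintro ⟨⟨⟨h1, h2⟩, h3⟩, h4⟩
        exact ⟨⟨h1, h4⟩, h2, by rw [← h3, h4]⟩
      · rintro ⟨⟨h1, h2⟩, h3, h4⟩
        exact ⟨⟨⟨h1, h3⟩, by rw [h2, h4]⟩, h2⟩
    · intro q hq
      simp only [coe_filter, mem_product, Set.mem_ofPred_eq] at hq
      exact mom_mem_hset k s W hs hW q.1 hq.1.1
  rw [h1]
  push_cast
  rfl

private theorem sum_range_int (W : ℕ) (f : ℤ → ℂ) :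
    ∑ w ∈ range W, f (w : ℤ) = ∑ x ∈ Finset.Ico (0 : ℤ) W, f x := by
  refine Finset.sum_bij (fun w _ => (w : ℤ)) ?_ ?_ ?_ ?_
  · intro a ha
    rw [mem_range] at ha
    rw [mem_Ico]
    omega
  · intro a _ b _ h
    exact_mod_cast h
  · intro x hx
    rw [mem_Ico] at hx
    refine ⟨x.toNat, ?_, ?_⟩
    · rw [mem_range]
      omega
    · omega
  · intro a _
    rfl

theorem moment (k s V W : ℕ) (hs : 1 ≤ s) (hW : 1 ≤ W) (θ : Fin (k + 1) → ℕ → ℝ)
    (α β c0 η : ℝ) (hη : 0 < η) (hθ : ∀ v, θ (Fin.last k) v = c0 + β * v)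
    (hβ : ∀ h : ℕ, 1 ≤ h → h < 2 * (s * W ^ (k + 1)) → η ≤ dI (h * β)) :
    ∑ v ∈ range V, ‖∑ w ∈ range W,
        ee (∑ r : Fin (k + 1), θ r v * (w : ℝ) ^ (r.val + 1) + α * (w : ℝ) ^ (k + 2))‖ ^ (2 * s)
      ≤ (J s (k + 1) W : ℝ) * (∏ r ∈ range k, (4 * (s : ℝ) * (W : ℝ) ^ (r + 1)))
        * (2 * V + 2 * (s * (W : ℝ) ^ (k + 1)) / η) := by
  classical
  set ψ : ℕ → (Fin (k + 1) → ℤ) → ℂ := fun v h => ∏ r, ee (h r * θ r v) with hψ
  set ω : (Fin (k + 1) → ℤ) → ℝ := fun h => ∏ r : Fin (k + 1), om (s * W ^ (r.val + 1)) (h r)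
    with hω
  set c : (Fin (k + 1) → ℤ) → ℂ := fun h => ∑ w ∈ (box s W).filter (fun w => mom (k + 1) w = h),
    ee (α * ∑ i, (w i : ℝ) ^ (k + 2)) with hc
  have hH1 : ∀ r : ℕ, 1 ≤ s * W ^ (r + 1) := fun r => Nat.mul_pos hs (pow_pos hW _)
  -- the power of the Weyl sum
  have hT : ∀ v, (∑ w ∈ range W,
        ee (∑ r : Fin (k + 1), θ r v * (w : ℝ) ^ (r.val + 1) + α * (w : ℝ) ^ (k + 2))) ^ s
      = ∑ h ∈ hset k s W, c h * ψ v h := by
    intro v
    have h1 : (∑ w ∈ range W,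
        ee (∑ r : Fin (k + 1), θ r v * (w : ℝ) ^ (r.val + 1) + α * (w : ℝ) ^ (k + 2)))
        = ∑ x ∈ Finset.Ico (0 : ℤ) W,
        ee (∑ r : Fin (k + 1), θ r v * (x : ℝ) ^ (r.val + 1) + α * (x : ℝ) ^ (k + 2)) := by
      rw [← sum_range_int W (fun x => ee (∑ r : Fin (k + 1), θ r v * (x : ℝ) ^ (r.val + 1)
        + α * (x : ℝ) ^ (k + 2)))]
      simp
    rw [h1]
    have h2 : (∑ x ∈ Finset.Ico (0 : ℤ) W,
        ee (∑ r : Fin (k + 1), θ r v * (x : ℝ) ^ (r.val + 1) + α * (x : ℝ) ^ (k + 2))) ^ s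
        = ∏ _i : Fin s, ∑ x ∈ Finset.Ico (0 : ℤ) W,
        ee (∑ r : Fin (k + 1), θ r v * (x : ℝ) ^ (r.val + 1) + α * (x : ℝ) ^ (k + 2)) := by
      rw [Finset.prod_const, Finset.card_univ, Fintype.card_fin]
    rw [h2, Finset.prod_univ_sum]
    have h3 : ∀ u : Fin s → ℤ, ∏ i, ee (∑ r : Fin (k + 1), θ r v * (u i : ℝ) ^ (r.val + 1)
        + α * (u i : ℝ) ^ (k + 2)) =
        ee (α * ∑ i, (u i : ℝ) ^ (k + 2)) * ψ v (mom (k + 1) u) := by
      intro u
      rw [← ee_sum, hψ]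
      simp only
      rw [← ee_sum, ← Pool.Agent.Work.MP_215640_nt.ee_add]
      congr 1
      rw [Finset.sum_add_distrib, Finset.sum_comm, ← Finset.mul_sum, add_comm]
      congr 1
      refine Finset.sum_congr rfl fun r _ => ?_
      rw [mom_apply, ← Finset.mul_sum, mul_comm]
      push_cast
      rfl
    simp only [h3]
    have h4 : Fintype.piFinset (fun _ : Fin s => Finset.Ico (0 : ℤ) W) = box s W := rfl
    rw [h4, ← Finset.sum_fiberwise_of_maps_to (g := mom (k + 1)) (t := hset k s W)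
      (fun u hu => mom_mem_hset k s W hs hW u hu)]
    refine Finset.sum_congr rfl fun h _ => ?_
    rw [hc]
    simp only
    rw [Finset.sum_mul]
    refine Finset.sum_congr rfl fun u hu => ?_
    rw [(Finset.mem_filter.1 hu).2]
  -- the weights
  have hωn : ∀ h ∈ hset k s W, 0 ≤ ω h := fun h _ => Finset.prod_nonneg fun r _ => om_nonneg _ _
  have hcω : ∀ h ∈ hset k s W, c h = 0 ∨ 1 ≤ ω h := by
    intro h _
    rcases Finset.eq_empty_or_nonempty ((box s W).filter (fun w => mom (k + 1) w = h)) with h1 | h1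
    · left
      rw [hc]
      simp only
      rw [h1, Finset.sum_empty]
    · right
      obtain ⟨u, hu⟩ := h1
      rw [Finset.mem_filter] at hu
      rw [hω]
      simp only
      calc (1 : ℝ) = ∏ _r : Fin (k + 1), (1 : ℝ) := by simp
        _ ≤ ∏ r : Fin (k + 1), om (s * W ^ (r.val + 1)) (h r) := by
          refine Finset.prod_le_prod (fun _ _ => zero_le_one) fun r _ => ?_
          refine one_le_om _ (hH1 _) _ ?_
          have h2 := mom_range k s W u hu.1 r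
          rw [← hu.2, abs_of_nonneg h2.1]
          exact h2.2
  -- the kernel
  set P : ℝ := ∏ r ∈ range k, (4 * (s : ℝ) * (W : ℝ) ^ (r + 1)) with hP
  have hP0 : 0 ≤ P := Finset.prod_nonneg fun r _ => by positivity
  set L : ℝ := 2 * V + 2 * (s * (W : ℝ) ^ (k + 1)) / η with hL
  have hL0 : 0 ≤ L := by positivity
  have hker : ∀ v v', ‖∑ h ∈ hset k s W, (ω h : ℂ) * (ψ v h * (starRingEnd ℂ) (ψ v' h))‖ ≤
      P * ‖∑ h ∈ Ioo (-(2 * ((s * W ^ (k + 1) : ℕ) : ℤ))) (2 * ((s * W ^ (k + 1) : ℕ) : ℤ)),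
        (om (s * W ^ (k + 1)) h : ℂ) * ee (h * (β * ((v : ℝ) - v')))‖ := by
    intro v v'
    have h1 : ∀ h : Fin (k + 1) → ℤ, (ω h : ℂ) * (ψ v h * (starRingEnd ℂ) (ψ v' h)) =
        ∏ r : Fin (k + 1), ((om (s * W ^ (r.val + 1)) (h r) : ℂ) *
          ee (h r * (θ r v - θ r v'))) := by
      intro h
      rw [hω, hψ]
      simp only
      rw [map_prod, ← Finset.prod_mul_distrib, Complex.ofReal_prod, ← Finset.prod_mul_distrib]
      refine Finset.prod_congr rfl fun r _ => ?_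
      rw [← Pool.Agent.Work.MP_215640_nt.ee_neg, ← Pool.Agent.Work.MP_215640_nt.ee_add]
      congr 2
      ring
    simp only [h1]
    unfold hset
    rw [← Finset.prod_univ_sum (fun r : Fin (k + 1) =>
      Ioo (-(2 * ((s * W ^ (r.val + 1) : ℕ) : ℤ))) (2 * ((s * W ^ (r.val + 1) : ℕ) : ℤ)))
      (fun r x => (om (s * W ^ (r.val + 1)) x : ℂ) * ee (x * (θ r v - θ r v')))]
    rw [norm_prod, Fin.prod_univ_castSucc]
    have h2 : θ (Fin.last k) v - θ (Fin.last k) v' = β * ((v : ℝ) - v') := by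
      rw [hθ, hθ]; ring
    rw [h2]
    refine mul_le_mul_of_nonneg_right ?_ (norm_nonneg _)
    rw [hP, ← Fin.prod_univ_eq_prod_range (fun r => 4 * (s : ℝ) * (W : ℝ) ^ (r + 1)) k]
    refine Finset.prod_le_prod (fun _ _ => norm_nonneg _) fun r _ => ?_
    refine (fejer_norm _ (hH1 _) _).trans (le_of_eq ?_)
    rw [Fin.val_castSucc]
    push_cast
    ring
  have hK : ∀ v ∈ range V, ∑ v' ∈ range V,
      ‖∑ h ∈ hset k s W, (ω h : ℂ) * (ψ v h * (starRingEnd ℂ) (ψ v' h))‖ ≤ P * L := by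
    intro v _
    refine (Finset.sum_le_sum fun v' _ => hker v v').trans ?_
    rw [← Finset.mul_sum]
    refine mul_le_mul_of_nonneg_left ?_ hP0
    refine (fejer_sum (s * W ^ (k + 1)) V (hH1 k) β η hη hβ v).trans (le_of_eq ?_)
    rw [hL]
    push_cast
    ring
  have hdual := dual (range V) (hset k s W) ψ ω c hωn hcω (P * L) (mul_nonneg hP0 hL0) hK
  have hcs : ∑ h ∈ hset k s W, ‖c h‖ ^ 2 ≤ (J s (k + 1) W : ℝ) := by
    rw [← sum_sq_fibre k s W hs hW]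
    refine Finset.sum_le_sum fun h _ => ?_
    refine pow_le_pow_left₀ (norm_nonneg _) ?_ 2
    rw [hc]
    simp only
    refine (norm_sum_le _ _).trans (le_of_eq ?_)
    simp only [Pool.Agent.Work.MP_215640_nt.norm_ee]
    rw [Finset.sum_const, nsmul_eq_mul, mul_one]
  calc _ = ∑ v ∈ range V, ‖∑ h ∈ hset k s W, c h * ψ v h‖ ^ 2 := by
        refine Finset.sum_congr rfl fun v _ => ?_
        rw [← hT, norm_pow, ← pow_mul, mul_comm s 2]
    _ ≤ P * L * ∑ h ∈ hset k s W, ‖c h‖ ^ 2 := hdual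
    _ ≤ P * L * (J s (k + 1) W : ℝ) := mul_le_mul_of_nonneg_left hcs (mul_nonneg hP0 hL0)
    _ = (J s (k + 1) W : ℝ) * P * L := by ring

end Pool.Agent.Work.Vino
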