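import Pool.Agent.Work.MP_215640_nt.Basic
import Pool.Agent.Work.MP_215640_nt.Weyl

/-!
MODULE SHIFTP. Shifting a polynomial exponential sum.

PROOF. `θ_r(v) := (P.taylor v).coeff (r+1)` (`Polynomial.taylor`: `taylor v P = P.comp (X + C v)`,
`(taylor v P).coeff n = (hasseDeriv n P).eval v`, `Polynomial.taylor_coeff`). The polynomial `taylor v P` has
degree at most `k+2`, so `P.eval (v + w) = P.eval v + ∑_{r ≤ k} θ_r(v) w^(r+1) + α w^(k+2)`, where
`α = P.coeff (k+2) = (taylor v P).coeff (k+2)`; and `θ_k(v) = (hasseDeriv (k+1) P).eval v =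
P.coeff (k+1) + (k+2) P.coeff (k+2) v` (`hasseDeriv` of a polynomial of degree `≤ k+2`;
`Polynomial.hasseDeriv_apply`/`hasseDeriv_coeff`, `Nat.choose_succ_self_right`).
Shift: `‖∑_{v<V} z v - ∑_{v<V} z (v+w)‖ ≤ 2 w` for `‖z‖ ≤ 1` (`weyl_shift` in
Pool/Agent/Work/MP_215640_nt/Weyl.lean, or reprove by induction); sum over `w < W`:
`W ‖∑ z v‖ ≤ ‖∑_w ∑_v z (v+w)‖ + ∑_{w<W} 2 w ≤ ∑_v ‖∑_w z (v+w)‖ + W^2`, and
`∑_w z (v+w) = e(P(v)) ∑_w e(...)`, norm one factor.
-/

set_option autoImplicit false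

namespace Pool.Agent.Work.Vino

open Finset Polynomial
open Pool.Agent.Work.MP_215640_nt (ee dI Gen)

private theorem shiftP_top (k : ℕ) (P : ℝ[X]) (hP : P.natDegree ≤ k + 2) (s : ℝ) :
    (taylor s P).coeff (k + 2) = P.coeff (k + 2) := by
  rw [taylor_coeff]
  have h1 : hasseDeriv (k + 2) P = C (P.coeff (k + 2)) := by
    ext n
    rw [hasseDeriv_coeff, coeff_C]
    split_ifs with hn
    · subst hn; simp
    · rw [coeff_eq_zero_of_natDegree_lt (by omega), mul_zero]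
  rw [h1, eval_C]

private theorem shiftP_next (k : ℕ) (P : ℝ[X]) (hP : P.natDegree ≤ k + 2) (s : ℝ) :
    (taylor s P).coeff (k + 1) = P.coeff (k + 1) + ((k + 2 : ℕ) * P.coeff (k + 2)) * s := by
  rw [taylor_coeff]
  have h1 : hasseDeriv (k + 1) P =
      C (P.coeff (k + 1)) + C ((k + 2 : ℕ) * P.coeff (k + 2)) * X := by
    ext n
    rw [hasseDeriv_coeff, coeff_add, coeff_C, coeff_C_mul, coeff_X]
    rcases n with _ | _ | n
    · simp
    · rw [zero_add, if_neg (by norm_num), if_pos rfl, show 1 + (k + 1) = k + 2 by ring]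
      simp
      left
      ring
    · rw [coeff_eq_zero_of_natDegree_lt (by omega)]
      simp
  rw [h1]; simp

private theorem shiftP_eval (k : ℕ) (P : ℝ[X]) (hP : P.natDegree ≤ k + 2) (v w : ℝ) :
    P.eval (v + w) = P.eval v + (∑ r : Fin (k + 1), (taylor v P).coeff (r.val + 1) *
      w ^ (r.val + 1) + P.coeff (k + 2) * w ^ (k + 2)) := by
  have h1 : P.eval (v + w) = (taylor v P).eval w := by
    rw [taylor_eval, add_comm]
  rw [h1, eval_eq_sum_range' (n := k + 3) (by rw [natDegree_taylor]; omega)]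
  rw [Finset.sum_range_succ, Finset.sum_range_succ', shiftP_top k P hP, taylor_coeff_zero,
    Fin.sum_univ_eq_sum_range (fun r => (taylor v P).coeff (r + 1) * w ^ (r + 1))]
  ring

theorem shiftP (k : ℕ) (P : ℝ[X]) (hP : P.natDegree ≤ k + 2) :
    ∃ θ : Fin (k + 1) → ℕ → ℝ,
      (∀ v : ℕ, θ (Fin.last k) v = P.coeff (k + 1) + ((k + 2 : ℕ) * P.coeff (k + 2)) * v) ∧
      ∀ V W : ℕ, (W : ℝ) * ‖∑ v ∈ range V, ee (P.eval (v : ℝ))‖
        ≤ ∑ v ∈ range V, ‖∑ w ∈ range W,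
            ee (∑ r : Fin (k + 1), θ r v * (w : ℝ) ^ (r.val + 1)
              + P.coeff (k + 2) * (w : ℝ) ^ (k + 2))‖ + (W : ℝ) ^ 2 := by
  refine ⟨fun r v => (taylor (v : ℝ) P).coeff (r.val + 1), fun v => ?_, fun V W => ?_⟩
  · exact shiftP_next k P hP v
  · set z : ℕ → ℂ := fun v => ee (P.eval (v : ℝ)) with hz
    have hz1 : ∀ v, ‖z v‖ ≤ 1 := fun v => le_of_eq (Pool.Agent.Work.MP_215640_nt.norm_ee _)
    have h1 : ∀ v : ℕ, ‖∑ w ∈ range W, z (v + w)‖ = ‖∑ w ∈ range W,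
            ee (∑ r : Fin (k + 1), (taylor (v : ℝ) P).coeff (r.val + 1) * (w : ℝ) ^ (r.val + 1)
              + P.coeff (k + 2) * (w : ℝ) ^ (k + 2))‖ := by
      intro v
      have h2 : ∀ w : ℕ, z (v + w) = ee (P.eval (v : ℝ)) * ee (∑ r : Fin (k + 1),
          (taylor (v : ℝ) P).coeff (r.val + 1) * (w : ℝ) ^ (r.val + 1)
              + P.coeff (k + 2) * (w : ℝ) ^ (k + 2)) := by
        intro w
        rw [← Pool.Agent.Work.MP_215640_nt.ee_add, ← shiftP_eval k P hP, hz]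
        push_cast
        rfl
      simp only [h2]
      rw [← Finset.mul_sum, norm_mul, Pool.Agent.Work.MP_215640_nt.norm_ee, one_mul]
    simp only [← h1]
    have h3 : (W : ℝ) * ‖∑ v ∈ range V, z v‖ = ‖∑ _w ∈ range W, ∑ v ∈ range V, z v‖ := by
      rw [Finset.sum_const, Finset.card_range, nsmul_eq_mul, norm_mul, Complex.norm_natCast]
    rw [h3]
    have h4 : ∑ _w ∈ range W, ∑ v ∈ range V, z v = ∑ v ∈ range V, ∑ w ∈ range W, z (v + w) +
        ∑ w ∈ range W, (∑ v ∈ range V, z v - ∑ v ∈ range V, z (v + w)) := by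
      rw [Finset.sum_sub_distrib, Finset.sum_comm (s := range V) (t := range W)]
      ring
    rw [h4]
    refine (norm_add_le _ _).trans ?_
    refine add_le_add (norm_sum_le _ _) ?_
    refine (norm_sum_le _ _).trans ?_
    have h5 : ∀ w ∈ range W, ‖∑ v ∈ range V, z v - ∑ v ∈ range V, z (v + w)‖ ≤ 2 * (w : ℝ) :=
      fun w _ => Pool.Agent.Work.MP_215640_nt.weyl_shift z hz1 V w
    refine (Finset.sum_le_sum h5).trans ?_
    have h6 : ∀ W : ℕ, ∑ w ∈ range W, 2 * (w : ℝ) ≤ (W : ℝ) ^ 2 := by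
      intro W
      induction W with
      | zero => simp
      | succ W ih =>
        rw [Finset.sum_range_succ]
        push_cast
        nlinarith
    exact h6 W

end Pool.Agent.Work.Vino
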