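import Pool.Agent.Work.Vino.Mvt
import Pool.Agent.Work.Vino.Moment
import Pool.Agent.Work.Vino.ShiftP

/-!
MODULE WEYLV. Weyl sums with polynomial dependence on the degree.

PROOF. `σ := 1/(8 d^4)`. If `η V ≤ 1`, or in general if the right side is `≥ V`, trivial
(`‖∑‖ ≤ V`, `norm_ee`). `d = 1`: `P = a + α v`, geometric sum `≤ 1/(2 dI α) ≤ 1/(2η)` (`Gen` with `l = 1`),
`= V/(2 η V) ≤ V (η V)^(-1) ≤ V (ηV)^(-σ)` for `η V ≥ 1`.
`d = k + 2`: `Z := min B (η V)`, `s := (d-1)^3 + (d-1) = (k+1)^3 + (k+1)`, `α := P.coeff d`.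
Note `η ≤ dI α ≤ 1/2`. If `Z < (2 d s)^2` then `2^((d+1)^c) Z^(-σ) ≥ 1`, trivial (`Z^(-σ) ≤ B^(-σ) +
(ηV)^(-σ)`; if `Z ≤ 1` it is `≥ 1`). So `Z ≥ (2 d s)^2 ≥ 1`. `W := ⌊Z^(1/(2d))⌋ ≥ 1`, `W ≥ Z^(1/(2d))/2`.
`W^(k+1) ≤ Z^((d-1)/(2d)) ≤ Z^(1/2)`, so `2 d s W^(k+1) ≤ Z ≤ B`, so for `1 ≤ h < 2 s W^(k+1)`:
`η ≤ dI (h * (d α))` by `Gen` with `l = h d ≤ B`. `shiftP`, then `moment` with `β = d α`:
`∑_v ‖T v‖^(2s) ≤ J s (k+1) W * (4s)^k W^(k(k+1)/2) * (2 V + 2 s W^(k+1)/η)`, and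
`2 s W^(k+1)/η ≤ Z/(d η) ≤ V/d ≤ V`: last factor `≤ 3 V`. `mvt (k+1)`:
`J ≤ 2^((k+2)^12) W^(2s - (k+1)(k+2)/2 + 1/2)`. Exponent of `W` in total:
`2s - (k+1)(k+2)/2 + 1/2 + k(k+1)/2 = 2s - (k+1) + 1/2 ≤ 2s - 1/2`. So
`∑_v ‖T v‖^(2s) ≤ C V W^(2s - 1/2)`, `C := 3 (4s)^k 2^((k+2)^12)`. Jensen:
`∑_v ‖T v‖ ≤ V C^(1/(2s)) W^(1 - 1/(4s))`, hence
`‖∑ e(P v)‖ ≤ V C W^(-1/(4s)) + W ≤ 2 C V Z^(-1/(8 d s)) + W` (`(1/2)^(-1/(4s)) ≤ 2`), and
`8 d s = 8 d ((d-1)^3 + (d-1)) ≤ 8 d^4`, so `Z^(-1/(8ds)) ≤ Z^(-σ)`. Also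
`W ≤ Z^(1/(2d)) ≤ V Z^(-σ)` since `Z^(1/(2d) + σ) ≤ Z ≤ η V ≤ V`. Finally
`2 C + 1 ≤ 2^((d+1)^c)` (`c = 20` is enough).
-/

set_option autoImplicit false

namespace Pool.Agent.Work.Vino

open Finset Polynomial
open Pool.Agent.Work.MP_215640_nt (ee dI Gen)

private theorem wv_trivial (P : ℝ[X]) (V : ℕ) : ‖∑ v ∈ range V, ee (P.eval (v : ℝ))‖ ≤ V := by
  refine (norm_sum_le _ _).trans ?_
  simp [Pool.Agent.Work.MP_215640_nt.norm_ee]

private theorem wv_geom (α a : ℝ) (V : ℕ) (η : ℝ) (hη : 0 < η) (h : η ≤ dI α) :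
    ‖∑ v ∈ range V, ee (α * v + a)‖ ≤ 1 / (2 * η) := by
  have h1 : ∀ v : ℕ, ee (α * v + a) = ee a * ee α ^ v := by
    intro v
    rw [Pool.Agent.Work.MP_215640_nt.ee_add, ← Pool.Agent.Work.MP_215640_nt.ee_nat_mul,
      mul_comm (v : ℝ) α, mul_comm]
  simp only [h1]
  rw [← Finset.mul_sum, norm_mul, Pool.Agent.Work.MP_215640_nt.norm_ee, one_mul]
  have h2 := Pool.Agent.Work.MP_215640_nt.norm_one_sub_ee α
  have h3 : (4 * η) ≤ ‖1 - ee α‖ := by linarith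
  have h4 : (1 - ee α) * ∑ v ∈ range V, ee α ^ v = 1 - ee α ^ V := by
    have := mul_neg_geom_sum (ee α) V
    rw [← this]
  have h5 : ‖1 - ee α‖ * ‖∑ v ∈ range V, ee α ^ v‖ ≤ 2 := by
    rw [← norm_mul, h4]
    refine (norm_sub_le _ _).trans ?_
    rw [norm_one, norm_pow, Pool.Agent.Work.MP_215640_nt.norm_ee, one_pow]
    norm_num
  have h6 : (4 * η) * ‖∑ v ∈ range V, ee α ^ v‖ ≤ 2 :=
    (mul_le_mul_of_nonneg_right h3 (norm_nonneg _)).trans h5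
  rw [le_div_iff₀ (by positivity)]
  linarith

/-- the average of short sums -/
private theorem wv_jensen (n V : ℕ) (W : ℝ) (hW : 1 ≤ W) (C : ℝ) (hC : 1 ≤ C) (x : ℕ → ℝ)
    (hx : ∀ v, 0 ≤ x v)
    (h : ∑ v ∈ range V, x v ^ (2 * (n + 1)) ≤ C * V * W ^ (2 * ((n : ℝ) + 1) - 1 / 2)) :
    ∑ v ∈ range V, x v ≤ C * V * W ^ (1 - 1 / (4 * ((n : ℝ) + 1))) := by
  have hW0 : 0 < W := by linarith
  have h1 := pow_sum_le_card_mul_sum_pow (s := range V) (f := x) (fun i _ => hx i) (2 * n + 1)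
  have e1 : 2 * n + 1 + 1 = 2 * (n + 1) := by ring
  rw [e1, card_range] at h1
  have h2 : (∑ v ∈ range V, x v) ^ (2 * (n + 1))
      ≤ (C * V * W ^ (1 - 1 / (4 * ((n : ℝ) + 1)))) ^ (2 * (n + 1)) := by
    refine (h1.trans (mul_le_mul_of_nonneg_left h (by positivity))).trans ?_
    rw [mul_pow, mul_pow, ← Real.rpow_natCast (W ^ _), ← Real.rpow_mul hW0.le]
    have e2 : (1 - 1 / (4 * ((n : ℝ) + 1))) * ((2 * (n + 1) : ℕ) : ℝ)
        = 2 * ((n : ℝ) + 1) - 1 / 2 := by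
      push_cast
      have : (n : ℝ) + 1 ≠ 0 := by positivity
      field_simp
      ring
    rw [e2]
    have e3 : (V : ℝ) ^ (2 * n + 1) * (C * V * W ^ (2 * ((n : ℝ) + 1) - 1 / 2))
        = C * (V : ℝ) ^ (2 * (n + 1)) * W ^ (2 * ((n : ℝ) + 1) - 1 / 2) := by
      have : (V : ℝ) ^ (2 * (n + 1)) = (V : ℝ) ^ (2 * n + 1) * V := by
        rw [← pow_succ]; congr 1
      rw [this]; ring
    rw [e3]
    have e4 : C ≤ C ^ (2 * (n + 1)) := le_self_pow₀ hC (by omega)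
    gcongr
  exact le_of_pow_le_pow_left₀ (by omega) (by positivity) h2

private theorem wv_prod (k : ℕ) (s W : ℝ) :
    ∏ r ∈ range k, (4 * s * W ^ (r + 1)) = (4 * s) ^ k * W ^ (k * (k + 1) / 2) := by
  rw [Finset.prod_mul_distrib, Finset.prod_const, card_range, Finset.prod_pow_eq_pow_sum]
  congr 2
  have h := Finset.sum_range_succ' (fun r => r) k
  simp only [add_zero] at h
  rw [← h, Finset.sum_range_id, Nat.add_sub_cancel]
  rw [mul_comm]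

/-- the constant -/
private noncomputable def wC (k : ℕ) : ℝ :=
  3 * (4 * (((k : ℝ) + 1) ^ 3 + ((k : ℝ) + 1))) ^ k * 2 ^ ((k + 2) ^ 12)

private theorem one_le_wC (k : ℕ) : 1 ≤ wC k := by
  unfold wC
  have h1 : (1 : ℝ) ≤ (4 * (((k : ℝ) + 1) ^ 3 + ((k : ℝ) + 1))) ^ k := by
    apply one_le_pow₀
    have : (0 : ℝ) ≤ k := by positivity
    nlinarith [pow_pos (show (0 : ℝ) < k + 1 by positivity) 3]
  have h2 : (1 : ℝ) ≤ 2 ^ ((k + 2) ^ 12) := one_le_pow₀ (by norm_num)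
  generalize (2 : ℝ) ^ ((k + 2) ^ 12) = b at h2 ⊢
  nlinarith [mul_le_mul h1 h2 zero_le_one (by linarith)]

private theorem wC_exp (k : ℕ) : 4 + (4 * k + 4) * k + (k + 2) ^ 12 ≤ (k + 3) ^ 13 := by
  have a1 : (k + 3) ^ 13 = (k + 3) ^ 12 * (k + 3) := pow_succ _ _
  have a2 : (k + 2) ^ 12 ≤ (k + 3) ^ 12 := Nat.pow_le_pow_left (by omega) 12
  have a3 : (k + 3) ^ 2 ≤ (k + 3) ^ 12 := Nat.pow_le_pow_right (by omega) (by omega)
  rw [a1]
  generalize (k + 3) ^ 12 = b at a2 a3 ⊢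
  generalize (k + 2) ^ 12 = a at a2 ⊢
  have a4 := Nat.mul_le_mul_right (k + 2) a3
  have a5 : (k + 3) ^ 2 * (k + 2) = k ^ 3 + 8 * (k * k) + 21 * k + 18 := by ring
  have a6 : b * (k + 3) = b * (k + 2) + b := by ring
  have a7 : (4 * k + 4) * k = 4 * (k * k) + 4 * k := by ring
  rw [a6, a7]
  rw [a5] at a4
  have a8 : 0 ≤ k ^ 3 := Nat.zero_le _
  omega

private theorem wC_le (k : ℕ) : 2 * wC k + 1 ≤ 2 ^ ((k + 3) ^ 13) := by
  have h0 : 2 * wC k + 1 ≤ 3 * wC k := by linarith [one_le_wC k]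
  refine h0.trans ?_
  have h4 := wC_exp k
  unfold wC
  generalize (k + 3) ^ 13 = b at h4 ⊢
  generalize (k + 2) ^ 12 = a at h4 ⊢
  have h1 : (4 * (((k : ℝ) + 1) ^ 3 + ((k : ℝ) + 1))) ≤ 2 ^ (4 * k + 4) := by
    have h2 : ((k : ℝ) + 1) ≤ 2 ^ k := by
      have := Nat.lt_two_pow_self (n := k)
      exact_mod_cast this
    have h3 : ((k : ℝ) + 1) ^ 3 ≤ 2 ^ (3 * k) := by
      rw [mul_comm 3 k, pow_mul]
      exact pow_le_pow_left₀ (by positivity) h2 3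
    have h4 : (2 : ℝ) ^ k ≤ 2 ^ (3 * k) := pow_le_pow_right₀ (by norm_num) (by omega)
    have h5 : (2 : ℝ) ^ (3 * k) ≤ 2 ^ (4 * k) := pow_le_pow_right₀ (by norm_num) (by omega)
    rw [pow_add]
    have : (0 : ℝ) < 2 ^ (4 * k) := by positivity
    linarith
  have h2 : (4 * (((k : ℝ) + 1) ^ 3 + ((k : ℝ) + 1))) ^ k ≤ 2 ^ ((4 * k + 4) * k) := by
    rw [pow_mul]
    exact pow_le_pow_left₀ (by positivity) h1 k
  have h3 : (3 : ℝ) * (3 * 2 ^ ((4 * k + 4) * k) * 2 ^ a)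
      ≤ 2 ^ (4 + (4 * k + 4) * k + a) := by
    rw [pow_add, pow_add]
    have : (0 : ℝ) < 2 ^ ((4 * k + 4) * k) * 2 ^ a := by positivity
    linarith
  calc 3 * (3 * (4 * (((k : ℝ) + 1) ^ 3 + ((k : ℝ) + 1))) ^ k * 2 ^ a)
      ≤ 3 * (3 * 2 ^ ((4 * k + 4) * k) * 2 ^ a) := by gcongr
    _ ≤ 2 ^ (4 + (4 * k + 4) * k + a) := h3
    _ ≤ 2 ^ b := pow_le_pow_right₀ (by norm_num) h4

/-- the main case -/
private theorem wv_core (k : ℕ) (P : ℝ[X]) (V B : ℕ) (η Z : ℝ) (hP : P.natDegree ≤ k + 2)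
    (hη : 0 < η) (hG : Gen B η (P.coeff (k + 2))) (hZB : Z ≤ B)
    (hZV : Z ≤ η * V) (hZ : (2 * ((k : ℝ) + 2) * (((k : ℝ) + 1) ^ 3 + (k + 1))) ^ 2 ≤ Z) :
    ‖∑ v ∈ range V, ee (P.eval (v : ℝ))‖
      ≤ 2 * wC k * V * Z ^ (-(1 / (8 * ((k : ℝ) + 2) * (((k : ℝ) + 1) ^ 3 + (k + 1)))))
        + Z ^ (1 / (2 * ((k : ℝ) + 2))) := by
  set s : ℕ := (k + 1) ^ 3 + (k + 1) with hs
  have hsr : ((k : ℝ) + 1) ^ 3 + (k + 1) = (s : ℝ) := by rw [hs]; push_cast; ring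
  rw [hsr] at hZ ⊢
  have hs1 : 1 ≤ s := by rw [hs]; omega
  have hs1r : (1 : ℝ) ≤ s := by exact_mod_cast hs1
  have hk0 : (0 : ℝ) ≤ k := by positivity
  have hZ1 : 1 ≤ Z := by
    refine le_trans ?_ hZ
    have : (1 : ℝ) ≤ 2 * ((k : ℝ) + 2) * s := by nlinarith
    exact one_le_pow₀ this
  have hZ0 : 0 < Z := by linarith
  set y : ℝ := Z ^ (1 / (2 * ((k : ℝ) + 2))) with hy
  have hy1 : 1 ≤ y := Real.one_le_rpow hZ1 (by positivity)
  set W : ℕ := ⌊y⌋₊ with hW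
  have hWy : (W : ℝ) ≤ y := Nat.floor_le (by linarith)
  have hW1 : 1 ≤ W := by rw [hW]; exact Nat.le_floor (by exact_mod_cast hy1)
  have hW1r : (1 : ℝ) ≤ W := by exact_mod_cast hW1
  have hyW : y ≤ 2 * W := by
    have := Nat.lt_floor_add_one y
    rw [← hW] at this
    linarith
  -- `W^(k+1) ≤ Z^(1/2)`
  have hWk : (W : ℝ) ^ (k + 1) ≤ Z ^ (1 / 2 : ℝ) := by
    calc (W : ℝ) ^ (k + 1) ≤ y ^ (k + 1) := pow_le_pow_left₀ (by positivity) hWy _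
      _ = Z ^ (1 / (2 * ((k : ℝ) + 2)) * ((k : ℝ) + 1)) := by
          rw [hy, ← Real.rpow_natCast, ← Real.rpow_mul hZ0.le]; push_cast; rfl
      _ ≤ Z ^ (1 / 2 : ℝ) := by
          apply Real.rpow_le_rpow_of_exponent_le hZ1
          rw [div_mul_eq_mul_div, one_mul, div_le_div_iff₀ (by positivity) (by norm_num)]
          linarith
  have hdsW : 2 * ((k : ℝ) + 2) * s * (W : ℝ) ^ (k + 1) ≤ Z := by
    have h1 : 2 * ((k : ℝ) + 2) * s ≤ Z ^ (1 / 2 : ℝ) := by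
      have h2 := Real.rpow_le_rpow (by positivity) hZ (show (0 : ℝ) ≤ 1 / 2 by norm_num)
      rwa [← Real.rpow_natCast, ← Real.rpow_mul (by positivity),
        show ((2 : ℕ) : ℝ) * (1 / 2) = 1 by norm_num, Real.rpow_one] at h2
    calc 2 * ((k : ℝ) + 2) * s * (W : ℝ) ^ (k + 1) ≤ Z ^ (1 / 2 : ℝ) * Z ^ (1 / 2 : ℝ) :=
          mul_le_mul h1 hWk (by positivity) (by positivity)
      _ = Z := by rw [← Real.rpow_add hZ0]; norm_num
  obtain ⟨θ, hθ, hsh⟩ := shiftP k P hP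
  have hβ : ∀ h : ℕ, 1 ≤ h → h < 2 * (s * W ^ (k + 1)) →
      η ≤ dI (h * (((k + 2 : ℕ) : ℝ) * P.coeff (k + 2))) := by
    intro h h1 h2
    have h3 : h * (k + 2) ≤ B := by
      have h4 : ((h * (k + 2) : ℕ) : ℝ) ≤ B := by
        have h5 : (h : ℝ) ≤ 2 * (s * (W : ℝ) ^ (k + 1)) := by exact_mod_cast h2.le
        push_cast
        calc (h : ℝ) * (k + 2) ≤ 2 * (s * (W : ℝ) ^ (k + 1)) * (k + 2) := by gcongr
          _ = 2 * ((k : ℝ) + 2) * s * (W : ℝ) ^ (k + 1) := by ring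
          _ ≤ B := hdsW.trans hZB
      exact_mod_cast h4
    have h6 := hG (h * (k + 2)) (Nat.one_le_iff_ne_zero.2 (by positivity)) h3
    have h7 : ((h * (k + 2) : ℕ) : ℝ) * P.coeff (k + 2)
        = h * (((k + 2 : ℕ) : ℝ) * P.coeff (k + 2)) := by push_cast; ring
    rwa [h7] at h6
  have hm := moment k s V W hs1 hW1 θ (P.coeff (k + 2)) (((k + 2 : ℕ) : ℝ) * P.coeff (k + 2))
    (P.coeff (k + 1)) η hη hθ hβ
  have hJ := mvt (k + 1) W (by omega) hW1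
  have hJs : (k + 1) ^ 3 + (k + 1) = s := hs.symm
  rw [hJs] at hJ
  rw [wv_prod] at hm
  have hwCeq : wC k = 3 * (4 * (s : ℝ)) ^ k * 2 ^ ((k + 1 + 1) ^ 12) := by
    unfold wC
    rw [hsr]
  generalize hM : (2 : ℝ) ^ ((k + 1 + 1) ^ 12) = M at hJ hwCeq
  have hM0 : 0 ≤ M := by rw [← hM]; positivity
  -- collect
  have hlast : 2 * (V : ℝ) + 2 * (s * (W : ℝ) ^ (k + 1)) / η ≤ 3 * V := by
    have h1 : 2 * (s * (W : ℝ) ^ (k + 1)) / η ≤ V := by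
      rw [div_le_iff₀ hη]
      have h2 : 2 * (s * (W : ℝ) ^ (k + 1)) ≤ 2 * ((k : ℝ) + 2) * s * (W : ℝ) ^ (k + 1) := by
        have h3 : 0 ≤ (s : ℝ) * (W : ℝ) ^ (k + 1) := by positivity
        nlinarith
      linarith
    linarith
  have hW0 : (0 : ℝ) < W := by linarith
  have hsum : ∑ v ∈ range V, ‖∑ w ∈ range W,
        ee (∑ r : Fin (k + 1), θ r v * (w : ℝ) ^ (r.val + 1)
          + P.coeff (k + 2) * (w : ℝ) ^ (k + 2))‖ ^ (2 * s)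
      ≤ wC k * V * (W : ℝ) ^ (2 * (s : ℝ) - 1 / 2) := by
    refine hm.trans ?_
    have e1 : (W : ℝ) ^ (k * (k + 1) / 2) = (W : ℝ) ^ ((k : ℝ) * (k + 1) / 2) := by
      rw [← Real.rpow_natCast]
      congr 1
      rw [Nat.cast_div (Nat.even_mul_succ_self k).two_dvd (by norm_num)]
      push_cast
      ring
    rw [e1]
    calc (J s (k + 1) W : ℝ) * ((4 * (s : ℝ)) ^ k * (W : ℝ) ^ ((k : ℝ) * (k + 1) / 2))
          * (2 * V + 2 * (s * (W : ℝ) ^ (k + 1)) / η)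
        ≤ (M *
            (W : ℝ) ^ (2 * (((k + 1 : ℕ) : ℝ) ^ 3 + ((k + 1 : ℕ) : ℝ))
              - ((k + 1 : ℕ) : ℝ) * (((k + 1 : ℕ) : ℝ) + 1) / 2 + 1 / 2))
          * ((4 * (s : ℝ)) ^ k * (W : ℝ) ^ ((k : ℝ) * (k + 1) / 2)) * (3 * V) := by
          gcongr
      _ = wC k * V * ((W : ℝ) ^ (2 * (((k + 1 : ℕ) : ℝ) ^ 3 + ((k + 1 : ℕ) : ℝ))
              - ((k + 1 : ℕ) : ℝ) * (((k + 1 : ℕ) : ℝ) + 1) / 2 + 1 / 2)
            * (W : ℝ) ^ ((k : ℝ) * (k + 1) / 2)) := by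
          rw [hwCeq]
          ring
      _ ≤ wC k * V * (W : ℝ) ^ (2 * (s : ℝ) - 1 / 2) := by
          rw [← Real.rpow_add hW0]
          have : 0 ≤ wC k := by linarith [one_le_wC k]
          have hexp2 : 2 * (((k + 1 : ℕ) : ℝ) ^ 3 + ((k + 1 : ℕ) : ℝ))
              - ((k + 1 : ℕ) : ℝ) * (((k + 1 : ℕ) : ℝ) + 1) / 2 + 1 / 2 + (k : ℝ) * (k + 1) / 2
              ≤ 2 * (s : ℝ) - 1 / 2 := by
            rw [← hsr]
            push_cast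
            nlinarith
          exact mul_le_mul_of_nonneg_left (Real.rpow_le_rpow_of_exponent_le hW1r hexp2)
            (by positivity)
  obtain ⟨n, hn⟩ : ∃ n, s = n + 1 := ⟨s - 1, by omega⟩
  have hnr : (n : ℝ) + 1 = s := by rw [hn]; push_cast; ring
  have hj := wv_jensen n V W hW1r (wC k) (one_le_wC k) _ (fun v => norm_nonneg _)
    (by rw [← hn, hnr]; exact hsum)
  rw [hnr] at hj
  have hfin := hsh V W
  have h8 : (W : ℝ) * ‖∑ v ∈ range V, ee (P.eval (v : ℝ))‖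
      ≤ (W : ℝ) * (wC k * V * (W : ℝ) ^ (-(1 / (4 * (s : ℝ)))) + W) := by
    refine hfin.trans ((add_le_add_left hj _).trans (le_of_eq ?_))
    have e2 : (1 : ℝ) - 1 / (4 * s) = 1 + (-(1 / (4 * s))) := by ring
    rw [e2, Real.rpow_add hW0, Real.rpow_one]
    ring
  have h9 := le_of_mul_le_mul_left h8 hW0
  refine h9.trans (add_le_add ?_ hWy)
  have h10 : (W : ℝ) ^ (-(1 / (4 * (s : ℝ)))) ≤ 2 * Z ^ (-(1 / (8 * ((k : ℝ) + 2) * s))) := by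
    have h11 : (y / 2) ^ (-(1 / (4 * (s : ℝ)))) = 2 ^ (1 / (4 * (s : ℝ)))
        * Z ^ (-(1 / (8 * ((k : ℝ) + 2) * s))) := by
      rw [Real.div_rpow (by linarith) (by norm_num), hy, ← Real.rpow_mul hZ0.le,
        Real.rpow_neg (by norm_num : (0 : ℝ) ≤ 2), div_inv_eq_mul, mul_comm]
      congr 2
      field_simp
      ring
    calc (W : ℝ) ^ (-(1 / (4 * (s : ℝ)))) ≤ (y / 2) ^ (-(1 / (4 * (s : ℝ)))) := by
          apply Real.rpow_le_rpow_of_nonpos (by linarith) (by linarith)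
          have : (0 : ℝ) < 1 / (4 * s) := by positivity
          linarith
      _ = 2 ^ (1 / (4 * (s : ℝ))) * Z ^ (-(1 / (8 * ((k : ℝ) + 2) * s))) := h11
      _ ≤ 2 ^ (1 : ℝ) * Z ^ (-(1 / (8 * ((k : ℝ) + 2) * s))) := by
          gcongr
          · norm_num
          · rw [div_le_one (by positivity)]
            linarith
      _ = 2 * Z ^ (-(1 / (8 * ((k : ℝ) + 2) * s))) := by rw [Real.rpow_one]
  calc wC k * V * (W : ℝ) ^ (-(1 / (4 * (s : ℝ))))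
      ≤ wC k * V * (2 * Z ^ (-(1 / (8 * ((k : ℝ) + 2) * s)))) := by
        have : 0 ≤ wC k := by linarith [one_le_wC k]
        gcongr
    _ = 2 * wC k * V * Z ^ (-(1 / (8 * ((k : ℝ) + 2) * s))) := by ring

private theorem wv_small (d : ℕ) (hd : 1 ≤ d) :
    ((2 * (d : ℝ) ^ 4) ^ 2 : ℝ) ≤ 2 ^ ((d + 1) ^ 13) := by
  have a3 : (d + 1) ^ 4 ≤ (d + 1) ^ 13 := Nat.pow_le_pow_right (by omega) (by omega)
  have a5 : (d * 4 + 1) * 2 ≤ (d + 1) ^ 4 := by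
    have a6 : (d + 1) ^ 4 = (d + 1) ^ 2 * (d + 1) ^ 2 := by ring
    have a7 : 4 * d ≤ (d + 1) ^ 2 := by nlinarith [sq_nonneg ((d : ℤ) - 1)]
    have a8 : 4 ≤ (d + 1) ^ 2 := by nlinarith
    nlinarith
  have a4 := a5.trans a3
  generalize (d + 1) ^ 13 = b at a4 ⊢
  have h : (2 * d ^ 4) ^ 2 ≤ 2 ^ b := by
    have a1 : d ≤ 2 ^ d := Nat.lt_two_pow_self.le
    have a2 : d ^ 4 ≤ 2 ^ (d * 4) := by
      rw [pow_mul]; exact Nat.pow_le_pow_left a1 4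
    calc (2 * d ^ 4) ^ 2 ≤ (2 * 2 ^ (d * 4)) ^ 2 :=
          Nat.pow_le_pow_left (Nat.mul_le_mul_left _ a2) 2
      _ = 2 ^ ((d * 4 + 1) * 2) := by rw [← pow_succ', ← pow_mul]
      _ ≤ 2 ^ b := Nat.pow_le_pow_right (by norm_num) a4
  exact_mod_cast h

theorem weylv : ∃ c : ℕ, ∀ (d : ℕ) (P : ℝ[X]) (V B : ℕ) (η : ℝ), 1 ≤ d → P.natDegree ≤ d →
    1 ≤ V → 1 ≤ B → 0 < η → Gen B η (P.coeff d) →
    ‖∑ v ∈ range V, ee (P.eval (v : ℝ))‖
      ≤ 2 ^ ((d + 1) ^ c) * V *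
        ((B : ℝ) ^ (-(1 / (8 * (d : ℝ) ^ 4))) + (η * V) ^ (-(1 / (8 * (d : ℝ) ^ 4)))) := by
  refine ⟨13, ?_⟩
  intro d P V B η hd hP hV hB hη hG
  set σ : ℝ := 1 / (8 * (d : ℝ) ^ 4) with hσ
  have hd1 : (1 : ℝ) ≤ d := by exact_mod_cast hd
  have hσ0 : 0 < σ := by rw [hσ]; positivity
  have hσ1 : σ ≤ 1 := by
    rw [hσ, div_le_one (by positivity)]
    have : (1 : ℝ) ≤ (d : ℝ) ^ 4 := one_le_pow₀ hd1
    linarith
  have hV1 : (1 : ℝ) ≤ V := by exact_mod_cast hV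
  have hB1 : (1 : ℝ) ≤ B := by exact_mod_cast hB
  have hηV0 : 0 < η * V := by positivity
  have hηh : η ≤ 1 / 2 :=
    (hG 1 le_rfl hB).trans (Pool.Agent.Work.MP_215640_nt.dI_le_half _)
  set Z : ℝ := min (B : ℝ) (η * V) with hZdef
  have hZB : Z ≤ B := min_le_left _ _
  have hZV : Z ≤ η * V := min_le_right _ _
  have hZ0 : 0 < Z := lt_min (by linarith) hηV0
  have hZle : Z ^ (-σ) ≤ (B : ℝ) ^ (-σ) + (η * V) ^ (-σ) := by
    rcases min_choice (B : ℝ) (η * V) with h | h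
    · rw [hZdef, h]
      have : (0 : ℝ) ≤ (η * V) ^ (-σ) := by positivity
      linarith
    · rw [hZdef, h]
      have : (0 : ℝ) ≤ (B : ℝ) ^ (-σ) := by positivity
      linarith
  have hc1 : (1 : ℝ) ≤ 2 ^ ((d + 1) ^ 13) := one_le_pow₀ (by norm_num)
  have hc2 : ((2 * (d : ℝ) ^ 4) ^ 2 : ℝ) ≤ 2 ^ ((d + 1) ^ 13) := wv_small d hd
  have hc3 : ∀ k : ℕ, d = k + 2 → 2 * wC k + 1 ≤ 2 ^ ((d + 1) ^ 13) := by
    intro k hk
    have := wC_le k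
    rw [hk]
    exact this
  generalize (2 : ℝ) ^ ((d + 1) ^ 13) = M at hc1 hc2 hc3 ⊢
  -- reduction: it suffices to bound by `Z`
  suffices hmain : ‖∑ v ∈ range V, ee (P.eval (v : ℝ))‖ ≤ M * V * Z ^ (-σ) from
    hmain.trans (mul_le_mul_of_nonneg_left hZle (by positivity))
  rcases lt_or_ge Z 1 with hZ1 | hZ1
  · refine (wv_trivial P V).trans ?_
    have h1 : (1 : ℝ) ≤ Z ^ (-σ) :=
      Real.one_le_rpow_of_pos_of_le_one_of_nonpos hZ0 hZ1.le (by linarith)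
    calc (V : ℝ) = 1 * V * 1 := by ring
      _ ≤ M * V * Z ^ (-σ) := by gcongr
  obtain rfl | hd2 : d = 1 ∨ 2 ≤ d := by omega
  · -- linear polynomials
    have hG1 : η ≤ dI (P.coeff 1) := by
      have := hG 1 le_rfl hB
      simpa using this
    have he : ∀ v : ℕ, P.eval (v : ℝ) = P.coeff 1 * v + P.coeff 0 := by
      intro v
      conv_lhs => rw [Polynomial.eq_X_add_C_of_natDegree_le_one hP]
      simp
    simp only [he]
    refine (wv_geom _ _ V η hη hG1).trans ?_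
    have hZV1 : 1 ≤ η * V := hZ1.trans hZV
    have h1 : 1 / (2 * η) ≤ V * (η * V)⁻¹ := by
      rw [mul_inv, ← mul_assoc, mul_comm (V : ℝ), mul_assoc, mul_inv_cancel₀ (by positivity),
        mul_one, one_div, mul_inv]
      have : 0 < η⁻¹ := by positivity
      linarith
    have h2 : (η * V)⁻¹ ≤ Z ^ (-σ) := by
      calc (η * V)⁻¹ = (η * V) ^ (-1 : ℝ) := by rw [Real.rpow_neg_one]
        _ ≤ Z ^ (-1 : ℝ) := Real.rpow_le_rpow_of_nonpos hZ0 hZV (by norm_num)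
        _ ≤ Z ^ (-σ) := Real.rpow_le_rpow_of_exponent_le hZ1 (by linarith)
    refine h1.trans ?_
    calc (V : ℝ) * (η * V)⁻¹ ≤ V * Z ^ (-σ) := by gcongr
      _ = 1 * V * Z ^ (-σ) := by ring
      _ ≤ M * V * Z ^ (-σ) := by gcongr
  · obtain ⟨k, rfl⟩ : ∃ k, d = k + 2 := ⟨d - 2, by omega⟩
    have hk0 : (0 : ℝ) ≤ k := by positivity
    set s : ℝ := ((k : ℝ) + 1) ^ 3 + (k + 1) with hs
    have hs0 : 0 < s := by positivity
    have hs1 : 1 ≤ s := by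
      rw [hs]
      have : (0 : ℝ) < ((k : ℝ) + 1) ^ 3 := by positivity
      linarith
    have hsle : s ≤ ((k : ℝ) + 2) ^ 3 := by rw [hs]; nlinarith [sq_nonneg (k : ℝ)]
    rcases lt_or_ge Z ((2 * ((k : ℝ) + 2) * s) ^ 2) with hsm | hlarge
    · -- small `Z`: trivial
      refine (wv_trivial P V).trans ?_
      have h1 : Z ^ σ ≤ M := by
        calc Z ^ σ ≤ Z ^ (1 : ℝ) := Real.rpow_le_rpow_of_exponent_le hZ1 hσ1
          _ = Z := Real.rpow_one Z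
          _ ≤ (2 * ((k : ℝ) + 2) * s) ^ 2 := hsm.le
          _ ≤ (2 * ((k : ℝ) + 2) * ((k : ℝ) + 2) ^ 3) ^ 2 := by gcongr
          _ = (2 * (((k + 2 : ℕ)) : ℝ) ^ 4) ^ 2 := by push_cast; ring
          _ ≤ M := hc2
      have h2 : 1 ≤ M * Z ^ (-σ) := by
        rw [Real.rpow_neg hZ0.le, ← div_eq_mul_inv, le_div_iff₀ (by positivity), one_mul]
        exact h1
      calc (V : ℝ) = V * 1 := by ring
        _ ≤ V * (M * Z ^ (-σ)) := by gcongr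
        _ = M * V * Z ^ (-σ) := by ring
    · have hcore := wv_core k P V B η Z hP hη hG hZB hZV hlarge
      rw [← hs] at hcore
      refine hcore.trans ?_
      have hexp : σ ≤ 1 / (8 * ((k : ℝ) + 2) * s) := by
        rw [hσ]
        push_cast
        apply one_div_le_one_div_of_le (by positivity)
        calc 8 * ((k : ℝ) + 2) * s ≤ 8 * ((k : ℝ) + 2) * ((k : ℝ) + 2) ^ 3 := by gcongr
          _ = 8 * ((k : ℝ) + 2) ^ 4 := by ring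
      have h1 : Z ^ (-(1 / (8 * ((k : ℝ) + 2) * s))) ≤ Z ^ (-σ) :=
        Real.rpow_le_rpow_of_exponent_le hZ1 (by linarith)
      have h2 : Z ^ (1 / (2 * ((k : ℝ) + 2))) ≤ V * Z ^ (-σ) := by
        have h3 : Z ^ (1 / (2 * ((k : ℝ) + 2)) + σ) ≤ V := by
          calc Z ^ (1 / (2 * ((k : ℝ) + 2)) + σ) ≤ Z ^ (1 : ℝ) := by
                apply Real.rpow_le_rpow_of_exponent_le hZ1
                have h4 : 1 / (2 * ((k : ℝ) + 2)) ≤ 1 / 2 := by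
                  apply one_div_le_one_div_of_le (by norm_num); linarith
                have h5 : σ ≤ 1 / 2 := by
                  rw [hσ]
                  apply one_div_le_one_div_of_le (by norm_num)
                  have : (1 : ℝ) ≤ (((k + 2 : ℕ)) : ℝ) ^ 4 := one_le_pow₀ hd1
                  linarith
                linarith
            _ = Z := Real.rpow_one Z
            _ ≤ η * V := hZV
            _ ≤ 1 * V := by gcongr; linarith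
            _ = V := one_mul _
        have h6 : Z ^ (1 / (2 * ((k : ℝ) + 2))) = Z ^ (1 / (2 * ((k : ℝ) + 2)) + σ) * Z ^ (-σ) := by
          rw [← Real.rpow_add hZ0]; congr 1; ring
        rw [h6]
        gcongr
      have hwc := one_le_wC k
      calc 2 * wC k * V * Z ^ (-(1 / (8 * ((k : ℝ) + 2) * s))) + Z ^ (1 / (2 * ((k : ℝ) + 2)))
          ≤ 2 * wC k * V * Z ^ (-σ) + V * Z ^ (-σ) := by gcongr
        _ = (2 * wC k + 1) * V * Z ^ (-σ) := by ring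
        _ ≤ M * V * Z ^ (-σ) := by
            have := hc3 k rfl
            gcongr

end Pool.Agent.Work.Vino
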