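import Pool.Agent.Work.Vino.Defs

/-!
MODULE CHARA. Existence of the character system.

PROOF. `m := 2 R + 1` (odd, > R, `NeZero`), `Γ := Fin d → ZMod m`,
`χ g v := ∏ r, ZMod.stdAddChar (g r * (v r : ZMod m))` (a complex number),
`dbl g := 2 • g` (or `fun r => 2 * g r`): bijective because `2` is a unit of `ZMod m`.
`χ_add`: `AddChar.map_add_eq_mul`, `Finset.prod_mul_distrib`.  norm one: `AddChar.norm_apply`
or `ZMod.stdAddChar_apply` + `Circle.norm_coe`.
`orth`: `∑ g, ∏ r, ψ (g r * v r) = ∏ r, ∑ a : ZMod m, ψ (a * v r)` (`Finset.prod_univ_sum` /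
`Fintype.piFinset_univ`), and `∑ a, ψ (a * b) = if b = 0 then m else 0` for the primitive
character `stdAddChar` (`AddChar.sum_mulShift`, `ZMod.isPrimitive_stdAddChar`);
`(v r : ZMod m) = 0` iff `m ∣ v r` iff `v r = 0` as `|v r| ≤ R < m` (`Int.eq_zero_of_abs_lt_dvd`).
-/

set_option autoImplicit false

namespace Pool.Agent.Work.Vino

open Finset

theorem exists_charSys (d R : ℕ) : Nonempty (CharSys d R) := by
  classical
  have hm0 : 2 * R + 1 ≠ 0 := by omega
  have : NeZero (2 * R + 1) := ⟨hm0⟩
  have h2 : IsUnit (2 : ZMod (2 * R + 1)) := by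
    have hc : Nat.Coprime 2 (2 * R + 1) := by
      rw [Nat.coprime_two_left]
      exact ⟨R, rfl⟩
    have h := (ZMod.unitOfCoprime 2 hc).isUnit
    rw [ZMod.coe_unitOfCoprime] at h
    exact_mod_cast h
  refine ⟨{
    Γ := Fin d → ZMod (2 * R + 1)
    fin := inferInstance
    ne := inferInstance
    χ := fun g v => ∏ r, ZMod.stdAddChar (g r * (v r : ZMod (2 * R + 1)))
    norm_χ := ?_
    χ_add := ?_
    dbl := fun g => fun r => 2 * g r
    dbl_bij := ?_
    χ_dbl := ?_
    orth := ?_ }⟩
  · intro g v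
    rw [norm_prod]
    refine Finset.prod_eq_one fun r _ => ?_
    exact AddChar.norm_apply _ _
  · intro g v v'
    rw [← Finset.prod_mul_distrib]
    refine Finset.prod_congr rfl fun r _ => ?_
    rw [← AddChar.map_add_eq_mul]
    congr 1
    rw [Pi.add_apply]
    push_cast
    ring
  · apply Finite.injective_iff_bijective.1
    intro g g' h
    funext r
    exact h2.mul_left_cancel (congrFun h r)
  · intro g v
    rw [← Finset.prod_pow]
    refine Finset.prod_congr rfl fun r _ => ?_
    rw [pow_two, ← AddChar.map_add_eq_mul]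
    congr 1
    ring
  · intro v hv
    have h1 : ∀ b : ZMod (2 * R + 1), ∑ a : ZMod (2 * R + 1), ZMod.stdAddChar (a * b) =
        if b = 0 then ((2 * R + 1 : ℕ) : ℂ) else 0 := by
      intro b
      have h := AddChar.sum_mulShift b (ZMod.isPrimitive_stdAddChar (2 * R + 1))
      rw [ZMod.card] at h
      rw [h]
      split_ifs <;> simp
    have h3 : ∑ g : Fin d → ZMod (2 * R + 1), ∏ r, ZMod.stdAddChar (g r * (v r : ZMod (2 * R + 1)))
        = ∏ r, ∑ a : ZMod (2 * R + 1), ZMod.stdAddChar (a * (v r : ZMod (2 * R + 1))) := by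
      rw [Finset.prod_univ_sum, Fintype.piFinset_univ]
    rw [h3]
    simp only [h1]
    by_cases hv0 : v = 0
    · rw [if_pos hv0]
      subst hv0
      simp
    · rw [if_neg hv0]
      obtain ⟨r, hr⟩ : ∃ r, v r ≠ 0 := by
        by_contra hcon
        push Not at hcon
        exact hv0 (funext hcon)
      refine Finset.prod_eq_zero (Finset.mem_univ r) ?_
      rw [if_neg]
      intro h4
      rw [ZMod.intCast_zmod_eq_zero_iff_dvd] at h4
      apply hr
      refine Int.eq_zero_of_abs_lt_dvd h4 ((hv r).trans_lt ?_)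
      push_cast
      omega

end Pool.Agent.Work.Vino
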