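import Pool.Agent.Work.Vino.Defs

/-!
MODULE CHARB. Counting with a character system.

PROOF. `chi_zero`: `χ g 0 = χ g (0+0) = χ g 0 * χ g 0` and `χ g 0 ≠ 0` (norm 1).
`chi_neg`: `χ g v * χ g (-v) = 1` and `‖χ g v‖ = 1`, so `χ g (-v) = conj (χ g v)`.
`chi_sum`: induction.
`count_eq`: `∑ g, (∑_a χ g (φ a)) * conj (∑_b χ g (ψ b)) = ∑_a ∑_b ∑ g, χ g (φ a - ψ b)
 = card Γ * #{(a,b) : φ a = ψ b}` by `orth`.
`count_le`: norms in `count_eq` (`Complex.abs`/`norm_sum_le`, `norm_mul`, `RCLike.norm_conj`).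
`energy`: `count_eq` for `B = A = S`, `ψ = φ`, and `z * conj z = ‖z‖^2` (`Complex.mul_conj'`...).
`sum_pi`: `mom_eq_sum`, `chi_sum`, `Finset.prod_univ_sum` (or `Finset.sum_prod_piFinset`).
-/

set_option autoImplicit false

namespace Pool.Agent.Work.Vino

open Finset

variable {d R : ℕ}

theorem CharSys.chi_zero (C : CharSys d R) (g : C.Γ) : C.χ g 0 = 1 := by
  have h0 : C.χ g 0 ≠ 0 := by
    intro h
    have h1 := C.norm_χ g 0
    rw [h, norm_zero] at h1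
    exact zero_ne_one h1
  have h1 := C.χ_add g 0 0
  rw [add_zero] at h1
  have h2 : C.χ g 0 * 1 = C.χ g 0 * C.χ g 0 := by rw [mul_one]; exact h1
  exact (mul_left_cancel₀ h0 h2).symm

theorem CharSys.chi_neg (C : CharSys d R) (g : C.Γ) (v : Fin d → ℤ) :
    C.χ g (-v) = (starRingEnd ℂ) (C.χ g v) := by
  have h1 : C.χ g v * C.χ g (-v) = 1 := by
    rw [← C.χ_add, add_neg_cancel, C.chi_zero]
  have h0 : C.χ g v ≠ 0 := left_ne_zero_of_mul (by rw [h1]; exact one_ne_zero)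
  have h2 : C.χ g v * (starRingEnd ℂ) (C.χ g v) = 1 := by
    rw [Complex.mul_conj, Complex.normSq_eq_norm_sq, C.norm_χ]
    simp
  exact mul_left_cancel₀ h0 (h1.trans h2.symm)

theorem CharSys.chi_sum (C : CharSys d R) (g : C.Γ) {ι : Type*} (S : Finset ι)
    (v : ι → Fin d → ℤ) : C.χ g (∑ i ∈ S, v i) = ∏ i ∈ S, C.χ g (v i) := by
  classical
  induction S using Finset.induction_on with
  | empty => simp [C.chi_zero]
  | insert a s ha ih => rw [Finset.sum_insert ha, Finset.prod_insert ha, C.χ_add, ih]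

theorem CharSys.count_eq (C : CharSys d R) {ι κ : Type*} (A : Finset ι) (B : Finset κ)
    (φ : ι → Fin d → ℤ) (ψ : κ → Fin d → ℤ)
    (h : ∀ i ∈ A, ∀ j ∈ B, ∀ r, |φ i r - ψ j r| ≤ (R : ℤ)) :
    ∑ g, (∑ a ∈ A, C.χ g (φ a)) * (starRingEnd ℂ) (∑ b ∈ B, C.χ g (ψ b))
      = (Fintype.card C.Γ : ℂ) * ((A ×ˢ B).filter (fun q => φ q.1 = ψ q.2)).card := by
  classical
  have h1 : ∀ g, (∑ a ∈ A, C.χ g (φ a)) * (starRingEnd ℂ) (∑ b ∈ B, C.χ g (ψ b)) =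
      ∑ q ∈ A ×ˢ B, C.χ g (φ q.1 - ψ q.2) := by
    intro g
    rw [map_sum, Finset.sum_mul_sum, Finset.sum_product]
    refine Finset.sum_congr rfl fun a _ => Finset.sum_congr rfl fun b _ => ?_
    rw [← C.chi_neg, ← C.χ_add, sub_eq_add_neg]
  simp only [h1]
  rw [Finset.sum_comm]
  have h2 : ∀ q ∈ A ×ˢ B, ∑ g, C.χ g (φ q.1 - ψ q.2) =
      if φ q.1 = ψ q.2 then (Fintype.card C.Γ : ℂ) else 0 := by
    intro q hq
    rw [Finset.mem_product] at hq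
    rw [C.orth (φ q.1 - ψ q.2) (fun r => h q.1 hq.1 q.2 hq.2 r)]
    simp only [sub_eq_zero]
  rw [Finset.sum_congr rfl h2, ← Finset.sum_filter, Finset.sum_const, nsmul_eq_mul, mul_comm]

theorem CharSys.count_le (C : CharSys d R) {ι κ : Type*} (A : Finset ι) (B : Finset κ)
    (φ : ι → Fin d → ℤ) (ψ : κ → Fin d → ℤ)
    (h : ∀ i ∈ A, ∀ j ∈ B, ∀ r, |φ i r - ψ j r| ≤ (R : ℤ)) :
    (Fintype.card C.Γ : ℝ) * ((A ×ˢ B).filter (fun q => φ q.1 = ψ q.2)).card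
      ≤ ∑ g, ‖∑ a ∈ A, C.χ g (φ a)‖ * ‖∑ b ∈ B, C.χ g (ψ b)‖ := by
  have h1 := congrArg norm (C.count_eq A B φ ψ h)
  rw [norm_mul, Complex.norm_natCast, Complex.norm_natCast] at h1
  rw [← h1]
  refine (norm_sum_le _ _).trans ?_
  refine Finset.sum_le_sum fun g _ => ?_
  rw [norm_mul, RCLike.norm_conj]

theorem CharSys.energy (C : CharSys d R) {ι : Type*} (S : Finset ι) (φ : ι → Fin d → ℤ)
    (h : ∀ i ∈ S, ∀ j ∈ S, ∀ r, |φ i r - φ j r| ≤ (R : ℤ)) :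
    ∑ g, ‖∑ i ∈ S, C.χ g (φ i)‖ ^ 2 = (Fintype.card C.Γ : ℝ) * en S φ := by
  have h1 := C.count_eq S S φ φ h
  have h2 : ∀ g, (∑ a ∈ S, C.χ g (φ a)) * (starRingEnd ℂ) (∑ b ∈ S, C.χ g (φ b)) =
      ((‖∑ i ∈ S, C.χ g (φ i)‖ ^ 2 : ℝ) : ℂ) := by
    intro g
    rw [Complex.mul_conj, Complex.normSq_eq_norm_sq]
  simp only [h2] at h1
  rw [← Complex.ofReal_sum] at h1
  unfold en
  exact_mod_cast h1

theorem CharSys.sum_pi (C : CharSys d R) (g : C.Γ) (s : ℕ) (I : Finset ℤ) :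
    ∑ u ∈ Fintype.piFinset (fun _ : Fin s => I), C.χ g (mom d u)
      = (∑ x ∈ I, C.χ g (nu d x)) ^ s := by
  classical
  have h1 : (∑ x ∈ I, C.χ g (nu d x)) ^ s = ∏ _i : Fin s, ∑ x ∈ I, C.χ g (nu d x) := by
    rw [Finset.prod_const, Finset.card_univ, Fintype.card_fin]
  rw [h1, Finset.prod_univ_sum]
  refine Finset.sum_congr rfl fun u _ => ?_
  rw [mom_eq_sum, C.chi_sum]

end Pool.Agent.Work.Vino
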