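import Pool.Agent.Work.Vino.Defs

/-!
MODULE CLS. Variables in one residue class: translation and dilation.

PROOF. `card_diff_le_en` (Defs): the count is at most `en (cls s X p a) (mom d)`. Now apply
`en_le_of_inj` (Defs) with `f u := fun i => (u i) / p` (floor division; `u i = a + p * (u i / p)` as
`u i % p = a`, `Int.emod_add_ediv`..), target `box s (X / p + 1)`: `0 ≤ u i / p` and
`u i / p ≤ (X-1)/p ≤ X / p` (natural division, cast). Injective: `u i = a + p * f u i`.
`mom d (a + p * u') = mom d (a + p * v') → mom d u' = mom d v'`: `mom_affine_iff` (Defs), `p ≠ 0`.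
-/

set_option autoImplicit false

namespace Pool.Agent.Work.Vino

open Finset

theorem cls_count (d s X p a : ℕ) (hp : 1 ≤ p) (h : Fin d → ℤ) :
    ((cls s X p a ×ˢ cls s X p a).filter (fun q => mom d q.1 - mom d q.2 = h)).card
      ≤ J s d (X / p + 1) := by
  refine (card_diff_le_en (cls s X p a) (mom d) h).trans ?_
  have hpz : (0 : ℤ) < p := by exact_mod_cast hp
  have hrec : ∀ u ∈ cls s X p a, u = fun i => (a : ℤ) + (p : ℤ) * (u i / (p : ℤ)) := by
    intro u hu
    funext i
    have h1 := (mem_cls.1 hu i).2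
    have h2 := Int.emod_add_mul_ediv (u i) p
    rw [h1] at h2
    exact h2.symm
  unfold J
  apply en_le_of_inj _ _ _ _ (fun (u : Fin s → ℤ) (i : Fin s) => u i / (p : ℤ))
  · intro u hu
    rw [mem_box]
    intro i
    obtain ⟨⟨h1, h2⟩, h3⟩ := mem_cls.1 hu i
    refine ⟨Int.ediv_nonneg h1 hpz.le, ?_⟩
    have h4 : u i / (p : ℤ) ≤ (X : ℤ) / (p : ℤ) := Int.ediv_le_ediv hpz h2.le
    push_cast
    omega
  · intro u hu v hv huv
    rw [hrec u hu, hrec v hv]
    funext i
    have h1 : u i / (p : ℤ) = v i / (p : ℤ) := congrFun huv i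
    rw [h1]
  · intro u hu v hv huv
    rw [hrec u hu, hrec v hv] at huv
    exact (mom_affine_iff (a : ℤ) (p : ℤ) hpz.ne').1 huv

end Pool.Agent.Work.Vino
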