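import Mathlib

/-!
# Vinogradov's mean value theorem (Karatsuba-Linnik form): definitions

`J s d X` is the number of solutions of `x_1^r + ... + x_s^r = y_1^r + ... + y_s^r` (`1 ≤ r ≤ d`)
in integers `0 ≤ x_i, y_i < X`.  Everything is expressed by energies `en S φ`.
-/

set_option autoImplicit false

namespace Pool.Agent.Work.Vino

open Finset

/-- the vector `(x, x^2, ..., x^d)` -/
def nu (d : ℕ) (x : ℤ) : Fin d → ℤ := fun r => x ^ (r.val + 1)

/-- the power sums of exponents `1, ..., d` -/
def mom (d : ℕ) {s : ℕ} (u : Fin s → ℤ) : Fin d → ℤ := fun r => ∑ i, u i ^ (r.val + 1)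

/-- the integer vectors with all coordinates in `[0, X)` -/
noncomputable def box (s X : ℕ) : Finset (Fin s → ℤ) := Fintype.piFinset (fun _ => Finset.Ico (0 : ℤ) X)

/-- the integer vectors with all coordinates in `[0, X)` and `= a` modulo `p` -/
noncomputable def cls (s X p a : ℕ) : Finset (Fin s → ℤ) :=
  Fintype.piFinset (fun _ => (Finset.Ico (0 : ℤ) X).filter (fun x => x % (p : ℤ) = (a : ℤ)))

/-- energy: the number of pairs of elements of `S` with the same value of `φ` -/
def en {ι κ : Type*} [DecidableEq κ] (S : Finset ι) (φ : ι → κ) : ℕ :=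
  ((S ×ˢ S).filter (fun q => φ q.1 = φ q.2)).card

/-- Vinogradov's mean value -/
noncomputable def J (s d X : ℕ) : ℕ := en (box s X) (mom d)

/-- the vectors of `box d X` with distinct coordinates -/
noncomputable def injs (d X : ℕ) : Finset (Fin d → ℤ) := (box d X).filter (fun x => ∀ i j, i ≠ j → x i ≠ x j)

/-- the vectors of `box d X` with coordinates distinct modulo `p` -/
noncomputable def injp (d X p : ℕ) : Finset (Fin d → ℤ) :=
  (box d X).filter (fun x => ∀ i j, i ≠ j → ¬ ((p : ℤ) ∣ x i - x j))

/-- the number of `((x,u),(y,v))` with `x, y ∈ A`, `u, v ∈ [0,X)^s` and equal power sums `1..d` of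
the concatenations `x+u` and `y+v` -/
noncomputable def NS {d : ℕ} (A : Finset (Fin d → ℤ)) (s X : ℕ) : ℕ :=
  en (A ×ˢ box s X) (fun q => mom d q.1 + mom d q.2)

theorem mom_apply (d : ℕ) {s : ℕ} (u : Fin s → ℤ) (r : Fin d) :
    mom d u r = ∑ i, u i ^ (r.val + 1) := rfl

theorem mom_eq_sum (d : ℕ) {s : ℕ} (u : Fin s → ℤ) : mom d u = ∑ i, nu d (u i) := by
  funext r
  simp [mom, nu]

theorem mem_box {s X : ℕ} {u : Fin s → ℤ} : u ∈ box s X ↔ ∀ i, 0 ≤ u i ∧ u i < X := by
  simp [box, Fintype.mem_piFinset]

theorem card_box (s X : ℕ) : (box s X).card = X ^ s := by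
  simp [box, Fintype.card_piFinset]

theorem mem_cls {s X p a : ℕ} {u : Fin s → ℤ} :
    u ∈ cls s X p a ↔ ∀ i, (0 ≤ u i ∧ u i < X) ∧ u i % (p : ℤ) = (a : ℤ) := by
  simp [cls, Fintype.mem_piFinset]

theorem mem_injs {d X : ℕ} {x : Fin d → ℤ} :
    x ∈ injs d X ↔ x ∈ box d X ∧ ∀ i j, i ≠ j → x i ≠ x j := by
  simp [injs]

theorem mem_injp {d X p : ℕ} {x : Fin d → ℤ} :
    x ∈ injp d X p ↔ x ∈ box d X ∧ ∀ i j, i ≠ j → ¬ ((p : ℤ) ∣ x i - x j) := by
  simp [injp]

/-- energies are monotone -/
theorem en_mono {ι κ : Type*} [DecidableEq κ] {S T : Finset ι} (h : S ⊆ T) (φ : ι → κ) :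
    en S φ ≤ en T φ := by
  unfold en
  exact Finset.card_le_card (Finset.filter_subset_filter _ (Finset.product_subset_product h h))

/-- energies under an injection compatible with the maps up to an injective function -/
theorem en_le_of_inj {ι ι' κ κ' : Type*} [DecidableEq κ] [DecidableEq κ'] (S : Finset ι)
    (S' : Finset ι') (φ : ι → κ) (φ' : ι' → κ') (f : ι → ι') (hf : ∀ i ∈ S, f i ∈ S')
    (hinj : ∀ i ∈ S, ∀ j ∈ S, f i = f j → i = j)
    (h : ∀ i ∈ S, ∀ j ∈ S, φ i = φ j → φ' (f i) = φ' (f j)) : en S φ ≤ en S' φ' := by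
  unfold en
  apply Finset.card_le_card_of_injOn (fun q => (f q.1, f q.2))
  · intro q hq
    simp only [coe_filter, mem_product, Set.mem_ofPred_eq] at hq ⊢
    exact ⟨⟨hf _ hq.1.1, hf _ hq.1.2⟩, h _ hq.1.1 _ hq.1.2 hq.2⟩
  · intro q hq q' hq' hqq
    simp only [coe_filter, mem_product, Set.mem_ofPred_eq] at hq hq'
    simp only [Prod.mk.injEq] at hqq
    exact Prod.ext (hinj _ hq.1.1 _ hq'.1.1 hqq.1) (hinj _ hq.1.2 _ hq'.1.2 hqq.2)

/-- the power sums of a concatenation -/
theorem mom_append (d : ℕ) {s t : ℕ} (x : Fin s → ℤ) (u : Fin t → ℤ) :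
    mom d (Fin.append x u) = mom d x + mom d u := by
  funext r
  simp [mom, Fin.sum_univ_add]

/-- splitting the variables of the Vinogradov system -/
theorem J_add (s t d X : ℕ) :
    J (s + t) d X = en (box s X ×ˢ box t X) (fun q => mom d q.1 + mom d q.2) := by
  apply le_antisymm
  · apply en_le_of_inj _ _ _ _ (fun x => (fun i => x (Fin.castAdd t i), fun i => x (Fin.natAdd s i)))
    · intro x hx
      rw [mem_box] at hx
      simp only [mem_product, mem_box]
      exact ⟨fun i => hx _, fun i => hx _⟩
    · intro x hx y hy h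
      simp only [Prod.mk.injEq] at h
      funext i
      refine Fin.addCases (fun j => ?_) (fun j => ?_) i
      · exact congrFun h.1 j
      · exact congrFun h.2 j
    · intro x hx y hy h
      have key : ∀ z : Fin (s + t) → ℤ, mom d z =
          mom d (fun i => z (Fin.castAdd t i)) + mom d (fun i => z (Fin.natAdd s i)) := by
        intro z
        funext r
        simp [mom, Fin.sum_univ_add]
      rw [key x, key y] at h
      exact h
  · apply en_le_of_inj _ _ _ _ (fun q => Fin.append q.1 q.2)
    · intro q hq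
      simp only [mem_product, mem_box] at hq
      rw [mem_box]
      intro i
      refine Fin.addCases (fun j => ?_) (fun j => ?_) i
      · simpa using hq.1 j
      · simpa using hq.2 j
    · intro q hq q' hq' h
      refine Prod.ext ?_ ?_
      · funext i
        have := congrFun h (Fin.castAdd t i)
        simpa using this
      · funext i
        have := congrFun h (Fin.natAdd s i)
        simpa using this
    · intro q hq q' hq' h
      simp only [mom_append]
      exact h

/-- one point -/
theorem J_one (s d : ℕ) : J s d 1 = 1 := by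
  unfold J en
  have h : box s 1 = {fun _ => 0} := by
    ext u
    rw [mem_box, Finset.mem_singleton]
    constructor
    · intro h
      funext i
      have := h i
      push_cast at this
      omega
    · intro h i
      rw [h]
      simp
  rw [h, Finset.singleton_product_singleton, Finset.filter_singleton]
  simp

/-- the system without variables -/
theorem J_zero (d X : ℕ) : J 0 d X = 1 := by
  unfold J en box
  rw [Fintype.piFinset_of_isEmpty, Finset.univ_unique, Finset.singleton_product_singleton,
    Finset.filter_singleton]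
  simp

/-- the diagonal solutions -/
theorem pow_le_J (s d X : ℕ) : X ^ s ≤ J s d X := by
  rw [← card_box]
  unfold J en
  apply Finset.card_le_card_of_injOn (fun x => (x, x))
  · intro x hx
    simpa using hx
  · intro x hx y hy h
    simpa using h

/-- the number of pairs with prescribed difference is at most the energy -/
theorem card_diff_le_en {ι : Type*} {d : ℕ} (S : Finset ι) (φ : ι → Fin d → ℤ) (h : Fin d → ℤ) :
    ((S ×ˢ S).filter (fun q => φ q.1 - φ q.2 = h)).card ≤ en S φ := by
  classical
  set T : Finset (Fin d → ℤ) := S.image φ ∪ S.image (fun i => φ i - h) with hT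
  let r : (Fin d → ℤ) → ℕ := fun g => (S.filter (fun i => φ i = g)).card
  have e1 : en S φ = ∑ g ∈ S.image φ, r g * r g := by
    unfold en
    rw [Finset.card_eq_sum_card_fiberwise (f := fun q : ι × ι => φ q.1) (t := S.image φ)]
    · apply Finset.sum_congr rfl
      intro g _
      rw [← Finset.card_product]
      congr 1
      ext q
      simp only [mem_filter, mem_product]
      constructor
      · rintro ⟨⟨⟨h1, h2⟩, h3⟩, h4⟩
        exact ⟨⟨h1, h4⟩, h2, by rw [← h3, h4]⟩
      · rintro ⟨⟨h1, h2⟩, h3, h4⟩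
        exact ⟨⟨⟨h1, h3⟩, by rw [h2, h4]⟩, h2⟩
    · intro q hq
      simp only [coe_filter, mem_product, Set.mem_ofPred_eq] at hq
      simp only [coe_image, Set.mem_image, mem_coe]
      exact ⟨q.1, hq.1.1, rfl⟩
  have e2 : ((S ×ˢ S).filter (fun q => φ q.1 - φ q.2 = h)).card
      = ∑ g ∈ S.image φ, r g * r (g - h) := by
    rw [Finset.card_eq_sum_card_fiberwise (f := fun q : ι × ι => φ q.1) (t := S.image φ)]
    · apply Finset.sum_congr rfl
      intro g _
      rw [← Finset.card_product]
      congr 1
      ext q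
      simp only [mem_filter, mem_product]
      constructor
      · rintro ⟨⟨⟨h1, h2⟩, h3⟩, h4⟩
        exact ⟨⟨h1, h4⟩, h2, by rw [← h3, h4]; abel⟩
      · rintro ⟨⟨h1, h2⟩, h3, h4⟩
        exact ⟨⟨⟨h1, h3⟩, by rw [h2, h4]; abel⟩, h2⟩
    · intro q hq
      simp only [coe_filter, mem_product, Set.mem_ofPred_eq] at hq
      simp only [coe_image, Set.mem_image, mem_coe]
      exact ⟨q.1, hq.1.1, rfl⟩
  have e3 : ∑ g ∈ S.image φ, r (g - h) * r (g - h) ≤ ∑ g ∈ S.image φ, r g * r g := by
    have h1 : ∑ g ∈ S.image φ, r (g - h) * r (g - h)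
        = ∑ g ∈ (S.image φ).image (fun g => g - h), r g * r g := by
      rw [Finset.sum_image (s := S.image φ) (g := fun g => g - h)]
      intro a _ b _ hab
      simpa using hab
    rw [h1]
    have h2 : ∀ g, g ∉ S.image φ → r g * r g = 0 := by
      intro g hg
      have : r g = 0 := by
        simp only [r, Finset.card_eq_zero, Finset.filter_eq_empty_iff]
        intro i hi hgi
        exact hg (Finset.mem_image.2 ⟨i, hi, hgi⟩)
      rw [this]
    calc ∑ g ∈ (S.image φ).image (fun g => g - h), r g * r g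
        ≤ ∑ g ∈ (S.image φ).image (fun g => g - h) ∪ S.image φ, r g * r g :=
          Finset.sum_le_sum_of_subset Finset.subset_union_left
      _ = ∑ g ∈ S.image φ, r g * r g := by
          symm
          apply Finset.sum_subset Finset.subset_union_right
          intro g _ hg
          exact h2 g hg
  rw [e1, e2]
  have e4 : 2 * ∑ g ∈ S.image φ, r g * r (g - h)
      ≤ ∑ g ∈ S.image φ, r g * r g + ∑ g ∈ S.image φ, r (g - h) * r (g - h) := by
    rw [Finset.mul_sum, ← Finset.sum_add_distrib]
    apply Finset.sum_le_sum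
    intro g _
    have := two_mul_le_add_sq (r g) (r (g - h))
    nlinarith [this]
  omega

/-- the Vinogradov system is invariant under affine substitutions -/
theorem mom_affine {d s : ℕ} {x y : Fin s → ℤ} (h : mom d x = mom d y) (a b : ℤ) :
    mom d (fun i => a + b * x i) = mom d (fun i => a + b * y i) := by
  funext r
  have h1 : ∀ z : Fin s → ℤ, mom d (fun i => a + b * z i) r
      = ∑ m ∈ range (r.val + 1 + 1), a ^ m * b ^ (r.val + 1 - m) * (r.val + 1).choose m
          * ∑ i, z i ^ (r.val + 1 - m) := by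
    intro z
    simp only [mom, add_pow]
    rw [Finset.sum_comm]
    apply Finset.sum_congr rfl
    intro m _
    rw [Finset.mul_sum]
    apply Finset.sum_congr rfl
    intro i _
    rw [mul_pow]
    ring
  rw [h1, h1]
  apply Finset.sum_congr rfl
  intro m _
  congr 1
  rcases Nat.eq_zero_or_pos (r.val + 1 - m) with h0 | h0
  · rw [h0]; simp
  · have h2 := congrFun h ⟨r.val + 1 - m - 1, by omega⟩
    simp only [mom] at h2
    have h3 : r.val + 1 - m - 1 + 1 = r.val + 1 - m := by omega
    rw [h3] at h2
    exact h2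

theorem mom_affine_iff {d s : ℕ} {x y : Fin s → ℤ} (a b : ℤ) (hb : b ≠ 0) :
    mom d (fun i => a + b * x i) = mom d (fun i => a + b * y i) ↔ mom d x = mom d y := by
  refine ⟨fun h => ?_, fun h => mom_affine h a b⟩
  have h1 := mom_affine h (-a) 1
  simp only [one_mul, neg_add_cancel_left] at h1
  funext r
  have h2 := congrFun h1 r
  simp only [mom, mul_pow, ← Finset.mul_sum] at h2 ⊢
  exact mul_left_cancel₀ (pow_ne_zero _ hb) h2

/-- the same for two blocks of variables -/
theorem mom_affine2 {d s t : ℕ} {x y : Fin s → ℤ} {u v : Fin t → ℤ}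
    (h : mom d x + mom d u = mom d y + mom d v) (a b : ℤ) :
    mom d (fun i => a + b * x i) + mom d (fun i => a + b * u i)
      = mom d (fun i => a + b * y i) + mom d (fun i => a + b * v i) := by
  rw [← mom_append, ← mom_append] at h
  have h1 := mom_affine h a b
  have h2 : ∀ (z : Fin s → ℤ) (w : Fin t → ℤ), (fun i => a + b * Fin.append z w i)
      = Fin.append (fun i => a + b * z i) (fun i => a + b * w i) := by
    intro z w
    funext i
    refine Fin.addCases (fun j => ?_) (fun j => ?_) i
    · simp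
    · simp
  rw [h2, h2, mom_append, mom_append] at h1
  exact h1

/-- a finite family of vectors has bounded differences -/
theorem exists_bound {ι κ : Type*} {d : ℕ} (S : Finset ι) (T : Finset κ) (φ : ι → Fin d → ℤ)
    (ψ : κ → Fin d → ℤ) : ∃ R : ℕ, ∀ i ∈ S, ∀ j ∈ T, ∀ r, |φ i r - ψ j r| ≤ (R : ℤ) := by
  classical
  refine ⟨∑ i ∈ S, ∑ j ∈ T, ∑ r, (φ i r - ψ j r).natAbs, fun i hi j hj r => ?_⟩
  have h1 : (φ i r - ψ j r).natAbs ≤ ∑ i ∈ S, ∑ j ∈ T, ∑ r, (φ i r - ψ j r).natAbs := by
    calc (φ i r - ψ j r).natAbs ≤ ∑ r, (φ i r - ψ j r).natAbs :=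
          Finset.single_le_sum (f := fun r => (φ i r - ψ j r).natAbs) (fun _ _ => Nat.zero_le _)
            (Finset.mem_univ r)
      _ ≤ ∑ j ∈ T, ∑ r, (φ i r - ψ j r).natAbs :=
          Finset.single_le_sum (f := fun j => ∑ r, (φ i r - ψ j r).natAbs)
            (fun _ _ => Nat.zero_le _) hj
      _ ≤ ∑ i ∈ S, ∑ j ∈ T, ∑ r, (φ i r - ψ j r).natAbs :=
          Finset.single_le_sum (f := fun i => ∑ j ∈ T, ∑ r, (φ i r - ψ j r).natAbs)
            (fun _ _ => Nat.zero_le _) hi
  rw [Int.abs_eq_natAbs]
  exact_mod_cast h1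

/-- a finite system of characters of `ℤ^d` which detects `v = 0` for the vectors with coordinates
at most `R` in absolute value, with a doubling bijection -/
structure CharSys (d R : ℕ) where
  /-- the index type -/
  Γ : Type
  /-- it is finite -/
  fin : Fintype Γ
  /-- it is nonempty -/
  ne : Nonempty Γ
  /-- the characters -/
  χ : Γ → (Fin d → ℤ) → ℂ
  norm_χ : ∀ g v, ‖χ g v‖ = 1
  χ_add : ∀ g v v', χ g (v + v') = χ g v * χ g v'
  /-- doubling of the index -/
  dbl : Γ → Γ
  dbl_bij : Function.Bijective dbl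
  χ_dbl : ∀ g v, χ (dbl g) v = χ g v ^ 2
  orth : ∀ v : Fin d → ℤ, (∀ r, |v r| ≤ (R : ℤ)) →
    ∑ g, χ g v = if v = 0 then (Fintype.card Γ : ℂ) else 0

attribute [instance] CharSys.fin CharSys.ne

end Pool.Agent.Work.Vino
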