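import Pool.Agent.Work.Vino.CharB

/-!
MODULE DEGENA. The character sum of the vectors with two equal coordinates, and an inequality.

PROOF of `degen_sum`. By `χ_add` and `Finset.sum_product` the sum is a product, the second factor is
`T^s` (`sum_pi`), `T := ∑ x ∈ Ico 0 X, χ g (nu d x)`. For the first factor: `d ≥ 2`; write
`d = n + 1`; the map `x ↦ x ∘ j.succAbove` is a bijection of `{x ∈ box d X : x i = x j}` onto
`box n X` (inverse `y ↦ j.insertNth (y i') y`, where `i = j.succAbove i'`, `Fin.exists_succAbove_eq`),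
`mom d x = ∑_k nu (y k) + nu (y i')` (`Fin.sum_univ_succAbove`), so
`χ g (mom d x) = ∏_k (χ g (nu (y k)))^(if k = i' then 2 else 1)`, and by `Finset.prod_univ_sum`
the sum over `y` is `∏_k ∑_x (...) = T2 * T^(n-1)`, `n - 1 = d - 2`.
(Another way: `Finset.sum_prod_piFinset` etc. Any proof is fine.)

PROOF of `young`. `m := max a b`, `a * b^(2t-2) ≤ m^(2t-1)`. If `m ≥ c` then
`m^(2t-1) ≤ m^(2t)/c ≤ (a^(2t)+b^(2t))/c`, else `m^(2t-1) ≤ c^(2t-1)`.
-/

set_option autoImplicit false

namespace Pool.Agent.Work.Vino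

open Finset

private theorem degen_pi {d : ℕ} (f : ℤ → ℂ) (I : Finset ℤ) (i j : Fin d) (hij : i ≠ j) :
    ∑ x ∈ (Fintype.piFinset (fun _ : Fin d => I)).filter (fun x => x i = x j), ∏ k, f (x k)
      = (∑ y ∈ I, f y ^ 2) * (∑ y ∈ I, f y) ^ (d - 2) := by
  classical
  have h1 : ∑ x ∈ (Fintype.piFinset (fun _ : Fin d => I)).filter (fun x => x i = x j),
      ∏ k, f (x k) = ∑ y ∈ I, ∑ x ∈ ((Fintype.piFinset (fun _ : Fin d => I)).filter
        (fun x => x i = x j)).filter (fun x => x i = y), ∏ k, f (x k) := by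
    symm
    apply sum_fiberwise_of_maps_to
    intro x hx
    rw [mem_filter, Fintype.mem_piFinset] at hx
    exact hx.1 i
  rw [h1, sum_mul]
  apply sum_congr rfl
  intro y hy
  have h2 : ((Fintype.piFinset (fun _ : Fin d => I)).filter
      (fun x => x i = x j)).filter (fun x => x i = y) =
      Fintype.piFinset (fun k : Fin d => if k = i ∨ k = j then ({y} : Finset ℤ) else I) := by
    ext x
    rw [mem_filter, mem_filter, Fintype.mem_piFinset, Fintype.mem_piFinset]
    constructor
    · rintro ⟨⟨h3, h4⟩, h5⟩ k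
      split_ifs with h6
      · rw [mem_singleton]
        rcases h6 with h6 | h6
        · rw [h6, h5]
        · rw [h6, ← h4, h5]
      · exact h3 k
    · intro h3
      have h4 : x i = y := by
        have := h3 i
        rw [if_pos (Or.inl rfl), mem_singleton] at this
        exact this
      have h5 : x j = y := by
        have := h3 j
        rw [if_pos (Or.inr rfl), mem_singleton] at this
        exact this
      refine ⟨⟨fun k => ?_, by rw [h4, h5]⟩, h4⟩
      by_cases h6 : k = i ∨ k = j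
      · rcases h6 with h6 | h6
        · rw [h6, h4]; exact hy
        · rw [h6, h5]; exact hy
      · have := h3 k
        rwa [if_neg h6] at this
  rw [h2, ← prod_univ_sum]
  have h3 : ∀ k : Fin d, ∑ x ∈ (if k = i ∨ k = j then ({y} : Finset ℤ) else I), f x =
      if k = i ∨ k = j then f y else ∑ x ∈ I, f x := by
    intro k
    split_ifs
    · rw [sum_singleton]
    · rfl
  rw [prod_congr rfl fun k _ => h3 k, prod_ite, prod_const, prod_const]
  have h4 : (univ.filter (fun k : Fin d => k = i ∨ k = j)) = {i, j} := by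
    ext k
    simp
  have h5 : ((univ : Finset (Fin d)).filter (fun k : Fin d => ¬ (k = i ∨ k = j))).card = d - 2 := by
    have h6 := card_filter_add_card_filter_not (s := (univ : Finset (Fin d)))
      (fun k : Fin d => k = i ∨ k = j)
    rw [h4, card_pair hij, card_univ, Fintype.card_fin] at h6
    omega
  rw [h4, card_pair hij, h5]

theorem degen_sum {d R : ℕ} (C : CharSys d R) (s X : ℕ) (i j : Fin d) (hij : i ≠ j) (g : C.Γ) :
    ∑ q ∈ ((box d X).filter (fun x => x i = x j)) ×ˢ box s X, C.χ g (mom d q.1 + mom d q.2)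
      = (∑ x ∈ Ico (0 : ℤ) X, C.χ g (nu d x) ^ 2)
        * (∑ x ∈ Ico (0 : ℤ) X, C.χ g (nu d x)) ^ (d - 2 + s) := by
  have h1 : ∑ q ∈ ((box d X).filter (fun x => x i = x j)) ×ˢ box s X,
      C.χ g (mom d q.1 + mom d q.2) =
      (∑ x ∈ (box d X).filter (fun x => x i = x j), C.χ g (mom d x)) *
        ∑ u ∈ box s X, C.χ g (mom d u) := by
    rw [sum_mul_sum, sum_product]
    apply sum_congr rfl
    intro x _
    apply sum_congr rfl
    intro u _
    exact C.χ_add _ _ _
  have h2 : ∑ x ∈ (box d X).filter (fun x => x i = x j), C.χ g (mom d x) =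
      (∑ x ∈ Ico (0 : ℤ) X, C.χ g (nu d x) ^ 2) *
        (∑ x ∈ Ico (0 : ℤ) X, C.χ g (nu d x)) ^ (d - 2) := by
    rw [← degen_pi (fun x => C.χ g (nu d x)) (Ico (0 : ℤ) X) i j hij]
    unfold box
    apply sum_congr rfl
    intro x _
    rw [mom_eq_sum, C.chi_sum]
  have h3 : ∑ u ∈ box s X, C.χ g (mom d u) = (∑ x ∈ Ico (0 : ℤ) X, C.χ g (nu d x)) ^ s :=
    C.sum_pi g s _
  rw [h1, h2, h3, mul_assoc, ← pow_add]

theorem young (t : ℕ) (ht : 1 ≤ t) (a b c : ℝ) (ha : 0 ≤ a) (hb : 0 ≤ b) (hc : 0 < c) :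
    a * b ^ (2 * t - 2) ≤ (a ^ (2 * t) + b ^ (2 * t)) / c + c ^ (2 * t - 1) := by
  set m := max a b with hm
  have hm0 : 0 ≤ m := le_max_of_le_left ha
  have h1 : a * b ^ (2 * t - 2) ≤ m ^ (2 * t - 1) := by
    have h2 : m ^ (2 * t - 1) = m * m ^ (2 * t - 2) := by
      rw [← pow_succ']
      congr 1
      omega
    rw [h2]
    exact mul_le_mul (le_max_left _ _) (pow_le_pow_left₀ hb (le_max_right _ _) _)
      (by positivity) hm0
  refine h1.trans ?_
  rcases le_total c m with h | h
  · have h2 : m ^ (2 * t - 1) ≤ m ^ (2 * t) / c := by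
      rw [le_div_iff₀ hc]
      have h3 : m ^ (2 * t) = m ^ (2 * t - 1) * m := by
        rw [← pow_succ]
        congr 1
        omega
      rw [h3]
      exact mul_le_mul_of_nonneg_left h (by positivity)
    have h3 : m ^ (2 * t) ≤ a ^ (2 * t) + b ^ (2 * t) := by
      rcases max_choice a b with h4 | h4
      · rw [hm, h4]
        have : 0 ≤ b ^ (2 * t) := by positivity
        linarith
      · rw [hm, h4]
        have : 0 ≤ a ^ (2 * t) := by positivity
        linarith
    have h4 : m ^ (2 * t) / c ≤ (a ^ (2 * t) + b ^ (2 * t)) / c :=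
      div_le_div_of_nonneg_right h3 hc.le
    have h5 : 0 ≤ c ^ (2 * t - 1) := by positivity
    linarith
  · have h2 : m ^ (2 * t - 1) ≤ c ^ (2 * t - 1) := pow_le_pow_left₀ hm0 h _
    have h3 : 0 ≤ (a ^ (2 * t) + b ^ (2 * t)) / c := by positivity
    linarith

end Pool.Agent.Work.Vino
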