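import Pool.Agent.Work.Vino.CharA
import Pool.Agent.Work.Vino.DegenA

/-!
MODULE DEGENB. At least half of the solutions have distinct leading variables, up to a constant.

PROOF. `t := d + s`, `φ q := mom d q.1 + mom d q.2`, `Q := box d X ×ˢ box s X`; by `J_add`
`J t d X = en Q φ`.  If a pair `(q, q')` of `en Q φ` is not a pair of `en (injs d X ×ˢ box s X) φ = NS`
then `q.1` or `q'.1` has two equal coordinates `i < j`; so
`J ≤ NS + 2 * ∑_{i<j} n i j`, `n i j := #{(q,q') : q ∈ D i j, q' ∈ Q, φ q = φ q'}`, with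
`D i j := ((box d X).filter (fun x => x i = x j)) ×ˢ box s X` (the case of `q'` by symmetry), and there
are at most `d^2/2` pairs `i < j` (`d (d-1)/2`; use `Finset.card` of `univ.filter (i<j)`, or sum over
ordered pairs `i ≠ j` of `n i j / 2`).
Take `R` from `exists_bound Q Q φ φ`, `C` from `exists_charSys`. `count_le` + `degen_sum`:
`card Γ * n i j ≤ ∑ γ, A γ * B γ^(d-2+s) * B γ^(d+s) = ∑ γ, A γ * B γ^(2t-2)` with
`B γ = ‖∑ x, χ γ (nu d x)‖`, `A γ = ‖∑ x, χ γ (nu d x)^2‖ = B (dbl γ)` (`χ_dbl`). By `young` with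
`c = 4 d^2`: `≤ ∑ γ, ((A γ)^(2t) + (B γ)^(2t))/(4d^2) + card Γ * (4d^2)^(2t-1)`,
`∑ γ, (B γ)^(2t) = card Γ * J` (`energy`, `sum_pi`, `box t X`, or on `Q`), and the same for `A` by the
bijection `dbl`. Hence `n i j ≤ J/(2d^2) + (4d^2)^(2t-1)`, and
`J ≤ NS + d^2 (J/(2d^2) + (4d^2)^(2t-1)) = NS + J/2 + d^2 (4d^2)^(2t-1)`.
(For `d = 1` there is no pair `i < j`, the same computation works.)
-/

set_option autoImplicit false

namespace Pool.Agent.Work.Vino

open Finset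

private theorem degenB_cnt {d R : ℕ} (C : CharSys d R) (s X : ℕ) (hd : 1 ≤ d) (i j : Fin d)
    (hij : i ≠ j)
    (hR : ∀ q ∈ box d X ×ˢ box s X, ∀ q' ∈ box d X ×ˢ box s X, ∀ r,
      |(mom d q.1 + mom d q.2) r - (mom d q'.1 + mom d q'.2) r| ≤ (R : ℤ)) :
    2 * (d : ℝ) ^ 2 * (((((box d X).filter (fun x => x i = x j)) ×ˢ box s X) ×ˢ
      (box d X ×ˢ box s X)).filter (fun q => mom d q.1.1 + mom d q.1.2 =
        mom d q.2.1 + mom d q.2.2)).card ≤
      J (d + s) d X + 2 * (d : ℝ) ^ 2 * (4 * (d : ℝ) ^ 2) ^ (2 * (d + s) - 1) := by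
  classical
  set φ : (Fin d → ℤ) × (Fin s → ℤ) → Fin d → ℤ := fun q => mom d q.1 + mom d q.2 with hφ
  set D : Finset ((Fin d → ℤ) × (Fin s → ℤ)) :=
    ((box d X).filter (fun x => x i = x j)) ×ˢ box s X with hD
  set Q : Finset ((Fin d → ℤ) × (Fin s → ℤ)) := box d X ×ˢ box s X with hQ
  set B : C.Γ → ℝ := fun γ => ‖∑ x ∈ Ico (0 : ℤ) X, C.χ γ (nu d x)‖ with hB
  have hd2 : 2 ≤ d := by
    by_contra h
    apply hij
    apply Fin.ext
    omega
  have hDQ : D ⊆ Q := by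
    intro q hq
    rw [hD, mem_product, mem_filter] at hq
    rw [hQ, mem_product]
    exact ⟨hq.1.1, hq.2⟩
  have h1 := C.count_le D Q φ φ fun a ha b hb => hR a (hDQ ha) b hb
  have hA : ∀ γ, ‖∑ x ∈ Ico (0 : ℤ) X, C.χ γ (nu d x) ^ 2‖ = B (C.dbl γ) := by
    intro γ
    simp only [hB]
    congr 1
    apply sum_congr rfl
    intro x _
    rw [C.χ_dbl]
  have hsumD : ∀ γ, ‖∑ a ∈ D, C.χ γ (φ a)‖ = B (C.dbl γ) * B γ ^ (d - 2 + s) := by
    intro γ
    have := degen_sum C s X i j hij γ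
    rw [← hA, ← norm_pow, ← norm_mul]
    exact congrArg _ this
  have hsumQ : ∀ γ, ‖∑ a ∈ Q, C.χ γ (φ a)‖ = B γ ^ (d + s) := by
    intro γ
    have h2 : ∑ a ∈ Q, C.χ γ (φ a) = (∑ x ∈ box d X, C.χ γ (mom d x)) *
        ∑ u ∈ box s X, C.χ γ (mom d u) := by
      rw [sum_mul_sum, hQ, sum_product]
      apply sum_congr rfl
      intro x _
      apply sum_congr rfl
      intro u _
      exact C.χ_add _ _ _
    have h3 : ∑ u ∈ box s X, C.χ γ (mom d u) = (∑ x ∈ Ico (0 : ℤ) X, C.χ γ (nu d x)) ^ s :=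
      C.sum_pi γ s _
    have h4 : ∑ u ∈ box d X, C.χ γ (mom d u) = (∑ x ∈ Ico (0 : ℤ) X, C.χ γ (nu d x)) ^ d :=
      C.sum_pi γ d _
    rw [h2, h3, h4, ← pow_add, norm_pow]
  have hen : ∑ γ, B γ ^ (2 * (d + s)) = (Fintype.card C.Γ : ℝ) * J (d + s) d X := by
    have h2 := C.energy Q φ hR
    rw [J_add, ← h2]
    apply sum_congr rfl
    intro γ _
    rw [hsumQ, ← pow_mul, mul_comm (d + s) 2]
  have hen2 : ∑ γ, B (C.dbl γ) ^ (2 * (d + s)) = (Fintype.card C.Γ : ℝ) * J (d + s) d X := by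
    rw [← hen]
    exact C.dbl_bij.sum_comp (fun γ => B γ ^ (2 * (d + s)))
  have hB0 : ∀ γ, 0 ≤ B γ := fun γ => norm_nonneg _
  have hd0 : (0 : ℝ) < (d : ℝ) := by exact_mod_cast (show 0 < d by omega)
  have h5 : (Fintype.card C.Γ : ℝ) * ((D ×ˢ Q).filter (fun q => φ q.1 = φ q.2)).card ≤
      ∑ γ, ((B (C.dbl γ) ^ (2 * (d + s)) + B γ ^ (2 * (d + s))) / (4 * (d : ℝ) ^ 2) +
        (4 * (d : ℝ) ^ 2) ^ (2 * (d + s) - 1)) := by
    refine h1.trans ?_
    apply sum_le_sum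
    intro γ _
    rw [hsumD, hsumQ, mul_assoc, ← pow_add]
    have h6 : d - 2 + s + (d + s) = 2 * (d + s) - 2 := by omega
    rw [h6]
    exact young (d + s) (by omega) _ _ _ (hB0 _) (hB0 _) (by positivity)
  rw [sum_add_distrib, ← sum_div, sum_add_distrib, hen, hen2, sum_const, card_univ,
    nsmul_eq_mul] at h5
  have hΓ : (0 : ℝ) < Fintype.card C.Γ := by
    exact_mod_cast Fintype.card_pos
  have h6 : (((D ×ˢ Q).filter (fun q => φ q.1 = φ q.2)).card : ℝ) ≤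
      (J (d + s) d X : ℝ) / (2 * (d : ℝ) ^ 2) + (4 * (d : ℝ) ^ 2) ^ (2 * (d + s) - 1) := by
    apply le_of_mul_le_mul_left _ hΓ
    refine h5.trans (le_of_eq ?_)
    field_simp
    ring
  have h7 := mul_le_mul_of_nonneg_left h6 (show (0 : ℝ) ≤ 2 * (d : ℝ) ^ 2 by positivity)
  refine h7.trans (le_of_eq ?_)
  field_simp

theorem degen (d s X : ℕ) (hd : 1 ≤ d) :
    J (d + s) d X ≤ 2 * NS (injs d X) s X + 2 * d ^ 2 * (4 * d ^ 2) ^ (2 * (d + s) - 1) := by
  classical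
  set φ : (Fin d → ℤ) × (Fin s → ℤ) → Fin d → ℤ := fun q => mom d q.1 + mom d q.2 with hφ
  set Q : Finset ((Fin d → ℤ) × (Fin s → ℤ)) := box d X ×ˢ box s X with hQ
  obtain ⟨R, hR⟩ := exists_bound Q Q φ φ
  obtain ⟨C⟩ := exists_charSys d R
  set P : Finset (Fin d × Fin d) := univ.filter (fun p => p.1 < p.2) with hP
  set n : Fin d × Fin d → ℕ := fun p => (((((box d X).filter (fun x => x p.1 = x p.2)) ×ˢ
      box s X) ×ˢ Q).filter (fun q => φ q.1 = φ q.2)).card with hn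
  -- the covering
  have hcov : J (d + s) d X ≤ NS (injs d X) s X + 2 * ∑ p ∈ P, n p := by
    have hJ : J (d + s) d X = en Q φ := J_add d s d X
    rw [hJ]
    unfold NS en
    set E := (Q ×ˢ Q).filter (fun q => φ q.1 = φ q.2) with hE
    set M := ((injs d X ×ˢ box s X) ×ˢ (injs d X ×ˢ box s X)).filter
      (fun q => φ q.1 = φ q.2) with hM
    set W : Fin d × Fin d → Finset (((Fin d → ℤ) × (Fin s → ℤ)) × ((Fin d → ℤ) × (Fin s → ℤ))) :=
      fun p => ((((box d X).filter (fun x => x p.1 = x p.2)) ×ˢ box s X) ×ˢ Q).filter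
        (fun q => φ q.1 = φ q.2) with hW
    have hsub : E ⊆ M ∪ (P.biUnion W ∪ P.biUnion (fun p => (W p).image Prod.swap)) := by
      intro q hq
      rw [hE, mem_filter, mem_product] at hq
      obtain ⟨⟨hq1, hq2⟩, hq3⟩ := hq
      have hq1' := hq1
      have hq2' := hq2
      rw [hQ, mem_product] at hq1' hq2'
      -- pairs
      have hpair : ∀ x : Fin d → ℤ, x ∈ box d X → x ∉ injs d X →
          ∃ p ∈ P, x p.1 = x p.2 := by
        intro x hx hx'
        rw [mem_injs] at hx'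
        push Not at hx'
        obtain ⟨i, j, hij, hxx⟩ := hx' hx
        rcases lt_or_gt_of_ne hij with h | h
        · exact ⟨(i, j), by rw [hP, mem_filter]; exact ⟨mem_univ _, h⟩, hxx⟩
        · exact ⟨(j, i), by rw [hP, mem_filter]; exact ⟨mem_univ _, h⟩, hxx.symm⟩
      by_cases h1 : q.1.1 ∈ injs d X
      · by_cases h2 : q.2.1 ∈ injs d X
        · apply mem_union_left
          rw [hM, mem_filter, mem_product, mem_product, mem_product]
          exact ⟨⟨⟨h1, hq1'.2⟩, ⟨h2, hq2'.2⟩⟩, hq3⟩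
        · apply mem_union_right
          apply mem_union_right
          obtain ⟨p, hp, hpp⟩ := hpair _ hq2'.1 h2
          rw [mem_biUnion]
          refine ⟨p, hp, ?_⟩
          rw [mem_image]
          refine ⟨(q.2, q.1), ?_, rfl⟩
          rw [hW]
          simp only [mem_filter, mem_product]
          exact ⟨⟨⟨⟨hq2'.1, hpp⟩, hq2'.2⟩, hq1⟩, hq3.symm⟩
      · apply mem_union_right
        apply mem_union_left
        obtain ⟨p, hp, hpp⟩ := hpair _ hq1'.1 h1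
        rw [mem_biUnion]
        refine ⟨p, hp, ?_⟩
        rw [hW]
        simp only [mem_filter, mem_product]
        exact ⟨⟨⟨⟨hq1'.1, hpp⟩, hq1'.2⟩, hq2⟩, hq3⟩
    calc E.card ≤ (M ∪ (P.biUnion W ∪ P.biUnion (fun p => (W p).image Prod.swap))).card :=
          card_le_card hsub
      _ ≤ M.card + ((P.biUnion W).card + (P.biUnion (fun p => (W p).image Prod.swap)).card) :=
          (card_union_le _ _).trans (Nat.add_le_add_left (card_union_le _ _) _)
      _ ≤ M.card + (∑ p ∈ P, (W p).card + ∑ p ∈ P, (W p).card) := by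
          gcongr
          · exact card_biUnion_le
          · refine card_biUnion_le.trans (sum_le_sum fun p _ => card_image_le)
      _ = M.card + 2 * ∑ p ∈ P, n p := by
          rw [two_mul]
  -- the number of pairs
  have hPcard : 2 * P.card ≤ d ^ 2 := by
    have h1 : P.card = (P.image Prod.swap).card :=
      (card_image_of_injective _ Prod.swap_injective).symm
    have h2 : Disjoint P (P.image Prod.swap) := by
      rw [disjoint_left]
      intro p hp hp'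
      rw [mem_image] at hp'
      obtain ⟨p', hp', rfl⟩ := hp'
      rw [hP, mem_filter] at hp hp'
      exact absurd hp.2 (not_lt_of_gt hp'.2)
    have h3 : (P ∪ P.image Prod.swap).card ≤ (univ : Finset (Fin d × Fin d)).card :=
      card_le_card (subset_univ _)
    rw [card_union_of_disjoint h2, ← h1, card_univ, Fintype.card_prod, Fintype.card_fin] at h3
    nlinarith
  -- reals
  have hd0 : (0 : ℝ) < (d : ℝ) := by exact_mod_cast (show 0 < d by omega)
  have hn' : ∀ p ∈ P, 2 * (d : ℝ) ^ 2 * n p ≤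
      J (d + s) d X + 2 * (d : ℝ) ^ 2 * (4 * (d : ℝ) ^ 2) ^ (2 * (d + s) - 1) := by
    intro p hp
    rw [hP, mem_filter] at hp
    exact degenB_cnt C s X hd p.1 p.2 hp.2.ne hR
  set Kc : ℝ := (4 * (d : ℝ) ^ 2) ^ (2 * (d + s) - 1) with hKc
  have hKc0 : 0 ≤ Kc := by positivity
  have hJ0 : (0 : ℝ) ≤ J (d + s) d X := Nat.cast_nonneg _
  have h1 : 2 * (d : ℝ) ^ 2 * ∑ p ∈ P, (n p : ℝ) ≤
      P.card * (J (d + s) d X + 2 * (d : ℝ) ^ 2 * Kc) := by
    rw [mul_sum]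
    calc ∑ p ∈ P, 2 * (d : ℝ) ^ 2 * (n p : ℝ) ≤
        ∑ p ∈ P, (J (d + s) d X + 2 * (d : ℝ) ^ 2 * Kc) := sum_le_sum hn'
      _ = _ := by rw [sum_const, nsmul_eq_mul]
  have h2 : (2 * P.card : ℝ) ≤ (d : ℝ) ^ 2 := by exact_mod_cast hPcard
  have h3 : 2 * (d : ℝ) ^ 2 * (2 * ∑ p ∈ P, (n p : ℝ)) ≤
      (d : ℝ) ^ 2 * (J (d + s) d X + 2 * (d : ℝ) ^ 2 * Kc) := by
    have h4 : (2 * P.card : ℝ) * (J (d + s) d X + 2 * (d : ℝ) ^ 2 * Kc) ≤
        (d : ℝ) ^ 2 * (J (d + s) d X + 2 * (d : ℝ) ^ 2 * Kc) :=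
      mul_le_mul_of_nonneg_right h2 (by positivity)
    linarith
  have h5 : 2 * (2 * ∑ p ∈ P, (n p : ℝ)) ≤ J (d + s) d X + 2 * (d : ℝ) ^ 2 * Kc := by
    have hd2 : (0 : ℝ) < (d : ℝ) ^ 2 := by positivity
    apply le_of_mul_le_mul_left _ hd2
    linarith
  have h6 : (J (d + s) d X : ℝ) ≤ NS (injs d X) s X + 2 * ∑ p ∈ P, (n p : ℝ) := by
    exact_mod_cast hcov
  have h7 : (J (d + s) d X : ℝ) ≤ 2 * NS (injs d X) s X + 2 * (d : ℝ) ^ 2 * Kc := by
    linarith
  rw [hKc] at h7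
  exact_mod_cast h7

end Pool.Agent.Work.Vino
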