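import Mathlib

/-!
MODULE NEWTON. Equal power sums of exponents `1..d` of two families of `d` elements of a commutative
ring in which `1, ..., d` are units: the polynomials with these roots are equal.

Newton's identities, Mathlib `MvPolynomial.mul_esymm_eq_sum`, evaluated at `x` and at `y`: by strong
induction on `k ≤ d` the values of `esymm k` agree; then `∏ (X - C (x i)) = ∑_k (-1)^k e_k(x) X^(d-k)`.
-/

set_option autoImplicit false

namespace Pool.Agent.Work.Vino

open Finset Polynomial

/-- the elementary symmetric functions agree -/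
private theorem newton_esymm {R : Type*} [CommRing R] (d : ℕ) (x y : Fin d → R)
    (hinv : ∀ k : ℕ, 1 ≤ k → k ≤ d → IsUnit (k : R))
    (h : ∀ k : ℕ, 1 ≤ k → k ≤ d → ∑ i, x i ^ k = ∑ i, y i ^ k) (k : ℕ) (hk : k ≤ d) :
    MvPolynomial.aeval x (MvPolynomial.esymm (Fin d) R k)
      = MvPolynomial.aeval y (MvPolynomial.esymm (Fin d) R k) := by
  induction k using Nat.strong_induction_on with
  | _ k ih =>
    rcases Nat.eq_zero_or_pos k with h0 | h0
    · subst h0
      simp
    · have key : ∀ z : Fin d → R, (k : R) * MvPolynomial.aeval z (MvPolynomial.esymm (Fin d) R k)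
          = (-1) ^ (k + 1) * ∑ a ∈ (antidiagonal k).filter (fun a => a.1 < k),
            (-1) ^ a.1 * MvPolynomial.aeval z (MvPolynomial.esymm (Fin d) R a.1)
              * ∑ i, z i ^ a.2 := by
        intro z
        have h1 := congrArg (MvPolynomial.aeval z) (MvPolynomial.mul_esymm_eq_sum (Fin d) R k)
        simp only [map_mul, map_natCast, map_sum, map_pow, map_neg, map_one] at h1
        rw [h1]
        congr 1
        apply Finset.sum_congr rfl
        intro a _
        congr 1
        simp [MvPolynomial.psum]
      have h2 : (k : R) * MvPolynomial.aeval x (MvPolynomial.esymm (Fin d) R k)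
          = (k : R) * MvPolynomial.aeval y (MvPolynomial.esymm (Fin d) R k) := by
        rw [key x, key y]
        congr 1
        apply Finset.sum_congr rfl
        intro a ha
        rw [mem_filter, HasAntidiagonal.mem_antidiagonal] at ha
        rw [ih a.1 ha.2 (by omega), h a.2 (by omega) (by omega)]
      exact (hinv k h0 hk).mul_left_cancel h2

theorem newton {R : Type*} [CommRing R] (d : ℕ) (x y : Fin d → R)
    (hinv : ∀ k : ℕ, 1 ≤ k → k ≤ d → IsUnit (k : R))
    (h : ∀ k : ℕ, 1 ≤ k → k ≤ d → ∑ i, x i ^ k = ∑ i, y i ^ k) :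
    ∏ i, (X - C (x i)) = ∏ i, (X - C (y i)) := by
  have key : ∀ z : Fin d → R, ∏ i, (X - C (z i)) = ∑ j ∈ range (d + 1),
      (-1) ^ j * (C (MvPolynomial.aeval z (MvPolynomial.esymm (Fin d) R j)) * X ^ (d - j)) := by
    intro z
    have h1 := Multiset.prod_X_sub_X_eq_sum_esymm ((univ : Finset (Fin d)).val.map z)
    rw [Multiset.map_map] at h1
    have h2 : Multiset.card ((univ : Finset (Fin d)).val.map z) = d := by
      simp
    rw [h2] at h1
    have h3 : ∏ i, (X - C (z i)) =
        (Multiset.map ((fun t => X - C t) ∘ z) (univ : Finset (Fin d)).val).prod := rfl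
    rw [h3, h1]
    apply Finset.sum_congr rfl
    intro j _
    rw [MvPolynomial.aeval_esymm_eq_multiset_esymm]
  rw [key x, key y]
  apply Finset.sum_congr rfl
  intro j hj
  rw [mem_range] at hj
  rw [newton_esymm d x y hinv h j (by omega)]

end Pool.Agent.Work.Vino
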