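import Pool.Agent.Work.Vino.Defs
import Pool.Agent.Work.Vino.Newton

/-!
MODULE DIAG. The Vinogradov system in `d` variables has only the diagonal solutions.

PROOF. If `mom d x = mom d y` (`x, y : Fin d → ℤ`) then by `newton` in `ℚ`
`∏ (X - C (x i : ℚ)) = ∏ (X - C (y i : ℚ))`, so the multisets of roots
(`Polynomial.roots_multiset_prod_X_sub_C`/`roots_prod_X_sub_C`) `univ.val.map x` and `univ.val.map y`
are equal, so `y = x ∘ σ` for a permutation `σ` (e.g. `Multiset.map_univ_eq_iff`, or `List.Perm` of
`List.ofFn`: `Equiv.Perm.ofFn_comp_perm`, or `Multiset.toFinset` counts / `Fintype` fibres of equal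
cardinality). Hence the pairs inject into ... : the set of pairs is contained in the image of
`(x, σ) ↦ (x, x ∘ σ)` on `box d X ×ˢ univ`, of cardinality at most `X^d * d!`.
-/

set_option autoImplicit false

namespace Pool.Agent.Work.Vino

open Finset

private theorem perm_of_map {d : ℕ} {f g : Fin d → ℤ}
    (h : Finset.univ.val.map f = Finset.univ.val.map g) :
    ∃ σ : Equiv.Perm (Fin d), f = g ∘ σ := by
  classical
  have hc : ∀ (k : Fin d → ℤ) (c : ℤ), Fintype.card {a // k a = c} =
      Multiset.count c (Finset.univ.val.map k) := by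
    intro k c
    rw [Fintype.card_subtype, Multiset.count_map]
    have h1 : Finset.univ.filter (fun a => k a = c) = Finset.univ.filter (fun a => c = k a) := by
      ext a
      simp [eq_comm]
    rw [h1]
    rfl
  have e : ∀ c : ℤ, Nonempty ({a // f a = c} ≃ {b // g b = c}) := fun c =>
    ⟨Fintype.equivOfCardEq (by rw [hc f c, hc g c, h])⟩
  refine ⟨Equiv.ofFiberEquiv fun c => (e c).some, ?_⟩
  funext i
  exact (Equiv.ofFiberEquiv_map (fun c => (e c).some) i).symm

private theorem perm_of_mom {d : ℕ} {x y : Fin d → ℤ} (h : mom d x = mom d y) :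
    ∃ σ : Equiv.Perm (Fin d), y = x ∘ σ := by
  have h1 := newton (R := ℚ) d (fun i => (x i : ℚ)) (fun i => (y i : ℚ))
    (by
      intro k hk _
      exact isUnit_iff_ne_zero.2 (by exact_mod_cast (by omega : k ≠ 0)))
    (by
      intro k hk hkd
      have h2 := congrFun h ⟨k - 1, by omega⟩
      simp only [mom] at h2
      rw [show k - 1 + 1 = k by omega] at h2
      exact_mod_cast h2)
  have h3 : ∀ z : Fin d → ℤ, ∏ i, (Polynomial.X - Polynomial.C ((z i : ℚ))) =
      (((Finset.univ.val.map fun i => (z i : ℚ))).map
        fun a => Polynomial.X - Polynomial.C a).prod := by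
    intro z
    rw [Multiset.map_map]
    rfl
  rw [h3 x, h3 y] at h1
  have h4 := congrArg Polynomial.roots h1
  rw [Polynomial.roots_multiset_prod_X_sub_C, Polynomial.roots_multiset_prod_X_sub_C] at h4
  have h5 : Finset.univ.val.map y = Finset.univ.val.map x := by
    have e : ∀ z : Fin d → ℤ, (Finset.univ.val.map fun i => (z i : ℚ)) =
        (Finset.univ.val.map z).map (fun n : ℤ => (n : ℚ)) := by
      intro z
      rw [Multiset.map_map]
      rfl
    rw [e x, e y] at h4
    exact (Multiset.map_injective (fun a b hab => by exact_mod_cast hab) h4).symm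
  exact perm_of_map h5

theorem diag (d X : ℕ) : J d d X ≤ d.factorial * X ^ d := by
  classical
  unfold J en
  have hsub : ((box d X ×ˢ box d X).filter (fun q => mom d q.1 = mom d q.2)) ⊆
      ((Finset.univ : Finset (Equiv.Perm (Fin d))) ×ˢ box d X).image
        (fun p => (p.2, p.2 ∘ p.1)) := by
    intro q hq
    rw [Finset.mem_filter, Finset.mem_product] at hq
    obtain ⟨σ, hσ⟩ := perm_of_mom hq.2
    rw [Finset.mem_image]
    refine ⟨(σ, q.1), ?_, ?_⟩
    · rw [Finset.mem_product]
      exact ⟨Finset.mem_univ _, hq.1.1⟩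
    · exact Prod.ext rfl hσ.symm
  refine (Finset.card_le_card hsub).trans (Finset.card_image_le.trans ?_)
  rw [Finset.card_product, Finset.card_univ, Fintype.card_perm, Fintype.card_fin, card_box]

end Pool.Agent.Work.Vino
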