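import Pool.Agent.Work.Vino.LinA

/-!
MODULE LINB. Linnik's lemma.

PROOF. `N := p^d`, `NeZero N`. Map `x` of the set to `σ(x) := fun r => ((mom d (x - a) r : ℤ) : ZMod N)`.
The values lie in `Ω := Fintype.piFinset (fun r => Ω_r)`, `Ω_r := {z : ZMod N | (p^(r+1) : ℤ) ∣ z.val - h r}`
(since `z.val ≡ mom .. r` mod `p^d` and `r + 1 ≤ d`), and `card Ω_r ≤ p^(d - (r+1))`: the elements of
`[0, p^d)` in one residue class modulo `p^(r+1)`. So `card Ω ≤ ∏ r : Fin d, p^(d-(r+1))
= p^(d (d-1)/2)`. By `linA` every fibre has at most `d!` elements.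
-/

set_option autoImplicit false

namespace Pool.Agent.Work.Vino

open Finset

private theorem card_omega (d p : ℕ) [NeZero (p ^ d)] (r : ℕ) (hr : r < d)
    (h : ℤ) : ((univ : Finset (ZMod (p ^ d))).filter
      (fun z => ((p : ℤ) ^ (r + 1)) ∣ (z.val : ℤ) - h)).card ≤ p ^ (d - (r + 1)) := by
  rw [← Finset.card_range (p ^ (d - (r + 1)))]
  apply Finset.card_le_card_of_injOn (fun z => z.val / p ^ (r + 1))
  · intro z _
    simp only [coe_range, Set.mem_Iio]
    apply Nat.div_lt_of_lt_mul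
    have h1 := ZMod.val_lt z
    have h2 : p ^ d = p ^ (r + 1) * p ^ (d - (r + 1)) := by
      rw [← pow_add]; congr 1; omega
    rw [← h2]
    exact h1
  · intro z hz z' hz' hzz
    simp only [coe_filter, mem_univ, true_and, Set.mem_ofPred_eq] at hz hz'
    apply ZMod.val_injective
    have h1 : ((p ^ (r + 1) : ℕ) : ℤ) ∣ (z.val : ℤ) - z'.val := by
      have := dvd_sub hz hz'
      rw [Nat.cast_pow]
      rw [sub_sub_sub_cancel_right] at this
      exact this
    have h2 : z'.val ≡ z.val [MOD p ^ (r + 1)] := (Nat.modEq_iff_dvd).mpr h1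
    have h3 : z'.val % p ^ (r + 1) = z.val % p ^ (r + 1) := h2
    have h4 := Nat.div_add_mod z.val (p ^ (r + 1))
    have h5 := Nat.div_add_mod z'.val (p ^ (r + 1))
    simp only at hzz
    rw [← hzz, h3] at h5
    rw [← h4, ← h5]

private theorem prod_omega (d p : ℕ) :
    ∏ r : Fin d, p ^ (d - (r.val + 1)) = p ^ (d * (d - 1) / 2) := by
  rw [Fin.prod_univ_eq_prod_range (fun r => p ^ (d - (r + 1))) d, Finset.prod_pow_eq_pow_sum]
  congr 1
  rw [← Finset.sum_range_id]
  have := Finset.sum_range_reflect (fun i => i) d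
  rw [← this]
  apply Finset.sum_congr rfl
  intro i _
  omega

theorem linnik (d p X : ℕ) (hp : p.Prime) (hdp : d < p) (hX : X ≤ p ^ d) (a : ℤ)
    (h : Fin d → ℤ) :
    ((injp d X p).filter (fun x => ∀ r : Fin d,
      ((p : ℤ) ^ (r.val + 1)) ∣ mom d (fun i => x i - a) r - h r)).card
      ≤ d.factorial * p ^ (d * (d - 1) / 2) := by
  classical
  have : NeZero (p ^ d) := ⟨pow_ne_zero _ hp.ne_zero⟩
  set S := (injp d X p).filter (fun x => ∀ r : Fin d,
      ((p : ℤ) ^ (r.val + 1)) ∣ mom d (fun i => x i - a) r - h r) with hS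
  let σ : (Fin d → ℤ) → (Fin d → ZMod (p ^ d)) :=
    fun x r => ((mom d (fun i => x i - a) r : ℤ) : ZMod (p ^ d))
  let Ω : Finset (Fin d → ZMod (p ^ d)) := Fintype.piFinset (fun r : Fin d =>
    (univ : Finset (ZMod (p ^ d))).filter
      (fun z => ((p : ℤ) ^ (r.val + 1)) ∣ (z.val : ℤ) - h r))
  have hmap : ∀ x ∈ S, σ x ∈ Ω := by
    intro x hx
    rw [hS, mem_filter] at hx
    simp only [Ω, Fintype.mem_piFinset, mem_filter, mem_univ, true_and, σ]
    intro r
    rw [ZMod.val_intCast]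
    have h1 := hx.2 r
    have h2 : ((p : ℤ) ^ (r.val + 1)) ∣ ((p ^ d : ℕ) : ℤ) := by
      push_cast
      exact pow_dvd_pow _ r.2
    have h3 : mom d (fun i => x i - a) r % ((p ^ d : ℕ) : ℤ) - h r =
        (mom d (fun i => x i - a) r - h r) -
          ((p ^ d : ℕ) : ℤ) * (mom d (fun i => x i - a) r / ((p ^ d : ℕ) : ℤ)) := by
      rw [Int.emod_def]; ring
    rw [h3]
    exact dvd_sub h1 (Dvd.dvd.mul_right h2 _)
  have hfib : ∀ b ∈ Ω, (S.filter (fun x => σ x = b)).card ≤ d.factorial := by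
    intro b _
    refine le_trans (Finset.card_le_card ?_) (linA d p X hp hdp hX a b)
    intro x hx
    rw [mem_filter, hS, mem_filter] at hx
    rw [mem_filter]
    exact ⟨hx.1.1, fun r => congrFun hx.2 r⟩
  have h1 := Finset.card_le_mul_card_image_of_maps_to hmap d.factorial hfib
  refine h1.trans (Nat.mul_le_mul_left _ ?_)
  simp only [Ω]
  rw [Fintype.card_piFinset, ← prod_omega d p]
  exact Finset.prod_le_prod' (fun r _ => card_omega d p r.val r.2 (h r))

end Pool.Agent.Work.Vino
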