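import Pool.Agent.Work.Vino.Hold
import Pool.Agent.Work.Vino.Cls
import Pool.Agent.Work.Vino.LinB

/-!
MODULE GOOD. The solutions whose leading variables are distinct modulo `p`.

PROOF. `hold` with `K := injp d X p`, `g := mom d`:
`NS ≤ p^(2s-1) ∑_{a<p} E_a`, `E_a := en (injp d X p ×ˢ cls s X p a) (fun q => mom d q.1 + mom d q.2)`.
Claim: `E_a ≤ X^d * (d! p^(d(d-1)/2)) * J s d (X/p+1)`; then
`NS ≤ p^(2s-1) * p * (...)`, `p^(2s-1) * p = p^(2s)` (`s ≥ 1`).
Claim: a pair counted by `E_a` is `((x,u),(y,v))`, `mom x + mom u = mom y + mom v`. Subtract `a`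
everywhere: `mom_affine2` (Defs) with `(-a, 1)`: `mom (x-a) + mom (u-a) = mom (y-a) + mom (v-a)`; as
`p ∣ u i - a` and `p ∣ v i - a`, `p^(r+1)` divides the coordinate `r` of `mom (u-a)` and of `mom (v-a)`,
so `p^(r+1) ∣ mom (x-a) r - mom (y-a) r`. For given `y ∈ injp d X p ⊆ box d X` (at most `X^d` choices,
`card_box`) there are by `linnik` (`h := mom d (y - a)`) at most `d! p^(d(d-1)/2)` such `x`; for given
`x, y` the number of `(u, v)` is at most `J s d (X/p+1)` by `cls_count` (`h := mom d y - mom d x`).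
-/

set_option autoImplicit false

namespace Pool.Agent.Work.Vino

open Finset

private theorem good_dvd {d s p X a : ℕ} {x y : Fin d → ℤ} {u v : Fin s → ℤ}
    (hu : u ∈ cls s X p a) (hv : v ∈ cls s X p a)
    (h : mom d x + mom d u = mom d y + mom d v) (r : Fin d) :
    ((p : ℤ) ^ (r.val + 1)) ∣ mom d (fun i => x i - (a : ℤ)) r - mom d (fun i => y i - (a : ℤ)) r := by
  have h1 := congrFun (mom_affine2 h (-(a : ℤ)) 1) r
  have hd : ∀ w : Fin s → ℤ, w ∈ cls s X p a →
      ((p : ℤ) ^ (r.val + 1)) ∣ mom d (fun i => -(a : ℤ) + 1 * w i) r := by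
    intro w hw
    rw [mem_cls] at hw
    rw [mom_apply]
    apply Finset.dvd_sum
    intro i _
    apply pow_dvd_pow_of_dvd
    have h2 := (hw i).2
    have h3 : (p : ℤ) ∣ w i - w i % (p : ℤ) := Int.dvd_self_sub_emod
    rw [h2] at h3
    have e : -(a : ℤ) + 1 * w i = w i - a := by ring
    change (p : ℤ) ∣ -(a : ℤ) + 1 * w i
    rw [e]
    exact h3
  have hdu := hd u hu
  have hdv := hd v hv
  have e : ∀ z : Fin d → ℤ, mom d (fun i => -(a : ℤ) + 1 * z i) r =
      mom d (fun i => z i - (a : ℤ)) r := by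
    intro z
    have : (fun i => -(a : ℤ) + 1 * z i) = (fun i => z i - (a : ℤ)) := by
      funext i
      ring
    rw [this]
  simp only [Pi.add_apply] at h1
  rw [e, e] at h1
  have h4 : mom d (fun i => x i - (a : ℤ)) r - mom d (fun i => y i - (a : ℤ)) r =
      mom d (fun i => -(a : ℤ) + 1 * v i) r - mom d (fun i => -(a : ℤ) + 1 * u i) r := by
    linarith
  rw [h4]
  exact dvd_sub hdv hdu

private theorem good_fibre (d s p X a : ℕ) (hp : p.Prime) (hdp : d < p) (hX : X ≤ p ^ d) :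
    en (injp d X p ×ˢ cls s X p a) (fun q => mom d q.1 + mom d q.2)
      ≤ (d.factorial * p ^ (d * (d - 1) / 2) * X ^ d) * J s d (X / p + 1) := by
  classical
  unfold en
  set P := ((injp d X p ×ˢ cls s X p a) ×ˢ (injp d X p ×ˢ cls s X p a)).filter
    (fun q => mom d q.1.1 + mom d q.1.2 = mom d q.2.1 + mom d q.2.2) with hP
  -- the pairs `(y, x)`
  let Q : Finset (Σ _ : (Fin d → ℤ), (Fin d → ℤ)) := (injp d X p).sigma (fun y =>
    (injp d X p).filter (fun x => ∀ r : Fin d,
      ((p : ℤ) ^ (r.val + 1)) ∣ mom d (fun i => x i - (a : ℤ)) r -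
        mom d (fun i => y i - (a : ℤ)) r))
  have hQ : Q.card ≤ d.factorial * p ^ (d * (d - 1) / 2) * X ^ d := by
    simp only [Q]
    rw [Finset.card_sigma]
    calc ∑ y ∈ injp d X p, ((injp d X p).filter (fun x => ∀ r : Fin d,
          ((p : ℤ) ^ (r.val + 1)) ∣ mom d (fun i => x i - (a : ℤ)) r -
            mom d (fun i => y i - (a : ℤ)) r)).card
        ≤ ∑ _y ∈ injp d X p, d.factorial * p ^ (d * (d - 1) / 2) := by
          apply Finset.sum_le_sum
          intro y _
          exact linnik d p X hp hdp hX a (mom d (fun i => y i - (a : ℤ)))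
      _ = (injp d X p).card * (d.factorial * p ^ (d * (d - 1) / 2)) := by
          rw [Finset.sum_const, smul_eq_mul]
      _ ≤ X ^ d * (d.factorial * p ^ (d * (d - 1) / 2)) := by
          apply Nat.mul_le_mul_right
          rw [← card_box]
          exact Finset.card_filter_le _ _
      _ = _ := by ring
  have hmap : ∀ q ∈ P, (⟨q.2.1, q.1.1⟩ : Σ _ : (Fin d → ℤ), (Fin d → ℤ)) ∈ Q := by
    intro q hq
    rw [hP, mem_filter, mem_product, mem_product, mem_product] at hq
    simp only [Q, mem_sigma, mem_filter]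
    exact ⟨hq.1.2.1, hq.1.1.1, fun r => good_dvd hq.1.1.2 hq.1.2.2 hq.2 r⟩
  have hfib : ∀ b ∈ Q, (P.filter (fun q =>
      (⟨q.2.1, q.1.1⟩ : Σ _ : (Fin d → ℤ), (Fin d → ℤ)) = b)).card ≤ J s d (X / p + 1) := by
    intro b _
    refine le_trans ?_ (cls_count d s X p a hp.one_le (mom d b.1 - mom d b.2))
    apply Finset.card_le_card_of_injOn (fun q => (q.1.2, q.2.2))
    · intro q hq
      simp only [coe_filter, mem_filter, hP, mem_product, Set.mem_ofPred_eq] at hq ⊢
      obtain ⟨⟨⟨⟨h1, h2⟩, h3, h4⟩, h5⟩, h6⟩ := hq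
      refine ⟨⟨h2, h4⟩, ?_⟩
      rw [← h6]
      simp only
      have : mom d q.1.2 = mom d q.2.1 + mom d q.2.2 - mom d q.1.1 := by
        rw [← h5]; abel
      rw [this]; abel
    · intro q hq q' hq' hqq
      simp only [coe_filter, Set.mem_ofPred_eq] at hq hq'
      have h6 := hq.2.trans hq'.2.symm
      simp only [Sigma.mk.injEq, heq_eq_eq] at h6
      simp only [Prod.mk.injEq] at hqq
      exact Prod.ext (Prod.ext h6.2 hqq.1) (Prod.ext h6.1 hqq.2)
  have h1 := Finset.card_le_mul_card_image_of_maps_to hmap (J s d (X / p + 1)) hfib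
  refine h1.trans ?_
  rw [mul_comm]
  exact Nat.mul_le_mul_right _ hQ

theorem good (d s p X : ℕ) (hs : 1 ≤ s) (hp : p.Prime) (hdp : d < p) (hX : X ≤ p ^ d) :
    NS (injp d X p) s X
      ≤ p ^ (2 * s) * (d.factorial * p ^ (d * (d - 1) / 2) * X ^ d) * J s d (X / p + 1) := by
  unfold NS
  have h1 := hold d s X p hs hp.one_le (injp d X p) (mom d)
  refine h1.trans ?_
  have h2 : ∑ a ∈ range p, en (injp d X p ×ˢ cls s X p a) (fun q => mom d q.1 + mom d q.2) ≤
      p * ((d.factorial * p ^ (d * (d - 1) / 2) * X ^ d) * J s d (X / p + 1)) := by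
    calc _ ≤ ∑ _a ∈ range p,
          ((d.factorial * p ^ (d * (d - 1) / 2) * X ^ d) * J s d (X / p + 1)) :=
          Finset.sum_le_sum (fun a _ => good_fibre d s p X a hp hdp hX)
      _ = _ := by rw [Finset.sum_const, card_range, smul_eq_mul]
  refine (Nat.mul_le_mul_left _ h2).trans (le_of_eq ?_)
  have h3 : p ^ (2 * s) = p ^ (2 * s - 1) * p := by
    rw [← pow_succ]; congr 1; omega
  rw [h3]
  ring

end Pool.Agent.Work.Vino
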