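import Pool.Agent.Work.Vino.CharA
import Pool.Agent.Work.Vino.CharB

/-!
MODULE HOLD. Hoelder's inequality: all variables `u_i, v_i` may be put in one residue class.

PROOF. Let `φ q := g q.1 + mom d q.2`, `S := K ×ˢ box s X`. Take `R` from `exists_bound S S φ φ`
and `C` from `exists_charSys d R`.  For `γ : C.Γ` put `G := ∑ k ∈ K, χ γ (g k)`,
`T := ∑ x ∈ Ico 0 X, χ γ (nu d x)`, `T_a := ∑ x ∈ (Ico 0 X).filter (x % p = a), χ γ (nu d x)`.
By `χ_add`, `Finset.sum_product`, `sum_pi`: `∑ q ∈ S, χ γ (φ q) = G * T^s` and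
`∑ q ∈ K ×ˢ cls s X p a, χ γ (φ q) = G * T_a^s`.  `T = ∑ a ∈ range p, T_a`
(`Finset.sum_fiberwise_of_maps_to`; `0 ≤ x % p < p`, cast). Hoelder (`inner_le_nnorm_mul_nnorm` is not
needed: `Real.inner_le_Lp_mul_Lq` or simplest `Finset.inner_mul_le_norm_mul_norm`; for powers use
`inner`-free convexity `inv_mul_le`.. : `(∑ a ∈ range p, x_a)^(2s) ≤ p^(2s-1) * ∑ x_a^(2s)`, which is
`inner_pow_le`/`Finset.pow_sum_le`..., Mathlib name `inner_le..`; look for
`Finset.pow_arith_mean_le_arith_mean_pow` or `pow_sum_le_card_pow_mul_sum_pow`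
(`(∑ i ∈ s, f i) ^ (n + 1) ≤ s.card ^ n * ∑ i ∈ s, f i ^ (n + 1)`, for nonnegative f):
`‖T‖^(2s) ≤ p^(2s-1) ∑_a ‖T_a‖^(2s)`.  Multiply by `‖G‖^2`, sum over `γ`, use `energy` on both sides
(the bound hypothesis for `K ×ˢ cls` follows since `cls s X p a ⊆ box s X`), divide by `card Γ > 0`,
cast to `ℕ`.
-/

set_option autoImplicit false

namespace Pool.Agent.Work.Vino

open Finset

private theorem hold_split {d R : ℕ} (C : CharSys d R) (γ : C.Γ) (X p : ℕ) (hp : 1 ≤ p) :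
    ∑ x ∈ Ico (0 : ℤ) X, C.χ γ (nu d x) =
      ∑ a ∈ range p, ∑ x ∈ (Ico (0 : ℤ) X).filter (fun x => x % (p : ℤ) = (a : ℤ)),
        C.χ γ (nu d x) := by
  simp only [sum_filter]
  rw [sum_comm]
  apply sum_congr rfl
  intro x _
  have hp' : (0 : ℤ) < p := by exact_mod_cast hp
  have h1 := Int.emod_nonneg x hp'.ne'
  have h2 := Int.emod_lt_of_pos x hp'
  rw [sum_eq_single (x % (p : ℤ)).toNat]
  · rw [if_pos]
    rw [Int.toNat_of_nonneg h1]
  · intro b _ hb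
    rw [if_neg]
    intro h
    apply hb
    rw [h]
    simp
  · intro h
    exfalso
    apply h
    rw [mem_range]
    omega

private theorem hold_prod {κ : Type*} {d R : ℕ} (C : CharSys d R) (γ : C.Γ) (s : ℕ) (K : Finset κ)
    (g : κ → Fin d → ℤ) (I : Finset ℤ) :
    ∑ q ∈ K ×ˢ Fintype.piFinset (fun _ : Fin s => I), C.χ γ (g q.1 + mom d q.2) =
      (∑ k ∈ K, C.χ γ (g k)) * (∑ x ∈ I, C.χ γ (nu d x)) ^ s := by
  rw [← C.sum_pi γ s I, sum_mul_sum, sum_product]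
  apply sum_congr rfl
  intro k _
  apply sum_congr rfl
  intro u _
  exact C.χ_add _ _ _

theorem hold {κ : Type*} (d s X p : ℕ) (hs : 1 ≤ s) (hp : 1 ≤ p) (K : Finset κ)
    (g : κ → Fin d → ℤ) :
    en (K ×ˢ box s X) (fun q => g q.1 + mom d q.2)
      ≤ p ^ (2 * s - 1) *
        ∑ a ∈ range p, en (K ×ˢ cls s X p a) (fun q => g q.1 + mom d q.2) := by
  classical
  set φ : κ × (Fin s → ℤ) → Fin d → ℤ := fun q => g q.1 + mom d q.2 with hφ
  obtain ⟨R, hR⟩ := exists_bound (K ×ˢ box s X) (K ×ˢ box s X) φ φ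
  obtain ⟨C⟩ := exists_charSys d R
  set G : C.Γ → ℝ := fun γ => ‖∑ k ∈ K, C.χ γ (g k)‖ with hG
  set T : C.Γ → ℝ := fun γ => ‖∑ x ∈ Ico (0 : ℤ) X, C.χ γ (nu d x)‖ with hT
  set Ta : C.Γ → ℕ → ℝ := fun γ a =>
    ‖∑ x ∈ (Ico (0 : ℤ) X).filter (fun x => x % (p : ℤ) = (a : ℤ)), C.χ γ (nu d x)‖ with hTa
  have e1 : ∑ γ, G γ ^ 2 * T γ ^ (2 * s) = (Fintype.card C.Γ : ℝ) * en (K ×ˢ box s X) φ := by
    rw [← C.energy (K ×ˢ box s X) φ hR]
    apply sum_congr rfl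
    intro γ _
    have h1 : ∑ q ∈ K ×ˢ box s X, C.χ γ (φ q) = _ := hold_prod C γ s K g (Ico (0 : ℤ) X)
    rw [h1, norm_mul, norm_pow, mul_pow, ← pow_mul, mul_comm s 2]
  have e2 : ∀ a ∈ range p, ∑ γ, G γ ^ 2 * Ta γ a ^ (2 * s) =
      (Fintype.card C.Γ : ℝ) * en (K ×ˢ cls s X p a) φ := by
    intro a _
    have hsub : K ×ˢ cls s X p a ⊆ K ×ˢ box s X := by
      apply product_subset_product_right
      intro u hu
      rw [mem_cls] at hu
      rw [mem_box]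
      exact fun i => (hu i).1
    rw [← C.energy (K ×ˢ cls s X p a) φ fun i hi j hj => hR i (hsub hi) j (hsub hj)]
    apply sum_congr rfl
    intro γ _
    have h1 : ∑ q ∈ K ×ˢ cls s X p a, C.χ γ (φ q) = _ :=
      hold_prod C γ s K g ((Ico (0 : ℤ) X).filter (fun x => x % (p : ℤ) = (a : ℤ)))
    rw [h1, norm_mul, norm_pow, mul_pow, ← pow_mul, mul_comm s 2]
  have e3 : ∀ γ, T γ ^ (2 * s) ≤ (p : ℝ) ^ (2 * s - 1) * ∑ a ∈ range p, Ta γ a ^ (2 * s) := by
    intro γ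
    have h1 : T γ ≤ ∑ a ∈ range p, Ta γ a := by
      simp only [hT, hTa]
      rw [hold_split C γ X p hp]
      exact norm_sum_le _ _
    have h2 : ∀ a ∈ range p, 0 ≤ Ta γ a := fun a _ => norm_nonneg _
    have h3 := pow_sum_le_card_mul_sum_pow h2 (2 * s - 1)
    have h4 : 2 * s - 1 + 1 = 2 * s := by omega
    rw [h4, card_range] at h3
    exact (pow_le_pow_left₀ (norm_nonneg _) h1 _).trans h3
  have hΓ : (0 : ℝ) < Fintype.card C.Γ := by
    exact_mod_cast Fintype.card_pos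
  have e4 : (Fintype.card C.Γ : ℝ) * en (K ×ˢ box s X) φ ≤
      (Fintype.card C.Γ : ℝ) * ((p : ℝ) ^ (2 * s - 1) *
        ∑ a ∈ range p, (en (K ×ˢ cls s X p a) φ : ℝ)) := by
    rw [← e1]
    calc ∑ γ, G γ ^ 2 * T γ ^ (2 * s)
        ≤ ∑ γ, G γ ^ 2 * ((p : ℝ) ^ (2 * s - 1) * ∑ a ∈ range p, Ta γ a ^ (2 * s)) := by
          apply sum_le_sum
          intro γ _
          exact mul_le_mul_of_nonneg_left (e3 γ) (by positivity)
      _ = (p : ℝ) ^ (2 * s - 1) * ∑ a ∈ range p, ∑ γ, G γ ^ 2 * Ta γ a ^ (2 * s) := by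
          rw [sum_comm, mul_sum]
          apply sum_congr rfl
          intro γ _
          rw [mul_sum, mul_sum, mul_sum]
          apply sum_congr rfl
          intro a _
          ring
      _ = (p : ℝ) ^ (2 * s - 1) * ∑ a ∈ range p,
            ((Fintype.card C.Γ : ℝ) * en (K ×ˢ cls s X p a) φ) := by
          rw [sum_congr rfl e2]
      _ = _ := by
          rw [← mul_sum]
          ring
  have e5 := le_of_mul_le_mul_left e4 hΓ
  exact_mod_cast e5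

end Pool.Agent.Work.Vino
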