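import Pool.Agent.Work.Vino.Defs
import Pool.Agent.Work.Vino.Newton

/-!
MODULE LINA. Linnik's lemma, fibres: given power sums modulo `p^d`, at most `d!` vectors with
coordinates distinct modulo `p`.
-/

set_option autoImplicit false

namespace Pool.Agent.Work.Vino

open Finset

/-- the coordinates of a second solution are coordinates of the first -/
private theorem linA_core (d p X : ℕ) (hp : p.Prime) (hdp : d < p) (hX : X ≤ p ^ d) (a : ℤ)
    (x y : Fin d → ℤ) (hx : x ∈ injp d X p) (hy : y ∈ injp d X p)
    (h : ∀ r : Fin d, ((mom d (fun i => x i - a) r : ℤ) : ZMod (p ^ d))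
      = ((mom d (fun i => y i - a) r : ℤ) : ZMod (p ^ d))) (k : Fin d) :
    ∃ i, y k = x i := by
  have hpd : Prime (p : ℤ) := Nat.prime_iff_prime_int.mp hp
  rw [mem_injp, mem_box] at hx hy
  have hd : 1 ≤ d := by have := k.2; omega
  -- Newton
  have hnew := newton (R := ZMod (p ^ d)) d (fun i => ((x i - a : ℤ) : ZMod (p ^ d)))
    (fun i => ((y i - a : ℤ) : ZMod (p ^ d))) (by
      intro j hj1 hj2
      rw [ZMod.isUnit_iff_coprime]
      apply Nat.Coprime.pow_right
      exact (Nat.coprime_of_lt_prime (by omega) (by omega) hp).symm) (by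
      intro j hj1 hj2
      have h1 := h ⟨j - 1, by omega⟩
      simp only [mom, Nat.sub_add_cancel hj1] at h1
      push_cast at h1 ⊢
      exact h1)
  have heval := congrArg (Polynomial.eval (((y k - a : ℤ) : ZMod (p ^ d)))) hnew
  rw [Polynomial.eval_prod, Polynomial.eval_prod] at heval
  simp only [Polynomial.eval_sub, Polynomial.eval_X, Polynomial.eval_C] at heval
  have hz : ∏ i : Fin d, (((y k - a : ℤ) : ZMod (p ^ d)) - ((y i - a : ℤ) : ZMod (p ^ d))) = 0 := by
    apply Finset.prod_eq_zero (Finset.mem_univ k)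
    simp
  rw [hz] at heval
  have hdvd : ((p ^ d : ℕ) : ℤ) ∣ ∏ i : Fin d, (y k - x i) := by
    rw [← ZMod.intCast_zmod_eq_zero_iff_dvd]
    rw [← heval]
    push_cast
    apply Finset.prod_congr rfl
    intro i _
    ring
  push_cast at hdvd
  -- some factor is divisible by `p`
  have hp1 : (p : ℤ) ∣ ∏ i : Fin d, (y k - x i) :=
    (dvd_pow_self (p : ℤ) (by omega)).trans hdvd
  obtain ⟨i0, _, hi0⟩ := (hpd.dvd_finsetProd_iff _).mp hp1
  have hcop : IsCoprime ((p : ℤ) ^ d) (∏ i ∈ univ.erase i0, (y k - x i)) := by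
    apply IsCoprime.prod_right
    intro i hi
    apply IsCoprime.pow_left
    rw [hpd.coprime_iff_not_dvd]
    intro hdiv
    apply hx.2 i i0 (Finset.ne_of_mem_erase hi)
    have : x i - x i0 = (y k - x i0) - (y k - x i) := by ring
    rw [this]
    exact dvd_sub hi0 hdiv
  rw [← Finset.mul_prod_erase _ _ (Finset.mem_univ i0)] at hdvd
  have hfin : (p : ℤ) ^ d ∣ y k - x i0 := hcop.dvd_of_dvd_mul_right hdvd
  refine ⟨i0, ?_⟩
  have habs : |y k - x i0| < (p : ℤ) ^ d := by
    have h1 := hx.1 i0
    have h2 := hy.1 k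
    have h3 : (X : ℤ) ≤ (p : ℤ) ^ d := by exact_mod_cast hX
    rw [abs_lt]
    constructor <;> omega
  have := Int.eq_zero_of_abs_lt_dvd hfin habs
  omega

theorem linA (d p X : ℕ) (hp : p.Prime) (hdp : d < p) (hX : X ≤ p ^ d) (a : ℤ)
    (σ : Fin d → ZMod (p ^ d)) :
    ((injp d X p).filter (fun x => ∀ r : Fin d,
      ((mom d (fun i => x i - a) r : ℤ) : ZMod (p ^ d)) = σ r)).card ≤ d.factorial := by
  classical
  rcases Finset.eq_empty_or_nonempty ((injp d X p).filter (fun x => ∀ r : Fin d,
      ((mom d (fun i => x i - a) r : ℤ) : ZMod (p ^ d)) = σ r)) with he | ⟨x, hx⟩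
  · rw [he]; simp
  · rw [mem_filter] at hx
    have hsub : ((injp d X p).filter (fun x => ∀ r : Fin d,
      ((mom d (fun i => x i - a) r : ℤ) : ZMod (p ^ d)) = σ r)) ⊆
        (univ : Finset (Equiv.Perm (Fin d))).image (fun τ : Equiv.Perm (Fin d) => fun k => x (τ k)) := by
      intro y hy
      rw [mem_filter] at hy
      have hcore := linA_core d p X hp hdp hX a x y hx.1 hy.1
        (fun r => (hx.2 r).trans (hy.2 r).symm)
      choose f hf using hcore
      have hinj : Function.Injective f := by
        intro k l hkl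
        by_contra hne
        have h1 : y k = y l := by rw [hf k, hf l, hkl]
        have h2 := (mem_injp.mp hy.1).2 k l hne
        apply h2
        rw [h1, sub_self]
        exact dvd_zero _
      rw [mem_image]
      refine ⟨Equiv.ofBijective f (Finite.injective_iff_bijective.mp hinj), mem_univ _, ?_⟩
      funext k
      simp [hf k]
    calc _ ≤ ((univ : Finset (Equiv.Perm (Fin d))).image (fun τ : Equiv.Perm (Fin d) => fun k => x (τ k))).card :=
          Finset.card_le_card hsub
      _ ≤ (univ : Finset (Equiv.Perm (Fin d))).card := Finset.card_image_le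
      _ = d.factorial := by
        rw [Finset.card_univ, Fintype.card_perm, Fintype.card_fin]

end Pool.Agent.Work.Vino
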