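import Pool.Agent.Work.Vino.Rec
import Pool.Agent.Work.Vino.Diag

/-!
MODULE MVT. Vinogradov's mean value theorem, Karatsuba-Linnik form, uniform constants.

PROOF. `d = 1`: `J 2 1 X ≤ X^3` (given `x_1, x_2, y_1`, `y_2 = x_1+x_2-y_1`; inject into `box 3 X`), and
`X^3 ≤ 2^(2^12) X^(4 - 1 + 1/2)`. `d ≥ 2`: `η_l := (1-1/d)^l d(d-1)/2`. By induction on `l`:
`J (d + l d) d X ≤ d! 2^(∑_{i<l} (8 d^3 (d + i d + d^2) + 1)) X^(2(d+ld) - d(d+1)/2 + η_l)` for all `X ≥ 1`;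
`l = 0` is `diag` (`2d - d(d+1)/2 + d(d-1)/2 = d`), the step is `rec_step` (`s = d + l d`;
`d + (d + l d) = d + (l+1) d`). The exponents are nonnegative: Bernoulli
`(1-1/d)^l ≥ 1 - l/d` (`one_add_mul_le_pow`) gives exponent `≥ d + 2 l d - l (d-1)/2 ≥ 0`. `l = d^2`:
`d + d^3` variables; `η = (1-1/d)^(d^2) d(d-1)/2 ≤ exp(-d) d(d-1)/2 ≤ 1/2` (`exp d ≥ d^2` for example from
`exp d ≥ 1 + d + d^2/2 + d^3/6`, or `Real.add_one_le_exp (d/2)` squared...: `exp(d) ≥ d (d-1)`), and the constant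
`d! 2^(d^2 (8 d^3 (d + d^3 + d^2) + 1)) ≤ 2^(d^2 + 8 d^8 + 8 d^7 + 8 d^6 + d^2) ≤ 2^((d+1)^12)`
(`(d+1)^12 ≥ 81 (d+1)^8`, `d ≥ 2`).
-/

set_option autoImplicit false

namespace Pool.Agent.Work.Vino

open Finset

private theorem mvt_one (X : ℕ) : J 2 1 X ≤ X ^ 3 := by
  rw [← card_box 3 X]
  unfold J en
  apply Finset.card_le_card_of_injOn (fun q => ![q.1 0, q.1 1, q.2 0])
  · intro q hq
    rw [Finset.mem_coe, Finset.mem_filter, Finset.mem_product] at hq
    obtain ⟨⟨h1, h2⟩, _⟩ := hq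
    rw [mem_box] at h1 h2
    rw [Finset.mem_coe, mem_box]
    intro i
    fin_cases i
    · exact h1 0
    · exact h1 1
    · exact h2 0
  · intro q hq q' hq' h
    rw [Finset.mem_coe, Finset.mem_filter] at hq hq'
    have e1 := congrFun hq.2 0
    have e2 := congrFun hq'.2 0
    simp only [mom, Fin.sum_univ_two] at e1 e2
    have a0 := congrFun h 0
    have a1 := congrFun h 1
    have a2 := congrFun h 2
    simp at a0 a1 a2 e1 e2
    refine Prod.ext ?_ ?_
    · funext i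
      fin_cases i
      · exact a0
      · exact a1
    · funext i
      fin_cases i
      · exact a2
      · show q.2 1 = q'.2 1
        omega

private theorem mvt_iter (d : ℕ) (hd : 2 ≤ d) (l : ℕ) : ∀ X : ℕ, 1 ≤ X →
    (J (d + l * d) d X : ℝ) ≤
      (d.factorial * 2 ^ (∑ i ∈ range l, (8 * d ^ 3 * (d + i * d + d ^ 2) + 1)) : ℝ) *
      (X : ℝ) ^ (2 * ((d + l * d : ℕ) : ℝ) - (d : ℝ) * (d + 1) / 2 +
        (1 - 1 / (d : ℝ)) ^ l * ((d : ℝ) * (d - 1) / 2)) := by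
  have hd2 : (2 : ℝ) ≤ d := by exact_mod_cast hd
  have hd0 : (0 : ℝ) < d := by linarith
  have hq0 : 0 ≤ 1 - 1 / (d : ℝ) := by
    rw [sub_nonneg, div_le_one hd0]
    linarith
  have hq1 : 1 - 1 / (d : ℝ) ≤ 1 := by
    have : 0 ≤ 1 / (d : ℝ) := by positivity
    linarith
  have hT : 0 ≤ (d : ℝ) * (d - 1) / 2 := by
    have : 0 ≤ (d : ℝ) * (d - 1) := mul_nonneg hd0.le (by linarith)
    linarith
  have hexp : ∀ l : ℕ, 0 ≤ 2 * ((d + l * d : ℕ) : ℝ) - (d : ℝ) * (d + 1) / 2 +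
        (1 - 1 / (d : ℝ)) ^ l * ((d : ℝ) * (d - 1) / 2) := by
    intro l
    have hb := one_add_mul_le_pow (a := -(1 / (d : ℝ))) (by
      have : 1 / (d : ℝ) ≤ 1 := by
        rw [div_le_one hd0]
        linarith
      linarith) l
    have hb' : 1 - (l : ℝ) / d ≤ (1 - 1 / (d : ℝ)) ^ l := by
      have e1 : 1 + (l : ℝ) * -(1 / (d : ℝ)) = 1 - (l : ℝ) / d := by ring
      have e2 : 1 + -(1 / (d : ℝ)) = 1 - 1 / (d : ℝ) := by ring
      rwa [e1, e2] at hb
    have h1 := mul_le_mul_of_nonneg_right hb' hT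
    have h2 : (1 - (l : ℝ) / d) * ((d : ℝ) * (d - 1) / 2) =
        (d : ℝ) * (d - 1) / 2 - l * (d - 1) / 2 := by
      field_simp
    have hl : (0 : ℝ) ≤ l := Nat.cast_nonneg l
    have h3 : (0 : ℝ) ≤ l * (3 * d + 1) := by positivity
    push_cast
    nlinarith
  induction l with
  | zero =>
    intro X hX
    have h := diag d X
    have e1 : 2 * ((d + 0 * d : ℕ) : ℝ) - (d : ℝ) * (d + 1) / 2 +
        (1 - 1 / (d : ℝ)) ^ 0 * ((d : ℝ) * (d - 1) / 2) = (d : ℝ) := by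
      push_cast
      ring
    rw [e1, Real.rpow_natCast, Finset.sum_range_zero, pow_zero, mul_one, zero_mul, add_zero]
    exact_mod_cast h
  | succ l ih =>
    intro X hX
    have hη1 : (1 - 1 / (d : ℝ)) ^ l * ((d : ℝ) * (d - 1) / 2) ≤ (d : ℝ) * (d + 1) / 2 := by
      have h1 : (1 - 1 / (d : ℝ)) ^ l * ((d : ℝ) * (d - 1) / 2) ≤ (d : ℝ) * (d - 1) / 2 :=
        mul_le_of_le_one_left hT (pow_le_one₀ hq0 hq1)
      nlinarith
    have e1 : d + (l + 1) * d = d + (d + l * d) := by ring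
    have e2 : (d : ℝ) + ((d + l * d : ℕ) : ℝ) = ((d + (d + l * d) : ℕ) : ℝ) := by
      push_cast
      ring
    have e3 : (1 - 1 / (d : ℝ)) * ((1 - 1 / (d : ℝ)) ^ l * ((d : ℝ) * (d - 1) / 2)) =
        (1 - 1 / (d : ℝ)) ^ (l + 1) * ((d : ℝ) * (d - 1) / 2) := by
      rw [pow_succ]
      ring
    have h := rec_step d (d + l * d) hd (by omega)
      (d.factorial * 2 ^ (∑ i ∈ range l, (8 * d ^ 3 * (d + i * d + d ^ 2) + 1)) : ℝ)
      ((1 - 1 / (d : ℝ)) ^ l * ((d : ℝ) * (d - 1) / 2)) (by positivity) hη1 (hexp l)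
      (by
        have h1 := hexp (l + 1)
        rw [e1, ← e2, ← e3] at h1
        exact h1) ih X hX
    rw [e2, e3] at h
    rw [e1, Finset.sum_range_succ, pow_add, ← mul_assoc]
    exact h

theorem mvt (d X : ℕ) (hd : 1 ≤ d) (hX : 1 ≤ X) :
    (J (d ^ 3 + d) d X : ℝ) ≤ 2 ^ ((d + 1) ^ 12) *
      (X : ℝ) ^ (2 * ((d : ℝ) ^ 3 + d) - (d : ℝ) * (d + 1) / 2 + 1 / 2) := by
  have hX1 : (1 : ℝ) ≤ X := by exact_mod_cast hX
  rcases Nat.lt_or_ge d 2 with hd1 | hd2
  · have : d = 1 := by omega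
    subst this
    have h := mvt_one X
    have h1 : (J (1 ^ 3 + 1) 1 X : ℝ) ≤ (X : ℝ) ^ 3 := by
      norm_num
      exact_mod_cast h
    refine h1.trans ?_
    have h2 : (X : ℝ) ^ 3 ≤ (X : ℝ) ^ (2 * (((1 : ℕ) : ℝ) ^ 3 + ((1 : ℕ) : ℝ)) -
        ((1 : ℕ) : ℝ) * (((1 : ℕ) : ℝ) + 1) / 2 + 1 / 2) := by
      rw [← Real.rpow_natCast]
      apply Real.rpow_le_rpow_of_exponent_le hX1
      norm_num
    refine h2.trans ?_
    apply le_mul_of_one_le_left (by positivity)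
    exact one_le_pow₀ (by norm_num)
  · have hdr : (2 : ℝ) ≤ d := by exact_mod_cast hd2
    have hd0 : (0 : ℝ) < d := by linarith
    have h := mvt_iter d hd2 (d ^ 2) X hX
    have e1 : d + d ^ 2 * d = d ^ 3 + d := by ring
    rw [e1] at h
    refine h.trans ?_
    apply mul_le_mul _ _ (by positivity) (by positivity)
    · -- constant
      have c1 : d.factorial ≤ 2 ^ (d ^ 2) := by
        calc d.factorial ≤ d ^ d := Nat.factorial_le_pow d
          _ ≤ (2 ^ d) ^ d := Nat.pow_le_pow_left Nat.lt_two_pow_self.le d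
          _ = 2 ^ (d ^ 2) := by rw [← pow_mul, sq]
      have c2 : ∑ i ∈ range (d ^ 2), (8 * d ^ 3 * (d + i * d + d ^ 2) + 1) ≤
          d ^ 2 * (8 * d ^ 3 * (d + d ^ 2 * d + d ^ 2) + 1) := by
        calc _ ≤ ∑ _i ∈ range (d ^ 2), (8 * d ^ 3 * (d + d ^ 2 * d + d ^ 2) + 1) := by
              apply Finset.sum_le_sum
              intro i hi
              rw [Finset.mem_range] at hi
              gcongr
          _ = _ := by rw [Finset.sum_const, Finset.card_range, smul_eq_mul]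
      have c3 : d ^ 2 + d ^ 2 * (8 * d ^ 3 * (d + d ^ 2 * d + d ^ 2) + 1) ≤ (d + 1) ^ 12 := by
        have f1 : d ^ 8 ≤ (d + 1) ^ 8 := Nat.pow_le_pow_left (by omega) 8
        have f2 : d ^ 7 ≤ (d + 1) ^ 8 := (Nat.pow_le_pow_left (by omega) 7).trans
          (Nat.pow_le_pow_right (by omega) (by norm_num))
        have f3 : d ^ 6 ≤ (d + 1) ^ 8 := (Nat.pow_le_pow_left (by omega) 6).trans
          (Nat.pow_le_pow_right (by omega) (by norm_num))
        have f4 : d ^ 2 ≤ (d + 1) ^ 8 := (Nat.pow_le_pow_left (by omega) 2).trans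
          (Nat.pow_le_pow_right (by omega) (by norm_num))
        have f5 : 81 ≤ (d + 1) ^ 4 := by
          calc 81 = 3 ^ 4 := by norm_num
            _ ≤ (d + 1) ^ 4 := Nat.pow_le_pow_left (by omega) 4
        calc _ = 8 * d ^ 8 + 8 * d ^ 7 + 8 * d ^ 6 + 2 * d ^ 2 := by ring
          _ ≤ 81 * (d + 1) ^ 8 := by omega
          _ ≤ (d + 1) ^ 4 * (d + 1) ^ 8 := Nat.mul_le_mul_right _ f5
          _ = _ := by ring
      have c4 : d.factorial * 2 ^ (∑ i ∈ range (d ^ 2), (8 * d ^ 3 * (d + i * d + d ^ 2) + 1)) ≤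
          2 ^ ((d + 1) ^ 12) := by
        calc _ ≤ 2 ^ (d ^ 2) * 2 ^ (d ^ 2 * (8 * d ^ 3 * (d + d ^ 2 * d + d ^ 2) + 1)) :=
              Nat.mul_le_mul c1 (Nat.pow_le_pow_right (by norm_num) c2)
          _ = 2 ^ (d ^ 2 + d ^ 2 * (8 * d ^ 3 * (d + d ^ 2 * d + d ^ 2) + 1)) := by
              rw [← pow_add]
          _ ≤ _ := Nat.pow_le_pow_right (by norm_num) c3
      exact_mod_cast c4
    · apply Real.rpow_le_rpow_of_exponent_le hX1
      have hη : (1 - 1 / (d : ℝ)) ^ (d ^ 2) * ((d : ℝ) * (d - 1) / 2) ≤ 1 / 2 := by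
        have q0 : 0 ≤ 1 - 1 / (d : ℝ) := by
          rw [sub_nonneg, div_le_one hd0]
          linarith
        have q1 : 1 - 1 / (d : ℝ) ≤ Real.exp (-(1 / (d : ℝ))) := by
          have := Real.add_one_le_exp (-(1 / (d : ℝ)))
          linarith
        have q2 : (1 - 1 / (d : ℝ)) ^ (d ^ 2) ≤ Real.exp (-(d : ℝ)) := by
          calc (1 - 1 / (d : ℝ)) ^ (d ^ 2) ≤ Real.exp (-(1 / (d : ℝ))) ^ (d ^ 2) :=
                pow_le_pow_left₀ q0 q1 _
            _ = Real.exp (((d ^ 2 : ℕ) : ℝ) * -(1 / (d : ℝ))) := (Real.exp_nat_mul _ _).symm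
            _ = Real.exp (-(d : ℝ)) := by
                congr 1
                push_cast
                field_simp
        have q3 : (d : ℝ) * (d - 1) ≤ Real.exp d := by
          have r1 := Real.quadratic_le_exp_of_nonneg (x := (d : ℝ) / 2) (by positivity)
          have r2 : Real.exp (d : ℝ) = Real.exp ((d : ℝ) / 2) ^ 2 := by
            rw [← Real.exp_nat_mul]
            congr 1
            push_cast
            ring
          have r3 : (1 + (d : ℝ) / 2 + ((d : ℝ) / 2) ^ 2 / 2) ^ 2 ≤ Real.exp ((d : ℝ) / 2) ^ 2 :=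
            pow_le_pow_left₀ (by positivity) r1 2
          rw [r2]
          refine le_trans ?_ r3
          have r4 : 0 ≤ (d : ℝ) * ((d : ℝ) / 4 - 1) ^ 2 := by positivity
          have r5 : 0 ≤ (d : ℝ) ^ 4 := by positivity
          nlinarith
        have hT : 0 ≤ (d : ℝ) * (d - 1) := mul_nonneg hd0.le (by linarith)
        have q4 : Real.exp (-(d : ℝ)) * ((d : ℝ) * (d - 1)) ≤ 1 := by
          rw [Real.exp_neg, inv_mul_le_iff₀ (Real.exp_pos _), mul_one]
          exact q3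
        have q5 := mul_le_mul_of_nonneg_right q2 hT
        linarith
      push_cast
      linarith

end Pool.Agent.Work.Vino
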