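import Mathlib

/-!
MODULE PRIMA. Chains of primes.

PROOF. Induction on `m` with Bertrand's postulate `Nat.exists_prime_lt_and_le_two_mul (n) (hn : n ≠ 0) :
∃ p, Nat.Prime p ∧ n < p ∧ p ≤ 2 * n`. Keep the largest element: strengthen to: there are `S` and
`q` with `n ≤ q ≤ 2^m n`, all elements of `S` in `(n, q]`; the next prime is in `(q, 2q]`.
-/

set_option autoImplicit false

namespace Pool.Agent.Work.Vino

open Finset

private theorem prime_chain_aux (n m : ℕ) (hn : 1 ≤ n) :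
    ∃ (S : Finset ℕ) (q : ℕ), n ≤ q ∧ q ≤ 2 ^ m * n ∧ S.card = m ∧
      ∀ p ∈ S, p.Prime ∧ n < p ∧ p ≤ q := by
  induction m with
  | zero => exact ⟨∅, n, le_rfl, by simp, rfl, by simp⟩
  | succ m ih =>
    obtain ⟨S, q, h1, h2, h3, h4⟩ := ih
    obtain ⟨r, hr, hr1, hr2⟩ := Nat.exists_prime_lt_and_le_two_mul q (by omega)
    refine ⟨insert r S, r, by omega, ?_, ?_, ?_⟩
    · calc r ≤ 2 * q := hr2
        _ ≤ 2 * (2 ^ m * n) := by omega
        _ = 2 ^ (m + 1) * n := by ring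
    · rw [Finset.card_insert_of_notMem, h3]
      intro h
      have := (h4 r h).2.2
      omega
    · intro p hp
      rw [Finset.mem_insert] at hp
      rcases hp with rfl | hp
      · exact ⟨hr, by omega, le_rfl⟩
      · obtain ⟨g1, g2, g3⟩ := h4 p hp
        exact ⟨g1, g2, by omega⟩

theorem prime_chain (n m : ℕ) (hn : 1 ≤ n) :
    ∃ S : Finset ℕ, S.card = m ∧ ∀ p ∈ S, p.Prime ∧ n < p ∧ p ≤ 2 ^ m * n := by
  obtain ⟨S, q, _, h2, h3, h4⟩ := prime_chain_aux n m hn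
  exact ⟨S, h3, fun p hp => ⟨(h4 p hp).1, (h4 p hp).2.1, (h4 p hp).2.2.trans h2⟩⟩

end Pool.Agent.Work.Vino
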