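import Pool.Agent.Work.Vino.Defs
import Pool.Agent.Work.Vino.PrimA

/-!
MODULE PRIMB. A few primes of size `X^(1/d)` such that every pair of vectors with distinct
coordinates remains distinct modulo one of them.

PROOF. Let `q` be the least natural number with `X ≤ q^d` (`Nat.find`; `q ≥ 1`; and `q^d ≤ 2^d X`,
because `q = 1` or `(q-1)^d < X`, `q ≤ 2 (q-1)`). `n := d * q` (so `n ≥ d`, `n ≥ q`, `n ≥ 1`),
`m := d^3 - d^2`. `S` from `prime_chain n m`: `card S = m ≤ d^3`; `p > n ≥ d`; `X ≤ q^d ≤ p^d`;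
`p^d ≤ 2^(m d) n^d = 2^(m d) d^d q^d ≤ 2^(d^4 - d^3) 2^(d^2) 2^d X ≤ 2^(2 d^4) X` (`d ≤ 2^d`).
Main claim: a pair counted by `NS (injs d X) s X` is counted by `NS (injp d X p) s X` for some
`p ∈ S` (`Finset.card_le_card_biUnion`/`card_biUnion_le`: the set of pairs is contained in the union).
Let `x, y ∈ injs d X`, and suppose for every `p ∈ S` that `x` or `y` is not in `injp d X p`. Put
`D := ∏_{i ≠ j} (x i - x j) * ...` more precisely `D := ∏ over ordered pairs i < j of
|x i - x j| * |y i - y j|` (natAbs), `D ≠ 0`, and each `p ∈ S` divides `D`; distinct primes so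
`∏_{p∈S} p ∣ D` (`Finset.prod_primes_dvd`), so `∏ p ≤ D`. `D < X^(d(d-1))` (it has `d(d-1)/2 * 2`
factors, each `≤ X - 1 < X`; `d ≥ 2` so there is at least one factor; if `X = 1` then `injs` is empty as
`d ≥ 2`), while `(∏_{p∈S} p)^d ≥ X^m = X^(d^3-d^2)`, `m = d * (d(d-1))`, so `∏ p ≥ X^(d(d-1))`
(`Nat.pow_le_pow_iff_left`), a contradiction.
-/

set_option autoImplicit false

namespace Pool.Agent.Work.Vino

open Finset

/-- the pairs `i < j` -/
private def prs (d : ℕ) : Finset (Fin d × Fin d) := univ.filter (fun q => q.1 < q.2)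

private theorem card_prs (d : ℕ) : 2 * (prs d).card = d * d - d := by
  have h1 : (prs d).card = ((univ : Finset (Fin d × Fin d)).filter (fun q => q.2 < q.1)).card := by
    unfold prs
    refine Finset.card_bij (fun q _ => (q.2, q.1)) ?_ ?_ ?_
    · intro q hq
      rw [mem_filter] at hq ⊢
      exact ⟨mem_univ _, hq.2⟩
    · intro a _ b _ h
      simp only [Prod.mk.injEq] at h
      exact Prod.ext h.2 h.1
    · intro b hb
      rw [mem_filter] at hb
      exact ⟨(b.2, b.1), by rw [mem_filter]; exact ⟨mem_univ _, hb.2⟩, rfl⟩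
  have h2 : (univ : Finset (Fin d)).offDiag = prs d ∪
      (univ : Finset (Fin d × Fin d)).filter (fun q => q.2 < q.1) := by
    ext q
    simp only [prs, mem_offDiag, mem_union, mem_filter, mem_univ, true_and]
    exact ne_iff_lt_or_gt
  have h3 := Finset.offDiag_card (univ : Finset (Fin d))
  rw [h2, Finset.card_union_of_disjoint, ← h1, Finset.card_univ, Fintype.card_fin] at h3
  · omega
  · unfold prs
    rw [Finset.disjoint_filter]
    intro q _ hq
    exact not_lt.mpr hq.le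

/-- the main claim -/
private theorem main_claim (d X : ℕ) (hd : 2 ≤ d) (S : Finset ℕ)
    (hS : S.card = d ^ 3 - d ^ 2) (hp : ∀ p ∈ S, p.Prime ∧ X ≤ p ^ d) (x y : Fin d → ℤ)
    (hx : x ∈ injs d X) (hy : y ∈ injs d X) : ∃ p ∈ S, x ∈ injp d X p ∧ y ∈ injp d X p := by
  by_contra hcon
  push Not at hcon
  rw [mem_injs, mem_box] at hx hy
  obtain ⟨hx1, hx2⟩ := hx
  obtain ⟨hy1, hy2⟩ := hy
  set D : ℕ := ∏ q ∈ prs d, (x q.1 - x q.2).natAbs * (y q.1 - y q.2).natAbs with hD
  have hpos : ∀ q ∈ prs d, 0 < (x q.1 - x q.2).natAbs * (y q.1 - y q.2).natAbs := by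
    intro q hq
    have hne : q.1 ≠ q.2 := (mem_filter.mp hq).2.ne
    have h1 := hx2 _ _ hne
    have h2 := hy2 _ _ hne
    apply Nat.mul_pos
    · apply Int.natAbs_pos.mpr
      omega
    · apply Int.natAbs_pos.mpr
      omega
  have hDpos : 0 < D := Finset.prod_pos hpos
  have hlt : ∀ (z : Fin d → ℤ), (∀ i, 0 ≤ z i ∧ z i < X) → ∀ i j, (z i - z j).natAbs < X := by
    intro z hz i j
    have h1 := hz i
    have h2 := hz j
    omega
  have hDX : D < X ^ (d * d - d) := by
    have h1 : D < ∏ q ∈ prs d, X ^ 2 := by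
      rw [hD]
      apply Finset.prod_lt_prod_of_nonempty
      · intro q hq
        exact hpos q hq
      · intro q hq
        rw [sq]
        exact Nat.mul_lt_mul_of_lt_of_lt (hlt x hx1 _ _) (hlt y hy1 _ _)
      · exact ⟨(⟨0, by omega⟩, ⟨1, by omega⟩), by
          rw [prs, mem_filter]
          exact ⟨mem_univ _, by simp⟩⟩
    rw [Finset.prod_const, ← pow_mul, card_prs] at h1
    exact h1
  have hdvd : ∀ p ∈ S, p ∣ D := by
    intro p hpS
    have key : ∀ z : Fin d → ℤ, (∀ i, 0 ≤ z i ∧ z i < X) → z ∉ injp d X p →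
        ∃ q ∈ prs d, p ∣ (z q.1 - z q.2).natAbs := by
      intro z hz hn
      rw [mem_injp, mem_box] at hn
      have hn' : ∃ i j, i ≠ j ∧ (p : ℤ) ∣ z i - z j := by
        by_contra hc
        push Not at hc
        exact hn ⟨hz, hc⟩
      obtain ⟨i, j, hij, h⟩ := hn'
      rcases lt_or_gt_of_ne hij with h1 | h1
      · exact ⟨(i, j), by rw [prs, mem_filter]; exact ⟨mem_univ _, h1⟩,
          Int.natCast_dvd.mp h⟩
      · refine ⟨(j, i), by rw [prs, mem_filter]; exact ⟨mem_univ _, h1⟩,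
          Int.natCast_dvd.mp ?_⟩
        have : z j - z i = -(z i - z j) := by ring
        change (p : ℤ) ∣ z j - z i
        rw [this]
        exact (dvd_neg).mpr h
    by_cases h1 : x ∈ injp d X p
    · obtain ⟨q, hq, hq2⟩ := key y hy1 (hcon p hpS h1)
      exact (Dvd.dvd.mul_left hq2 _).trans (Finset.dvd_prod_of_mem _ hq)
    · obtain ⟨q, hq, hq2⟩ := key x hx1 h1
      exact (Dvd.dvd.mul_right hq2 _).trans (Finset.dvd_prod_of_mem
        (fun q : Fin d × Fin d => (x q.1 - x q.2).natAbs * (y q.1 - y q.2).natAbs) hq)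
  have hprod : ∏ p ∈ S, p ≤ D := Nat.le_of_dvd hDpos
    (Finset.prod_primes_dvd D (fun p h => (hp p h).1.prime) hdvd)
  have h1 : X ^ (d ^ 3 - d ^ 2) ≤ (∏ p ∈ S, p) ^ d := by
    rw [← hS, ← Finset.prod_pow, ← Finset.prod_const]
    exact Finset.prod_le_prod' (fun p h => (hp p h).2)
  have h2 : d ^ 3 - d ^ 2 = (d * d - d) * d := by
    rw [Nat.sub_mul]
    congr 1 <;> ring
  rw [h2, pow_mul, Nat.pow_le_pow_iff_left (by omega)] at h1
  exact absurd (h1.trans hprod) (not_le.mpr hDX)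

theorem primes (d X : ℕ) (hd : 2 ≤ d) (hX : 1 ≤ X) :
    ∃ S : Finset ℕ, S.card ≤ d ^ 3 ∧
      (∀ p ∈ S, p.Prime ∧ d < p ∧ X ≤ p ^ d ∧ p ^ d ≤ 2 ^ (2 * d ^ 4) * X) ∧
      ∀ s, NS (injs d X) s X ≤ ∑ p ∈ S, NS (injp d X p) s X := by
  obtain ⟨q, hq1, hq2, hq3⟩ : ∃ q : ℕ, 1 ≤ q ∧ X ≤ q ^ d ∧ q ^ d ≤ 2 ^ d * X := by
    have hex : ∃ q : ℕ, X ≤ q ^ d := ⟨X, Nat.le_self_pow (by omega) X⟩
    refine ⟨Nat.find hex, ?_, Nat.find_spec hex, ?_⟩
    · rw [Nat.one_le_iff_ne_zero]
      intro h0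
      have := Nat.find_spec hex
      rw [h0, zero_pow (by omega)] at this
      omega
    · rcases Nat.lt_or_ge (Nat.find hex) 2 with h | h
      · calc Nat.find hex ^ d ≤ 1 ^ d := Nat.pow_le_pow_left (by omega) d
          _ = 1 := one_pow d
          _ ≤ 2 ^ d * X := Nat.mul_pos (by positivity) (by omega)
      · have h1 := Nat.find_min hex (m := Nat.find hex - 1) (by omega)
        rw [not_le] at h1
        calc Nat.find hex ^ d ≤ (2 * (Nat.find hex - 1)) ^ d :=
              Nat.pow_le_pow_left (by omega) d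
          _ = 2 ^ d * (Nat.find hex - 1) ^ d := by rw [mul_pow]
          _ ≤ 2 ^ d * X := Nat.mul_le_mul_left _ h1.le
  have hdq : 1 ≤ d * q := Nat.mul_pos (by omega) (by omega)
  obtain ⟨S, hS1, hS2⟩ := prime_chain (d * q) (d ^ 3 - d ^ 2) hdq
  have hqp : ∀ p ∈ S, q < p := by
    intro p hp
    have := (hS2 p hp).2.1
    have h2 : q ≤ d * q := Nat.le_mul_of_pos_left q (by omega)
    omega
  have hXp : ∀ p ∈ S, X ≤ p ^ d := by
    intro p hp
    exact hq2.trans (Nat.pow_le_pow_left (hqp p hp).le d)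
  refine ⟨S, by rw [hS1]; exact Nat.sub_le _ _, ?_, ?_⟩
  · intro p hp
    obtain ⟨h1, h2, h3⟩ := hS2 p hp
    refine ⟨h1, ?_, hXp p hp, ?_⟩
    · have : d ≤ d * q := Nat.le_mul_of_pos_right d (by omega)
      omega
    · have e1 : p ^ d ≤ 2 ^ ((d ^ 3 - d ^ 2) * d) * (d ^ d * q ^ d) := by
        calc p ^ d ≤ (2 ^ (d ^ 3 - d ^ 2) * (d * q)) ^ d := Nat.pow_le_pow_left h3 d
          _ = 2 ^ ((d ^ 3 - d ^ 2) * d) * (d ^ d * q ^ d) := by
              rw [mul_pow, mul_pow, ← pow_mul]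
      have e2 : d ^ d ≤ 2 ^ (d * d) := by
        rw [pow_mul]
        exact Nat.pow_le_pow_left Nat.lt_two_pow_self.le d
      calc p ^ d ≤ 2 ^ ((d ^ 3 - d ^ 2) * d) * (d ^ d * q ^ d) := e1
        _ ≤ 2 ^ ((d ^ 3 - d ^ 2) * d) * (2 ^ (d * d) * (2 ^ d * X)) :=
            Nat.mul_le_mul_left _ (Nat.mul_le_mul e2 hq3)
        _ = 2 ^ ((d ^ 3 - d ^ 2) * d + d * d + d) * X := by
            rw [pow_add, pow_add]; ring
        _ ≤ 2 ^ (2 * d ^ 4) * X := by
            apply Nat.mul_le_mul_right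
            apply Nat.pow_le_pow_right (by norm_num)
            have h4 : (d ^ 3 - d ^ 2) * d = d ^ 4 - d ^ 3 := by
              rw [Nat.sub_mul]
              congr 1 <;> ring
            rw [h4]
            have h5 : d ^ 3 ≤ d ^ 4 := Nat.pow_le_pow_right (by omega) (by norm_num)
            have h6 : d * d + d ≤ d ^ 3 + d ^ 4 := by
              have h7 : d * d ≤ d ^ 3 := by
                rw [← sq]; exact Nat.pow_le_pow_right (by omega) (by norm_num)
              have h8 : d ≤ d ^ 4 := Nat.le_self_pow (by norm_num) d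
              omega
            omega
  · intro s
    unfold NS en
    refine (Finset.card_le_card ?_).trans Finset.card_biUnion_le
    intro w hw
    rw [mem_filter, mem_product, mem_product, mem_product] at hw
    obtain ⟨⟨⟨h1, h2⟩, h3, h4⟩, h5⟩ := hw
    obtain ⟨p, hp, g1, g2⟩ := main_claim d X hd S hS1 (fun p hp => ⟨(hS2 p hp).1, hXp p hp⟩)
      w.1.1 w.2.1 h1 h3
    rw [mem_biUnion]
    refine ⟨p, hp, ?_⟩
    rw [mem_filter, mem_product, mem_product, mem_product]
    exact ⟨⟨⟨g1, h2⟩, g2, h4⟩, h5⟩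

end Pool.Agent.Work.Vino
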