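import Pool.Agent.Work.Vino.DegenB
import Pool.Agent.Work.Vino.Good
import Pool.Agent.Work.Vino.PrimB

/-!
MODULE REC. The recursion step (real exponents).

PROOF. `e := 2s - d(d+1)/2 + η ≥ 0`, `E := 2(d+s) - d(d+1)/2 + (1-1/d) η ≥ 0`, `Y := X^(1/d)` (rpow).
`1 = J s d 1 ≤ A` (`J_one`). `degen` and `primes`, `good`:
`J (d+s) d X ≤ 2 ∑_{p∈S} p^(2s) d! p^(d(d-1)/2) X^d J s d (X/p+1) + 2 d^2 (4d^2)^(2(d+s)-1)`.
For `p ∈ S`: `Y ≤ p ≤ 2^(2 d^3) Y` (take `d`-th roots: `Real.pow_rpow_inv_natCast`..), `X / p + 1 ≤ 2 X/Y =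
2 X^(1-1/d)` (natural division `X/p ≤ X/p` real, and `1 ≤ X^(1-1/d)`), so
`J s d (X/p+1) ≤ A (2 X^(1-1/d))^e ≤ A 2^(2s) X^((1-1/d) e)` (`e ≤ 2s` by `hη2`). The exponent of `X`:
`(2s + d(d-1)/2)/d + d + (1-1/d) e = E` (check: `2s/d + (d-1)/2 + d + 2s - 2s/d - (d-1)(d+1)/2 + (1-1/d)η
= 2s + d - d(d-1)/2 + (1-1/d) η`, and `2d - d(d+1)/2 = d - d(d-1)/2`).
The constant: `2 * d^3 * d! * (2^(2d^3))^(2s + d(d-1)/2) * 2^(2s) ≤ 2^(8 d^3 (s+d^2))`, because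
`1 + 3 log2 d + log2 (d!) + 4 d^3 s + d^4 (d-1) + 2 s ≤ 8 d^3 s + 8 d^5` (`d ≤ 2^d`, `d! ≤ d^d ≤ 2^(d^2)`);
and `2 d^2 (4 d^2)^(2(d+s)-1) ≤ (4d^2)^(2(d+s)) ≤ 2^((2+2d)·2(d+s)) ≤ 2^(8 d^3 (s+d^2))`, times
`A X^E ≥ 1`. The sum of two terms `≤ A 2^(8d^3(s+d^2)) X^E` is `≤ A 2^(8d^3(s+d^2)+1) X^E`.
(`d (d-1) / 2` in `good` is natural division, exact: `Nat.triangle`/`Nat.even_mul_pred_self`.)
-/

set_option autoImplicit false

namespace Pool.Agent.Work.Vino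

open Finset

private theorem rec_prime (d s : ℕ) (hd : 2 ≤ d) (hs : 1 ≤ s) (A η : ℝ) (hA : 1 ≤ A)
    (hη2 : η ≤ (d : ℝ) * (d + 1) / 2)
    (h0 : 0 ≤ 2 * (s : ℝ) - (d : ℝ) * (d + 1) / 2 + η)
    (h : ∀ Y : ℕ, 1 ≤ Y →
      (J s d Y : ℝ) ≤ A * (Y : ℝ) ^ (2 * (s : ℝ) - (d : ℝ) * (d + 1) / 2 + η))
    (X : ℕ) (hX : 1 ≤ X) (p : ℕ) (hp : p.Prime) (hdp : d < p) (hXp : X ≤ p ^ d)
    (hpX : p ^ d ≤ 2 ^ (2 * d ^ 4) * X) :
    (NS (injp d X p) s X : ℝ) ≤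
      (d.factorial * 2 ^ (2 * d ^ 3 * (2 * s + d * (d - 1) / 2)) * 2 ^ (2 * s)) * (A *
      (X : ℝ) ^ (2 * ((d : ℝ) + s) - (d : ℝ) * (d + 1) / 2 + (1 - 1 / (d : ℝ)) * η)) := by
  have hX1 : (1 : ℝ) ≤ X := by exact_mod_cast hX
  have hX0 : (0 : ℝ) < X := by linarith
  have hdr : (2 : ℝ) ≤ d := by exact_mod_cast hd
  have hd0 : (0 : ℝ) < d := by linarith
  have hdn : d ≠ 0 := by omega
  set t : ℕ := d * (d - 1) / 2 with ht
  have ht2 : (t : ℝ) = (d : ℝ) * (d - 1) / 2 := by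
    have h1 : 2 ∣ d * (d - 1) := by
      have := Nat.even_mul_pred_self d
      exact this.two_dvd
    rw [ht, Nat.cast_div h1 (by norm_num)]
    push_cast [Nat.cast_sub (show 1 ≤ d by omega)]
    ring
  set e : ℝ := 2 * (s : ℝ) - (d : ℝ) * (d + 1) / 2 + η with he
  set Y : ℝ := (X : ℝ) ^ (1 / (d : ℝ)) with hY
  have hY1 : 1 ≤ Y := Real.one_le_rpow hX1 (by positivity)
  have hY0 : 0 < Y := by linarith
  have hYd : Y ^ d = X := by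
    rw [hY, ← Real.rpow_natCast, ← Real.rpow_mul hX0.le, one_div, inv_mul_cancel₀ hd0.ne',
      Real.rpow_one]
  have hpr : (0 : ℝ) < p := by exact_mod_cast hp.pos
  have hp1 : (p : ℝ) ≤ 2 ^ (2 * d ^ 3) * Y := by
    rw [← pow_le_pow_iff_left₀ hpr.le (by positivity) hdn, mul_pow, hYd, ← pow_mul]
    have e1 : 2 * d ^ 3 * d = 2 * d ^ 4 := by ring
    rw [e1]
    exact_mod_cast hpX
  have hp2 : Y ≤ p := by
    rw [← pow_le_pow_iff_left₀ hY0.le hpr.le hdn, hYd]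
    exact_mod_cast hXp
  -- the reduced system
  set Z : ℝ := (X : ℝ) ^ (1 - 1 / (d : ℝ)) with hZ
  have hZY : (X : ℝ) / Y = Z := by
    rw [hZ, Real.rpow_sub hX0, Real.rpow_one]
  have hZ1 : 1 ≤ Z := by
    apply Real.one_le_rpow hX1
    rw [sub_nonneg, div_le_one hd0]
    linarith
  have hq : ((X / p + 1 : ℕ) : ℝ) ≤ 2 * Z := by
    have h1 : ((X / p : ℕ) : ℝ) ≤ (X : ℝ) / p := Nat.cast_div_le
    have h2 : (X : ℝ) / p ≤ X / Y := div_le_div_of_nonneg_left hX0.le hY0 hp2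
    push_cast
    rw [hZY] at h2
    linarith
  have hJ : (J s d (X / p + 1) : ℝ) ≤ A * (2 ^ (2 * s) * (X : ℝ) ^ ((1 - 1 / (d : ℝ)) * e)) := by
    refine (h (X / p + 1) (Nat.le_add_left 1 _)).trans ?_
    apply mul_le_mul_of_nonneg_left _ (by linarith)
    calc ((X / p + 1 : ℕ) : ℝ) ^ e ≤ (2 * Z) ^ e :=
          Real.rpow_le_rpow (by positivity) hq h0
      _ = 2 ^ e * Z ^ e := Real.mul_rpow (by norm_num) (by linarith)
      _ ≤ 2 ^ (2 * s) * (X : ℝ) ^ ((1 - 1 / (d : ℝ)) * e) := by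
          rw [hZ, ← Real.rpow_mul hX0.le]
          apply mul_le_mul_of_nonneg_right _ (by positivity)
          have h3 : (2 : ℝ) ^ (2 * s) = (2 : ℝ) ^ (((2 * s : ℕ) : ℝ)) := by
            rw [Real.rpow_natCast]
          rw [h3]
          apply Real.rpow_le_rpow_of_exponent_le (by norm_num)
          push_cast
          rw [he]
          linarith
  have hg := good d s p X hs hp hdp hXp
  have hg' : (NS (injp d X p) s X : ℝ) ≤
      (p : ℝ) ^ (2 * s) * (d.factorial * (p : ℝ) ^ t * (X : ℝ) ^ d) * J s d (X / p + 1) := by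
    exact_mod_cast hg
  have hpp : (p : ℝ) ^ (2 * s + t) ≤ 2 ^ (2 * d ^ 3 * (2 * s + t)) *
      (X : ℝ) ^ (((2 * s + t : ℕ) : ℝ) / d) := by
    calc (p : ℝ) ^ (2 * s + t) ≤ (2 ^ (2 * d ^ 3) * Y) ^ (2 * s + t) :=
          pow_le_pow_left₀ hpr.le hp1 _
      _ = 2 ^ (2 * d ^ 3 * (2 * s + t)) * Y ^ (2 * s + t) := by
          rw [mul_pow, ← pow_mul]
      _ = _ := by
          congr 1
          rw [hY, ← Real.rpow_natCast, ← Real.rpow_mul hX0.le]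
          congr 1
          ring
  have hexp : (X : ℝ) ^ (((2 * s + t : ℕ) : ℝ) / d) * (X : ℝ) ^ d *
      (X : ℝ) ^ ((1 - 1 / (d : ℝ)) * e) =
      (X : ℝ) ^ (2 * ((d : ℝ) + s) - (d : ℝ) * (d + 1) / 2 + (1 - 1 / (d : ℝ)) * η) := by
    rw [← Real.rpow_natCast (X : ℝ) d, ← Real.rpow_add hX0, ← Real.rpow_add hX0]
    congr 1
    push_cast
    rw [ht2, he]
    field_simp
    ring
  calc (NS (injp d X p) s X : ℝ)
      ≤ (p : ℝ) ^ (2 * s) * (d.factorial * (p : ℝ) ^ t * (X : ℝ) ^ d) * J s d (X / p + 1) := hg'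
    _ = d.factorial * ((p : ℝ) ^ (2 * s + t) * ((X : ℝ) ^ d * J s d (X / p + 1))) := by
        rw [pow_add]
        ring
    _ ≤ d.factorial * ((2 ^ (2 * d ^ 3 * (2 * s + t)) *
      (X : ℝ) ^ (((2 * s + t : ℕ) : ℝ) / d)) * ((X : ℝ) ^ d *
        (A * (2 ^ (2 * s) * (X : ℝ) ^ ((1 - 1 / (d : ℝ)) * e))))) := by
        gcongr
    _ = (d.factorial * 2 ^ (2 * d ^ 3 * (2 * s + t)) * 2 ^ (2 * s)) * (A *
        ((X : ℝ) ^ (((2 * s + t : ℕ) : ℝ) / d) * (X : ℝ) ^ d *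
      (X : ℝ) ^ ((1 - 1 / (d : ℝ)) * e))) := by ring
    _ = _ := by rw [hexp]

theorem rec_step (d s : ℕ) (hd : 2 ≤ d) (hs : 1 ≤ s) (A η : ℝ) (hη : 0 ≤ η)
    (hη2 : η ≤ (d : ℝ) * (d + 1) / 2)
    (h0 : 0 ≤ 2 * (s : ℝ) - (d : ℝ) * (d + 1) / 2 + η)
    (h1 : 0 ≤ 2 * ((d : ℝ) + s) - (d : ℝ) * (d + 1) / 2 + (1 - 1 / (d : ℝ)) * η)
    (h : ∀ Y : ℕ, 1 ≤ Y →
      (J s d Y : ℝ) ≤ A * (Y : ℝ) ^ (2 * (s : ℝ) - (d : ℝ) * (d + 1) / 2 + η))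
    (X : ℕ) (hX : 1 ≤ X) :
    (J (d + s) d X : ℝ) ≤ A * 2 ^ (8 * d ^ 3 * (s + d ^ 2) + 1) *
      (X : ℝ) ^ (2 * ((d : ℝ) + s) - (d : ℝ) * (d + 1) / 2 + (1 - 1 / (d : ℝ)) * η) := by
  have hX1 : (1 : ℝ) ≤ X := by exact_mod_cast hX
  have hA : 1 ≤ A := by
    have := h 1 le_rfl
    rw [J_one, Nat.cast_one, Real.one_rpow, mul_one] at this
    exact_mod_cast this
  set E : ℝ := 2 * ((d : ℝ) + s) - (d : ℝ) * (d + 1) / 2 + (1 - 1 / (d : ℝ)) * η with hE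
  have hXE : 1 ≤ (X : ℝ) ^ E := Real.one_le_rpow hX1 h1
  have hAX : 1 ≤ A * (X : ℝ) ^ E := one_le_mul_of_one_le_of_one_le hA hXE
  obtain ⟨S, hS1, hS2, hS3⟩ := primes d X hd hX
  have hdeg := degen d s X (by omega)
  set t : ℕ := d * (d - 1) / 2 with ht
  set Cn : ℕ := d.factorial * 2 ^ (2 * d ^ 3 * (2 * s + t)) * 2 ^ (2 * s) with hCn
  have hNS : (NS (injs d X) s X : ℝ) ≤ (d ^ 3 * Cn : ℕ) * (A * (X : ℝ) ^ E) := by
    calc (NS (injs d X) s X : ℝ) ≤ ((∑ p ∈ S, NS (injp d X p) s X : ℕ) : ℝ) := by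
          exact_mod_cast hS3 s
      _ = ∑ p ∈ S, (NS (injp d X p) s X : ℝ) := by push_cast; rfl
      _ ≤ ∑ p ∈ S, ((Cn : ℝ) * (A * (X : ℝ) ^ E)) := by
          apply Finset.sum_le_sum
          intro p hp
          obtain ⟨p1, p2, p3, p4⟩ := hS2 p hp
          have := rec_prime d s hd hs A η hA hη2 h0 h X hX p p1 p2 p3 p4
          rw [hCn]
          push_cast
          exact this
      _ = S.card * ((Cn : ℝ) * (A * (X : ℝ) ^ E)) := by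
          rw [Finset.sum_const, nsmul_eq_mul]
      _ ≤ (d ^ 3 : ℕ) * ((Cn : ℝ) * (A * (X : ℝ) ^ E)) := by
          apply mul_le_mul_of_nonneg_right _ (by positivity)
          exact_mod_cast hS1
      _ = _ := by
          push_cast
          ring
  -- the constants
  have c1 : 2 * (d ^ 3 * Cn) ≤ 2 ^ (8 * d ^ 3 * (s + d ^ 2)) := by
    have f1 : d ^ 3 ≤ 2 ^ (3 * d) := by
      calc d ^ 3 ≤ (2 ^ d) ^ 3 := Nat.pow_le_pow_left Nat.lt_two_pow_self.le 3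
        _ = 2 ^ (3 * d) := by rw [← pow_mul, mul_comm]
    have f2 : d.factorial ≤ 2 ^ (d ^ 2) := by
      calc d.factorial ≤ d ^ d := Nat.factorial_le_pow d
        _ ≤ (2 ^ d) ^ d := Nat.pow_le_pow_left Nat.lt_two_pow_self.le d
        _ = 2 ^ (d ^ 2) := by rw [← pow_mul, sq]
    have f3 : 2 * t ≤ d ^ 2 := by
      have : d * (d - 1) ≤ d ^ 2 := by
        rw [sq]
        exact Nat.mul_le_mul_left _ (Nat.sub_le _ _)
      omega
    have f4 : 1 + 3 * d + d ^ 2 + 2 * d ^ 3 * (2 * s + t) + 2 * s ≤ 8 * d ^ 3 * (s + d ^ 2) := by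
      have g1 : 1 ≤ d ^ 5 := Nat.one_le_pow _ _ (by omega)
      have g2 : d ≤ d ^ 5 := Nat.le_self_pow (by norm_num) d
      have g3 : d ^ 2 ≤ d ^ 5 := Nat.pow_le_pow_right (by omega) (by norm_num)
      have g4 : 1 ≤ d ^ 3 := Nat.one_le_pow _ _ (by omega)
      have g5 : s ≤ d ^ 3 * s := Nat.le_mul_of_pos_left s (by omega)
      have g6 : 2 * d ^ 3 * t ≤ d ^ 5 := by
        calc 2 * d ^ 3 * t = d ^ 3 * (2 * t) := by ring
          _ ≤ d ^ 3 * d ^ 2 := Nat.mul_le_mul_left _ f3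
          _ = d ^ 5 := by ring
      calc _ = 1 + 3 * d + d ^ 2 + 4 * (d ^ 3 * s) + 2 * d ^ 3 * t + 2 * s := by ring
        _ ≤ 8 * (d ^ 3 * s) + 8 * d ^ 5 := by omega
        _ = _ := by ring
    calc 2 * (d ^ 3 * Cn) ≤ 2 * (2 ^ (3 * d) * (2 ^ (d ^ 2) * 2 ^ (2 * d ^ 3 * (2 * s + t)) *
          2 ^ (2 * s))) := by
          rw [hCn]
          gcongr
      _ = 2 ^ (1 + 3 * d + d ^ 2 + 2 * d ^ 3 * (2 * s + t) + 2 * s) := by
          rw [pow_add, pow_add, pow_add, pow_add, pow_one]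
          ring
      _ ≤ _ := Nat.pow_le_pow_right (by norm_num) f4
  have c2 : 2 * d ^ 2 * (4 * d ^ 2) ^ (2 * (d + s) - 1) ≤ 2 ^ (8 * d ^ 3 * (s + d ^ 2)) := by
    have f0 : 2 * d ≤ 2 ^ (d + 1) := by
      rw [pow_succ, mul_comm]
      exact Nat.mul_le_mul_right _ Nat.lt_two_pow_self.le
    calc 2 * d ^ 2 * (4 * d ^ 2) ^ (2 * (d + s) - 1)
        ≤ (4 * d ^ 2) * (4 * d ^ 2) ^ (2 * (d + s) - 1) := by
          apply Nat.mul_le_mul_right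
          omega
      _ = (4 * d ^ 2) ^ (2 * (d + s)) := by
          rw [← pow_succ']
          congr 1
          omega
      _ = (2 * d) ^ (4 * (d + s)) := by
          have : 4 * d ^ 2 = (2 * d) ^ 2 := by ring
          rw [this, ← pow_mul]
          congr 1
          ring
      _ ≤ (2 ^ (d + 1)) ^ (4 * (d + s)) := Nat.pow_le_pow_left f0 _
      _ = 2 ^ ((d + 1) * (4 * (d + s))) := (pow_mul _ _ _).symm
      _ ≤ _ := by
          apply Nat.pow_le_pow_right (by norm_num)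
          have g1 : d + 1 ≤ 2 * d := by omega
          have g2 : d ≤ d ^ 3 := Nat.le_self_pow (by norm_num) d
          have g3 : d ≤ d ^ 2 := Nat.le_self_pow (by norm_num) d
          calc (d + 1) * (4 * (d + s)) ≤ (2 * d) * (4 * (d + s)) := Nat.mul_le_mul_right _ g1
            _ = 8 * (d * (s + d)) := by ring
            _ ≤ 8 * (d ^ 3 * (s + d ^ 2)) := by gcongr
            _ = _ := by ring
  have c1' : 2 * ((d ^ 3 * Cn : ℕ) : ℝ) ≤ 2 ^ (8 * d ^ 3 * (s + d ^ 2)) := by exact_mod_cast c1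
  have c2' : ((2 * d ^ 2 * (4 * d ^ 2) ^ (2 * (d + s) - 1) : ℕ) : ℝ) ≤
      2 ^ (8 * d ^ 3 * (s + d ^ 2)) := by exact_mod_cast c2
  have hdeg' : (J (d + s) d X : ℝ) ≤ 2 * (NS (injs d X) s X : ℝ) +
      ((2 * d ^ 2 * (4 * d ^ 2) ^ (2 * (d + s) - 1) : ℕ) : ℝ) := by exact_mod_cast hdeg
  have hP : (0 : ℝ) < 2 ^ (8 * d ^ 3 * (s + d ^ 2)) := by positivity
  calc (J (d + s) d X : ℝ) ≤ 2 * (NS (injs d X) s X : ℝ) +
      ((2 * d ^ 2 * (4 * d ^ 2) ^ (2 * (d + s) - 1) : ℕ) : ℝ) := hdeg'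
    _ ≤ 2 ^ (8 * d ^ 3 * (s + d ^ 2)) * (A * (X : ℝ) ^ E) +
        2 ^ (8 * d ^ 3 * (s + d ^ 2)) * (A * (X : ℝ) ^ E) := by
        apply add_le_add
        · calc 2 * (NS (injs d X) s X : ℝ) ≤ 2 * ((d ^ 3 * Cn : ℕ) * (A * (X : ℝ) ^ E)) :=
                mul_le_mul_of_nonneg_left hNS (by norm_num)
            _ = (2 * ((d ^ 3 * Cn : ℕ) : ℝ)) * (A * (X : ℝ) ^ E) := by ring
            _ ≤ _ := mul_le_mul_of_nonneg_right c1' (by linarith)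
        · exact c2'.trans (le_mul_of_one_le_right hP.le hAX)
    _ = _ := by
        rw [pow_succ]
        ring

end Pool.Agent.Work.Vino
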